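import Pool.Agent.Helper84.Era.Dich
import Pool.Agent.Helper84.Chan.Vec

/-!
The area theorem for codes with a large minimum distance.
-/

set_option autoImplicit false

namespace Pool.Agent.Helper84.Era

open Finset Filter
open Pool.Agent.Helper89K9.GV
open Pool.Agent.Helper84.Thresh
open Pool.Agent.Results.MP_0430e4_lc.ConstantWeightCriterion (IsCode)

/-! ### The binary entropy is at least `4 log 2 · p (1 - p)` -/

lemma Lg_ratio {x y : ℝ} (h0 : 0 < x) (hxy : x ≤ y) (h1 : y < 1 / 2) :
    (Real.log (1 - y) - Real.log y) * (1 - 2 * x) ≤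
      (Real.log (1 - x) - Real.log x) * (1 - 2 * y) := by
  have hy : 0 < y := by linarith
  have e : ∀ z : ℝ, 0 < z → z < 1 / 2 → HasSum
      (fun k : ℕ => (2 : ℝ) * (1 / (2 * k + 1)) * (1 - 2 * z) ^ (2 * k + 1))
      (Real.log (1 - z) - Real.log z) := by
    intro z hz hz2
    have h := Real.hasSum_log_sub_log_of_abs_lt_one (x := 1 - 2 * z)
      (abs_lt.2 ⟨by linarith, by linarith⟩)
    have e1 : Real.log (1 + (1 - 2 * z)) = Real.log 2 + Real.log (1 - z) := by
      rw [← Real.log_mul (by norm_num) (by linarith)]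
      congr 1
      ring
    have e2 : Real.log (1 - (1 - 2 * z)) = Real.log 2 + Real.log z := by
      rw [← Real.log_mul (by norm_num) (by linarith)]
      congr 1
      ring
    rw [e1, e2] at h
    have e3 : Real.log 2 + Real.log (1 - z) - (Real.log 2 + Real.log z) =
        Real.log (1 - z) - Real.log z := by ring
    rwa [e3] at h
  refine hasSum_le (fun k => ?_) ((e y hy h1).mul_right (1 - 2 * x))
    ((e x h0 (by linarith)).mul_right (1 - 2 * y))
  have h2 : (1 - 2 * y) ^ (2 * k) ≤ (1 - 2 * x) ^ (2 * k) :=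
    pow_le_pow_left₀ (by linarith) (by linarith) _
  have h3 : 0 ≤ (2 : ℝ) * (1 / (2 * k + 1)) := by positivity
  have h4 : 0 ≤ (2 : ℝ) * (1 / (2 * k + 1)) * ((1 - 2 * x) * (1 - 2 * y)) :=
    mul_nonneg h3 (mul_nonneg (by linarith) (by linarith))
  have h5 := mul_le_mul_of_nonneg_left h2 h4
  calc (2 : ℝ) * (1 / (2 * k + 1)) * (1 - 2 * y) ^ (2 * k + 1) * (1 - 2 * x)
      = (2 : ℝ) * (1 / (2 * k + 1)) * ((1 - 2 * x) * (1 - 2 * y)) * (1 - 2 * y) ^ (2 * k) := by
        rw [pow_succ]; ring
    _ ≤ (2 : ℝ) * (1 / (2 * k + 1)) * ((1 - 2 * x) * (1 - 2 * y)) * (1 - 2 * x) ^ (2 * k) := h5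
    _ = (2 : ℝ) * (1 / (2 * k + 1)) * (1 - 2 * x) ^ (2 * k + 1) * (1 - 2 * y) := by
        rw [pow_succ]; ring

lemma ent_half {p : ℝ} (h0 : 0 ≤ p) (h1 : p ≤ 1 / 2) :
    4 * Real.log 2 * (p * (1 - p)) ≤ Real.binEntropy p := by
  set f : ℝ → ℝ := fun x => Real.binEntropy x - 4 * Real.log 2 * (x * (1 - x)) with hf
  have f0 : f 0 = 0 := by simp [hf]
  have f1 : f (1 / 2) = 0 := by
    simp only [hf]
    rw [one_div, Real.binEntropy_two_inv]
    ring
  have hcont : Continuous f := by
    rw [hf]
    exact Real.binEntropy_continuous.sub (by fun_prop)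
  have hd : ∀ x : ℝ, 0 < x → x < 1 / 2 → HasDerivAt f
      (Real.log (1 - x) - Real.log x - 4 * Real.log 2 * (1 - 2 * x)) x := by
    intro x hx hx2
    have g1 := Real.hasDerivAt_binEntropy (p := x) hx.ne' (by linarith)
    have g2 : HasDerivAt (fun x : ℝ => 4 * Real.log 2 * (x * (1 - x)))
        (4 * Real.log 2 * (1 - 2 * x)) x := by
      have g3 := ((hasDerivAt_id x).mul ((hasDerivAt_id x).const_sub 1)).const_mul (4 * Real.log 2)
      refine g3.congr_deriv ?_
      simp only [id]
      ring
    exact g1.sub g2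
  suffices h : 0 ≤ f p by
    simp only [hf] at h
    linarith
  by_contra hneg
  push Not at hneg
  have hp0 : 0 < p := by
    rcases h0.eq_or_lt with h | h
    · rw [← h, f0] at hneg
      exact absurd hneg (lt_irrefl _)
    · exact h
  have hp1 : p < 1 / 2 := by
    rcases h1.eq_or_lt with h | h
    · rw [h, f1] at hneg
      exact absurd hneg (lt_irrefl _)
    · exact h
  obtain ⟨a, ha, hae⟩ := exists_hasDerivAt_eq_slope f
    (fun x => Real.log (1 - x) - Real.log x - 4 * Real.log 2 * (1 - 2 * x)) hp0
    hcont.continuousOn (fun x hx => hd x hx.1 (by linarith [hx.2]))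
  obtain ⟨b, hb, hbe⟩ := exists_hasDerivAt_eq_slope f
    (fun x => Real.log (1 - x) - Real.log x - 4 * Real.log 2 * (1 - 2 * x)) hp1
    hcont.continuousOn (fun x hx => hd x (by linarith [hx.1]) hx.2)
  have ha' : Real.log (1 - a) - Real.log a - 4 * Real.log 2 * (1 - 2 * a) < 0 := by
    rw [hae, f0]
    exact div_neg_of_neg_of_pos (by linarith) (by linarith)
  have hb' : 0 < Real.log (1 - b) - Real.log b - 4 * Real.log 2 * (1 - 2 * b) := by
    rw [hbe, f1]
    exact div_pos (by linarith) (by linarith)
  have hab := Lg_ratio (x := a) (y := b) ha.1 (by linarith [ha.2, hb.1]) hb.2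
  have k1 : 0 < 1 - 2 * a := by linarith [ha.2]
  have k2 : 0 < 1 - 2 * b := by linarith [hb.2]
  nlinarith [mul_pos k1 k2]

lemma ent_ge {p : ℝ} (h0 : 0 ≤ p) (h1 : p ≤ 1) :
    4 * Real.log 2 * (p * (1 - p)) ≤ Real.binEntropy p := by
  rcases le_total p (1 / 2) with h | h
  · exact ent_half h0 h
  · have := ent_half (p := 1 - p) (by linarith) (by linarith)
    rw [Real.binEntropy_one_sub] at this
    have e : (1 - p) * (1 - (1 - p)) = p * (1 - p) := by ring
    rwa [e] at this

/-- two masses -/
lemma two {a b : ℝ} (ha : 0 ≤ a) (hb : 0 ≤ b) (hab : 0 < a + b) :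
    2 * Real.log 2 * ((a * b + b * a) / (a + b)) ≤
      a * (Real.log (a + b) - Real.log a) + b * (Real.log (a + b) - Real.log b) := by
  have h1 := Chan.mass ha hb hab
  have h2 := ent_ge (p := b / (a + b)) (div_nonneg hb hab.le) (by
    rw [div_le_one hab]; linarith)
  have h3 := mul_le_mul_of_nonneg_left h2 hab.le
  have e : (a + b) * (4 * Real.log 2 * (b / (a + b) * (1 - b / (a + b)))) =
      2 * Real.log 2 * ((a * b + b * a) / (a + b)) := by
    field_simp
    ring
  rw [e] at h3
  linarith

variable {n : ℕ}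

/-! ### The sum of the logarithms of the classes -/

/-- the sum of the logarithms of the numbers of the words in the classes -/
noncomputable def gl (C : Finset (Fin n → Bool)) (W : Fin n → Bool) : ℝ :=
  ∑ x ∈ C, Real.log ((cl C W x).card : ℝ)

/-- averages over the classes -/
lemma avg (C : Finset (Fin n → Bool)) (W : Fin n → Bool) (f : (Fin n → Bool) → ℝ) :
    ∑ x ∈ C, (∑ z ∈ cl C W x, f z) / (cl C W x).card = ∑ x ∈ C, f x := by
  calc ∑ x ∈ C, (∑ z ∈ cl C W x, f z) / ((cl C W x).card : ℝ)
      = ∑ x ∈ C, ∑ z ∈ cl C W x, f z / ((cl C W x).card : ℝ) :=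
        Finset.sum_congr rfl fun x _ => Finset.sum_div _ _ _
    _ = ∑ z ∈ C, ∑ x ∈ cl C W z, f z / ((cl C W x).card : ℝ) := by
        refine Finset.sum_comm' fun x z => ?_
        constructor
        · rintro ⟨hx, hz⟩
          exact ⟨cl_symm hx hz, (mem_cl.1 hz).1⟩
        · rintro ⟨hx, hz⟩
          exact ⟨(mem_cl.1 hx).1, cl_symm hz hx⟩
    _ = ∑ z ∈ C, f z := by
        refine Finset.sum_congr rfl fun z hz => ?_
        have h : ∀ x ∈ cl C W z, f z / ((cl C W x).card : ℝ) = f z / (cl C W z).card := by
          intro x hx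
          rw [cl_eq (mem_cl.1 hx).2]
        rw [Finset.sum_congr rfl h, Finset.sum_const, nsmul_eq_mul]
        have : ((cl C W z).card : ℝ) ≠ 0 := by exact_mod_cast (cl_pos hz).ne'
        field_simp

lemma cl_update {C : Finset (Fin n → Bool)} {W : Fin n → Bool} {i : Fin n}
    (x : Fin n → Bool) :
    cl C (Function.update W i false) x = (cl C W x).filter fun z => z i = x i := by
  ext z
  rw [Finset.mem_filter, mem_cl, mem_cl]
  constructor
  · rintro ⟨h1, h2⟩
    refine ⟨⟨h1, fun j hj => ?_⟩, h2 i (Function.update_self _ _ _)⟩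
    by_cases hij : j = i
    · rw [hij]
      exact h2 i (Function.update_self _ _ _)
    · exact h2 j (by rw [Function.update_of_ne hij]; exact hj)
  · rintro ⟨⟨h1, h2⟩, h3⟩
    refine ⟨h1, fun j hj => ?_⟩
    by_cases hij : j = i
    · rw [hij]
      exact h3
    · rw [Function.update_of_ne hij] at hj
      exact h2 j hj

/-- one coordinate -/
lemma coord (C : Finset (Fin n → Bool)) (W : Fin n → Bool) (i : Fin n) :
    2 * Real.log 2 * ∑ x ∈ C, (((cl C W x).filter fun u => x i ≠ u i).card : ℝ) /
        (cl C W x).card ≤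
      gl C W - gl C (Function.update W i false) := by
  classical
  unfold gl
  rw [← Finset.sum_sub_distrib, ← avg C W (fun x => Real.log ((cl C W x).card : ℝ) -
    Real.log ((cl C (Function.update W i false) x).card : ℝ)),
    ← avg C W (fun x => (((cl C W x).filter fun u => x i ≠ u i).card : ℝ) / (cl C W x).card),
    Finset.mul_sum]
  refine Finset.sum_le_sum fun x hx => ?_
  set T := cl C W x with hT
  have hTpos : (0 : ℝ) < T.card := by exact_mod_cast cl_pos hx
  set a : ℝ := ((T.filter fun z => z i = true).card : ℝ) with ha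
  set b : ℝ := ((T.filter fun z => ¬ z i = true).card : ℝ) with hb
  have hab : a + b = T.card := by
    rw [ha, hb]
    exact_mod_cast Finset.card_filter_add_card_filter_not (s := T) fun z => z i = true
  have hcls : ∀ z ∈ T, cl C W z = T := fun z hz => by
    rw [hT]
    exact cl_eq (mem_cl.1 hz).2
  have ft : ∀ z ∈ T, z i = true → (T.filter fun u => u i = z i) = T.filter fun u => u i = true :=
    fun z _ h => by rw [h]
  have ff : ∀ z ∈ T, ¬ z i = true →
      (T.filter fun u => u i = z i) = T.filter fun u => ¬ u i = true := fun z _ h => by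
    rw [Bool.not_eq_true] at h
    rw [h]
    refine Finset.filter_congr fun u _ => ?_
    rw [Bool.not_eq_true]
  have gt : ∀ z ∈ T, z i = true → (T.filter fun u => z i ≠ u i) = T.filter fun u => ¬ u i = true :=
    fun z _ h => by
      refine Finset.filter_congr fun u _ => ?_
      rw [h]
      cases u i <;> simp
  have gf : ∀ z ∈ T, ¬ z i = true →
      (T.filter fun u => z i ≠ u i) = T.filter fun u => u i = true := fun z _ h => by
    rw [Bool.not_eq_true] at h
    refine Finset.filter_congr fun u _ => ?_
    rw [h]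
    cases u i <;> simp
  have e1 : ∑ z ∈ T, (Real.log ((cl C W z).card : ℝ) -
      Real.log ((cl C (Function.update W i false) z).card : ℝ)) =
      a * (Real.log (a + b) - Real.log a) + b * (Real.log (a + b) - Real.log b) := by
    rw [← Finset.sum_filter_add_sum_filter_not T (fun z => z i = true)]
    congr 1
    · rw [ha, ← nsmul_eq_mul, ← Finset.sum_const]
      refine Finset.sum_congr rfl fun z hz => ?_
      rw [Finset.mem_filter] at hz
      rw [cl_update, hcls z hz.1, ft z hz.1 hz.2, hab, ← ha]
    · rw [hb, ← nsmul_eq_mul, ← Finset.sum_const]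
      refine Finset.sum_congr rfl fun z hz => ?_
      rw [Finset.mem_filter] at hz
      rw [cl_update, hcls z hz.1, ff z hz.1 hz.2, hab, ← hb]
  have e2 : ∑ z ∈ T, (((cl C W z).filter fun u => z i ≠ u i).card : ℝ) / (cl C W z).card =
      (a * b + b * a) / (a + b) := by
    rw [← Finset.sum_filter_add_sum_filter_not T (fun z => z i = true), add_div]
    congr 1
    · rw [mul_div_assoc]
      nth_rewrite 1 [ha]
      rw [← nsmul_eq_mul, ← Finset.sum_const]
      refine Finset.sum_congr rfl fun z hz => ?_
      rw [Finset.mem_filter] at hz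
      rw [hcls z hz.1, gt z hz.1 hz.2, hab, ← hb]
    · rw [mul_div_assoc]
      nth_rewrite 1 [hb]
      rw [← nsmul_eq_mul, ← Finset.sum_const]
      refine Finset.sum_congr rfl fun z hz => ?_
      rw [Finset.mem_filter] at hz
      rw [hcls z hz.1, gf z hz.1 hz.2, hab, ← ha]
  rw [e1, e2, ← mul_div_assoc]
  refine div_le_div_of_nonneg_right ?_ hTpos.le
  exact two (Nat.cast_nonneg _) (Nat.cast_nonneg _) (by rw [hab]; exact hTpos)

/-- all coordinates -/
lemma coords {d : ℕ} {C : Finset (Fin n → Bool)} (hC : IsCode d C) (W : Fin n → Bool) :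
    2 * Real.log 2 * (d * (C.card - ∑ x ∈ C, 1 / ((cl C W x).card : ℝ))) ≤
      ∑ i, if W i = true then gl C W - gl C (Function.update W i false) else 0 := by
  classical
  have hlog : 0 < Real.log 2 := Real.log_pos (by norm_num)
  have e1 : ∀ i : Fin n, (if W i = true then gl C W - gl C (Function.update W i false) else 0) ≥
      2 * Real.log 2 * ∑ x ∈ C, (((cl C W x).filter fun u => x i ≠ u i).card : ℝ) /
        (cl C W x).card := by
    intro i
    split_ifs with h
    · exact coord C W i
    · rw [Bool.not_eq_true] at h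
      have : ∀ x ∈ C, (((cl C W x).filter fun u => x i ≠ u i).card : ℝ) /
          (cl C W x).card = 0 := by
        intro x _
        have h2 : ((cl C W x).filter fun u => x i ≠ u i) = ∅ := by
          rw [Finset.filter_eq_empty_iff]
          intro u hu hne
          exact hne ((mem_cl.1 hu).2 i h).symm
        rw [h2]
        simp
      rw [Finset.sum_congr rfl this]
      simp
  refine le_trans ?_ (Finset.sum_le_sum fun i _ => e1 i)
  rw [← Finset.mul_sum]
  refine mul_le_mul_of_nonneg_left ?_ (by positivity)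
  rw [Finset.sum_comm]
  have e2 : (C.card : ℝ) = ∑ _x ∈ C, (1 : ℝ) := by simp
  rw [e2, ← Finset.sum_sub_distrib, Finset.mul_sum]
  refine Finset.sum_le_sum fun x hx => ?_
  have hpos : (0 : ℝ) < (cl C W x).card := by exact_mod_cast cl_pos hx
  rw [← Finset.sum_div, le_div_iff₀ hpos]
  have e3 : ∑ i, (((cl C W x).filter fun u => x i ≠ u i).card : ℝ) =
      ∑ u ∈ cl C W x, (hammingDist x u : ℝ) := by
    have : ∀ i : Fin n, (((cl C W x).filter fun u => x i ≠ u i).card : ℝ) =
        ∑ u ∈ cl C W x, if x i ≠ u i then (1 : ℝ) else 0 := by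
      intro i
      rw [Finset.card_filter]
      push_cast
      rfl
    rw [Finset.sum_congr rfl fun i _ => this i, Finset.sum_comm]
    exact Finset.sum_congr rfl fun u _ => (hd_sum x u).symm
  rw [e3, ← Finset.add_sum_erase _ _ (self_mem hx)]
  have e4 : ((hammingDist x x : ℕ) : ℝ) = 0 := by simp
  rw [e4, zero_add]
  calc (d : ℝ) * (1 - 1 / (cl C W x).card) * (cl C W x).card
      = ((cl C W x).card - 1) * d := by
        field_simp
    _ = ∑ _u ∈ (cl C W x).erase x, (d : ℝ) := by
        rw [Finset.sum_const, nsmul_eq_mul, Finset.card_erase_of_mem (self_mem hx),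
          Nat.cast_sub (cl_pos hx)]
        simp
    _ ≤ ∑ u ∈ (cl C W x).erase x, (hammingDist x u : ℝ) := by
        refine Finset.sum_le_sum fun u hu => ?_
        rw [Finset.mem_erase] at hu
        exact_mod_cast hC x hx u (mem_cl.1 hu.2).1 hu.1.symm

/-! ### The derivative in the erasure probability -/

/-- the mean of the sum of the logarithms -/
noncomputable def Qe (e : ℝ) (C : Finset (Fin n → Bool)) : ℝ :=
  ∑ W : Fin n → Bool, mu e W * gl C W

lemma suc_anti {e e' : ℝ} (h0 : 0 ≤ e) (h : e ≤ e') (h1 : e' ≤ 1) (C : Finset (Fin n → Bool)) :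
    suc e' C ≤ suc e C := by
  rcases (h0.trans h).eq_or_lt with h2 | h2
  · have : e = e' := by linarith
    rw [this]
  · have he : e' * (e / e') = e := by field_simp
    have ht0 : 0 ≤ e / e' := div_nonneg h0 h2.le
    have ht1 : e / e' ≤ 1 := by rw [div_le_one h2]; exact h
    unfold suc
    rw [← he, ← thin e' (e / e') (fun W => ∑ x ∈ C, 1 / ((cl C W x).card : ℝ))]
    refine Finset.sum_le_sum fun W _ => mul_le_mul_of_nonneg_left ?_ (mu_nonneg h2.le h1 _)
    calc ∑ x ∈ C, 1 / ((cl C W x).card : ℝ)
        = ∑ V : Fin n → Bool, mu (e / e') V * ∑ x ∈ C, 1 / ((cl C W x).card : ℝ) := by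
          rw [← Finset.sum_mul, sum_mu, one_mul]
      _ ≤ _ := by
          refine Finset.sum_le_sum fun V _ => mul_le_mul_of_nonneg_left ?_ (mu_nonneg ht0 ht1 _)
          refine Finset.sum_le_sum fun x hx => ?_
          apply one_div_le_one_div_of_le
          · exact_mod_cast cl_pos hx
          · exact_mod_cast Finset.card_le_card (cl_mono fun i hi => by
              simp only [Bool.and_eq_true] at hi
              exact hi.1)

lemma me_deriv (e : ℝ) (b : Bool) : HasDerivAt (fun e => me e b) (if b = true then 1 else -1) e := by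
  unfold me
  cases b
  · simpa using (hasDerivAt_id' e).const_sub 1
  · simpa using hasDerivAt_id' e

lemma Qe_deriv {e : ℝ} (he : e ≠ 0) (C : Finset (Fin n → Bool)) :
    HasDerivAt (fun e => Qe e C) ((∑ W : Fin n → Bool, mu e W *
      ∑ i, if W i = true then gl C W - gl C (Function.update W i false) else 0) / e) e := by
  classical
  have h1 : ∀ W : Fin n → Bool, HasDerivAt (fun e => mu e W * gl C W)
      ((∑ i, (∏ j ∈ univ.erase i, me e (W j)) • (if W i = true then (1 : ℝ) else -1)) *
        gl C W) e := by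
    intro W
    refine HasDerivAt.mul_const ?_ _
    exact HasDerivAt.fun_finsetProd fun i _ => me_deriv e (W i)
  have h2 := HasDerivAt.fun_sum (u := (univ : Finset (Fin n → Bool))) fun W _ => h1 W
  refine h2.congr_deriv ?_
  rw [eq_div_iff he]
  simp_rw [smul_eq_mul, Finset.sum_mul, Finset.mul_sum]
  rw [Finset.sum_comm, Finset.sum_comm (s := (univ : Finset (Fin n → Bool)))
    (t := (univ : Finset (Fin n)))]
  refine Finset.sum_congr rfl fun i _ => ?_
  set P : (Fin n → Bool) → ℝ := fun W => ∏ j ∈ univ.erase i, me e (W j) with hP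
  have hPu : ∀ (W : Fin n → Bool) (b : Bool), P (Function.update W i b) = P W := by
    intro W b
    rw [hP]
    refine Finset.prod_congr rfl fun j hj => ?_
    rw [Function.update_of_ne (Finset.ne_of_mem_erase hj)]
  have hmu : ∀ W : Fin n → Bool, mu e W = me e (W i) * P W := by
    intro W
    unfold mu
    rw [← Finset.mul_prod_erase univ _ (Finset.mem_univ i)]
  have e1 : ∀ W : Fin n → Bool, P W * (if W i = true then (1 : ℝ) else -1) * gl C W * e =
      (if W i = true then e * P W * gl C W else 0) -
        (if W i = true then 0 else e * P W * gl C W) := by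
    intro W
    split_ifs <;> ring
  have e2 : ∀ W : Fin n → Bool, mu e W *
      (if W i = true then gl C W - gl C (Function.update W i false) else 0) =
      (if W i = true then e * P W * gl C W else 0) -
        (if W i = true then e * P W * gl C (Function.update W i false) else 0) := by
    intro W
    rw [hmu]
    split_ifs with h
    · rw [h]
      unfold me
      simp
      ring
    · simp
  rw [Finset.sum_congr rfl fun W _ => e1 W, Finset.sum_congr rfl fun W _ => e2 W,
    Finset.sum_sub_distrib, Finset.sum_sub_distrib]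
  congr 1
  rw [← sum_fl i (fun W => if W i = true then 0 else e * P W * gl C W)]
  refine Finset.sum_congr rfl fun W _ => ?_
  have h3 : fl i W i = !(W i) := by
    unfold fl
    rw [Function.update_self]
  rw [h3]
  cases h : W i
  · simp
  · have h4 : fl i W = Function.update W i false := by
      unfold fl
      rw [h]
      rfl
    rw [h4]
    simp [hPu]

end Pool.Agent.Helper84.Era
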