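import Pool.Agent.Helper84.Era.Bec
import Pool.Agent.Helper84.Thresh.Final

/-!
The universal threshold of the erasure channel.
-/

set_option autoImplicit false

namespace Pool.Agent.Helper84.Era

open Finset Filter Topology
open Pool.Agent.Helper89K9.GV (mix eqv kern)
open Pool.Agent.Helper84.Thresh
open Pool.Agent.Results.MP_0430e4_lc.ConstantWeightCriterion (IsCode H A R)
open Pool.Agent.Helper84.Chan (En kv mv En_eq Sym kc mc Ec rt errC optC worstC Cn Cn_eq Ec_eq
  optC_le le_optC worstC_le le_worstC worstC_nonneg optC_le_one errC_nonneg)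

/-- **The dichotomy for two erasure probabilities.** -/
lemma law {δ a b : ℝ} (hδ : 0 < δ) (ha : 0 < a) (hab : a < b) (hb : b ≤ 1) :
    ∃ c : ℝ, 0 < c ∧ ∀ n : ℕ, worstC δ (bP a) n ≤ 3 * Real.exp (-(c * n)) ∨
      ∃ C : Finset (Fin n → Bool), C.Nonempty ∧ IsCode ⌈δ * n⌉₊ C ∧
        suc b C ≤ 3 * Real.exp (-(c * n)) * C.card := by
  have hb0 : 0 < b := ha.trans hab
  set t : ℝ := a / b with ht
  have ht0 : 0 < t := div_pos ha hb0
  have ht1 : t < 1 := by rw [ht, div_lt_one hb0]; exact hab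
  have hbt : b * t = a := by rw [ht]; field_simp
  have hlt : 0 < -Real.log t := by
    have := Real.log_neg ht0 ht1
    linarith
  set η : ℝ := δ * (-Real.log t) / 2 with hη
  have hη0 : 0 < η := by positivity
  obtain ⟨c, hc, h⟩ := dich_e hb0.le hb hη0
  have hcc : ∀ (n : ℕ), Real.exp (-(c * n)) ≤ Real.exp (-(min c η * n)) := fun n => by
    apply Real.exp_le_exp.2
    have := mul_le_mul_of_nonneg_right (min_le_left c η) (Nat.cast_nonneg (α := ℝ) n)
    linarith
  have hcη : ∀ (n : ℕ), Real.exp (-(η * n)) ≤ Real.exp (-(min c η * n)) := fun n => by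
    apply Real.exp_le_exp.2
    have := mul_le_mul_of_nonneg_right (min_le_right c η) (Nat.cast_nonneg (α := ℝ) n)
    linarith
  refine ⟨min c η, lt_min hc hη0, fun n => ?_⟩
  by_cases hall : ∀ C : Finset (Fin n → Bool), C.Nonempty → IsCode ⌈δ * n⌉₊ C →
      big b C (Real.exp (η * n)) ≤ 2 * Real.exp (-(c * n)) * C.card
  · left
    apply worstC_le
    intro C hC hcode
    have hcard : (0 : ℝ) < C.card := by exact_mod_cast hC.card_pos
    refine (opt_le_amb ha.le (hab.le.trans hb)).trans ?_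
    rw [div_le_iff₀ hcard]
    have h1 := amb_le hb0.le hb ht0.le ht1.le hcode (Real.exp_pos (η * n)).le
    rw [hbt] at h1
    refine h1.trans ?_
    have h2 : Real.exp (η * n) * t ^ ⌈δ * n⌉₊ ≤ Real.exp (-(η * n)) := by
      have h3 : t ^ ⌈δ * n⌉₊ ≤ Real.exp (-(2 * η * n)) := by
        rw [← Real.rpow_natCast]
        calc t ^ ((⌈δ * n⌉₊ : ℕ) : ℝ) ≤ t ^ (δ * n) :=
              Real.rpow_le_rpow_of_exponent_ge ht0 ht1.le (Nat.le_ceil _)
          _ = Real.exp (-(2 * η * n)) := by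
              rw [Real.rpow_def_of_pos ht0]
              congr 1
              rw [hη]
              ring
      calc Real.exp (η * n) * t ^ ⌈δ * n⌉₊ ≤ Real.exp (η * n) * Real.exp (-(2 * η * n)) :=
            mul_le_mul_of_nonneg_left h3 (Real.exp_pos _).le
        _ = Real.exp (-(η * n)) := by
            rw [← Real.exp_add]
            congr 1
            ring
    have h4 := hall C hC hcode
    have h5 := mul_le_mul_of_nonneg_left (h2.trans (hcη n)) hcard.le
    have h6 := mul_le_mul_of_nonneg_right (hcc n) hcard.le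
    linarith
  · right
    push Not at hall
    obtain ⟨C, hC, hcode, hbig⟩ := hall
    rcases h n C hC with h1 | ⟨C', hsub, hC', hs⟩
    · exact absurd h1 (not_le.2 hbig)
    · refine ⟨C', hC', code_sub hcode hsub, hs.trans ?_⟩
      have hcard : (0 : ℝ) < C'.card := by exact_mod_cast hC'.card_pos
      have := mul_le_mul_of_nonneg_right (hcc n) hcard.le
      linarith

/-- the error probability of a confused code -/
lemma worst_ge {δ b r : ℝ} (hb0 : 0 ≤ b) (hb : b ≤ 1) {n : ℕ} {C : Finset (Fin n → Bool)}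
    (hC : C.Nonempty) (hcode : IsCode ⌈δ * n⌉₊ C) (hs : suc b C ≤ r * C.card) :
    1 - r ≤ worstC δ (bP b) n := by
  have hcard : (0 : ℝ) < C.card := by exact_mod_cast hC.card_pos
  have h1 := opt_ge_suc hb0 hb hC
  have h2 : suc b C / C.card ≤ r := by rw [div_le_iff₀ hcard]; exact hs
  have h3 := le_worstC (bSym hb0 hb) hC hcode
  linarith

lemma worst_le_one {δ b : ℝ} (hb0 : 0 ≤ b) (hb : b ≤ 1) (n : ℕ) : worstC δ (bP b) n ≤ 1 :=
  worstC_le fun _ _ _ => optC_le_one (bSym hb0 hb) _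

/-- **The zero-one law.** -/
lemma zero_one {δ a b : ℝ} (hδ : 0 < δ) (ha : 0 < a) (hab : a < b) (hb : b ≤ 1) :
    ∃ c : ℝ, 0 < c ∧ ∀ n : ℕ, worstC δ (bP a) n ≤ 2 * Real.exp (-(c * n)) ∨
      1 - Real.exp (-(c * n)) ≤ worstC δ (bP b) n := by
  obtain ⟨c, hc, h⟩ := law hδ ha hab hb
  refine ⟨c / 4, by positivity, fun n => ?_⟩
  have hn : (0 : ℝ) ≤ n := Nat.cast_nonneg _
  by_cases hbig : Real.log 3 ≤ 3 / 4 * c * n
  · have h3 : 3 * Real.exp (-(c * n)) ≤ Real.exp (-(c / 4 * n)) := by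
      calc 3 * Real.exp (-(c * n)) = Real.exp (Real.log 3) * Real.exp (-(c * n)) := by
            rw [Real.exp_log (by norm_num)]
        _ = Real.exp (Real.log 3 - c * n) := by rw [← Real.exp_add]; rfl
        _ ≤ _ := by
            apply Real.exp_le_exp.2
            linarith
    rcases h n with h1 | ⟨C, hC, hcode, hs⟩
    · left
      have := Real.exp_pos (-(c / 4 * n))
      linarith
    · right
      have h4 := worst_ge (ha.trans hab).le hb hC hcode hs
      linarith
  · left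
    push Not at hbig
    have h1 := worst_le_one (δ := δ) ha.le (hab.le.trans hb) n
    refine h1.trans ?_
    have h2 : Real.log 3 ≤ 3 * Real.log 2 := by
      rw [← Real.log_rpow (by norm_num)]
      exact Real.log_le_log (by norm_num) (by norm_num)
    have h3 : Real.exp (-Real.log 2) ≤ Real.exp (-(c / 4 * n)) := by
      apply Real.exp_le_exp.2
      linarith
    rw [Real.exp_neg, Real.exp_log (by norm_num)] at h3
    linarith

/-- the universal threshold -/
noncomputable def es (δ : ℝ) : ℝ :=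
  sSup {a : ℝ | 0 ≤ a ∧ a ≤ 1 ∧ Tendsto (fun n => worstC δ (bP a) n) atTop (𝓝 0)}

lemma es_bdd (δ : ℝ) : BddAbove {a : ℝ | 0 ≤ a ∧ a ≤ 1 ∧
    Tendsto (fun n => worstC δ (bP a) n) atTop (𝓝 0)} := ⟨1, fun _ h => h.2.1⟩

lemma below_es {δ a : ℝ} (hδ : 0 < δ) (ha : 0 < a) (h : a < es δ) :
    ∃ c : ℝ, 0 < c ∧ ∀ᶠ n : ℕ in atTop, worstC δ (bP a) n ≤ Real.exp (-(c * n)) := by
  have hne : {a : ℝ | 0 ≤ a ∧ a ≤ 1 ∧
      Tendsto (fun n => worstC δ (bP a) n) atTop (𝓝 0)}.Nonempty := by
    by_contra hcon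
    rw [Set.not_nonempty_iff_eq_empty] at hcon
    unfold es at h
    rw [hcon, Real.sSup_empty] at h
    linarith
  obtain ⟨b, ⟨-, hb1, hb⟩, hab⟩ := exists_lt_of_lt_csSup hne h
  obtain ⟨c, hc, hlaw⟩ := zero_one hδ ha hab hb1
  refine ⟨c / 2, by positivity, ?_⟩
  have h1 : ∀ᶠ n : ℕ in atTop, worstC δ (bP b) n < 1 / 2 := hb.eventually (gt_mem_nhds (by norm_num))
  have h2 : ∀ᶠ n : ℕ in atTop, Real.exp (-(c * n)) < 1 / 2 :=
    (tendsto_exp hc).eventually (gt_mem_nhds (by norm_num))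
  have h3 : ∀ᶠ n : ℕ in atTop, Real.exp (-(c / 2 * n)) < 1 / 2 :=
    (tendsto_exp (by positivity : 0 < c / 2)).eventually (gt_mem_nhds (by norm_num))
  filter_upwards [h1, h2, h3] with n k1 k2 k3
  rcases hlaw n with h4 | h4
  · refine h4.trans ?_
    have e1 : Real.exp (-(c * n)) = Real.exp (-(c / 2 * n)) * Real.exp (-(c / 2 * n)) := by
      rw [← Real.exp_add]
      congr 1
      ring
    rw [e1]
    have := Real.exp_pos (-(c / 2 * n))
    nlinarith
  · linarith

/-- above the threshold there are confused codes -/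
lemma confused_es {δ a : ℝ} (hδ : 0 < δ) (h0 : 0 ≤ es δ) (h : es δ < a) (h1 : a ≤ 1) :
    ∃ c : ℝ, 0 < c ∧ ∃ᶠ n : ℕ in atTop, ∃ C : Finset (Fin n → Bool), C.Nonempty ∧
      IsCode ⌈δ * n⌉₊ C ∧ suc a C ≤ 3 * Real.exp (-(c * n)) * C.card := by
  obtain ⟨b, hb1, hb2⟩ := exists_between h
  obtain ⟨c, hc, hlaw⟩ := law hδ (by linarith : 0 < b) hb2 h1
  refine ⟨c, hc, ?_⟩
  by_contra hcon
  rw [Filter.not_frequently] at hcon
  have hb : Tendsto (fun n => worstC δ (bP b) n) atTop (𝓝 0) := by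
    refine tendsto_of_tendsto_of_tendsto_of_le_of_le' tendsto_const_nhds
      (?_ : Tendsto (fun n : ℕ => 3 * Real.exp (-(c * n))) atTop (𝓝 0))
      (Eventually.of_forall fun n => worstC_nonneg (bSym (by linarith) (by linarith)) δ n) ?_
    · have := (tendsto_exp hc).const_mul 3
      rwa [mul_zero] at this
    · filter_upwards [hcon] with n hn
      rcases hlaw n with h4 | h4
      · exact h4
      · exact absurd h4 hn
  have : b ≤ es δ := le_csSup (es_bdd δ) ⟨by linarith, by linarith, hb⟩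
  linarith

lemma above_es {δ a : ℝ} (hδ : 0 < δ) (h0 : 0 ≤ es δ) (h : es δ < a) (h1 : a ≤ 1) :
    ∃ c : ℝ, 0 < c ∧ ∃ᶠ n : ℕ in atTop, 1 - Real.exp (-(c * n)) ≤ worstC δ (bP a) n := by
  obtain ⟨c, hc, h2⟩ := confused_es hδ h0 h h1
  refine ⟨c / 2, by positivity, ?_⟩
  have h3 : ∀ᶠ n : ℕ in atTop, Real.exp (-(c / 2 * n)) < 1 / 3 :=
    (tendsto_exp (by positivity : 0 < c / 2)).eventually (gt_mem_nhds (by norm_num))
  refine (h2.and_eventually h3).mono ?_
  rintro n ⟨⟨C, hC, hcode, hs⟩, hn⟩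
  have h4 := worst_ge (by linarith) h1 hC hcode hs
  have e1 : Real.exp (-(c * n)) = Real.exp (-(c / 2 * n)) * Real.exp (-(c / 2 * n)) := by
    rw [← Real.exp_add]
    congr 1
    ring
  have := Real.exp_pos (-(c / 2 * n))
  nlinarith

/-! ### The capacity -/

lemma bP_ent {a : ℝ} (h0 : 0 ≤ a) (h1 : a ≤ 1) :
    ∑ y, Chan.wt (bP a) y * Real.binEntropy (rt (bP a) y) = a * Real.log 2 := by
  rw [Fintype.sum_option, Fintype.sum_bool]
  have e1 : Chan.wt (bP a) none = a := by
    unfold Chan.wt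
    rw [bP_none, bP_none]
    ring
  have e2 : a ≠ 0 → rt (bP a) none = 1 / 2 := by
    intro h
    unfold rt
    rw [bP_none, bP_none]
    field_simp
    norm_num
  have e3 : Real.binEntropy (rt (bP a) (some true)) = 0 := by
    unfold rt
    rw [bP_some, bP_some]
    by_cases h : 1 - a = 0
    · simp [h]
    · simp [h]
  have e4 : Real.binEntropy (rt (bP a) (some false)) = 0 := by
    unfold rt
    rw [bP_some, bP_some]
    simp
  rw [e1, e3, e4]
  by_cases h : a = 0
  · simp [h]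
  · rw [e2 h, one_div, Real.binEntropy_two_inv]
    ring

lemma Cn_bP {a : ℝ} (h0 : 0 ≤ a) (h1 : a ≤ 1) : Cn (bP a) = (1 - a) * Real.log 2 := by
  rw [Cn_eq (bSym h0 h1), bP_ent h0 h1]
  ring

lemma not_tendsto {δ a : ℝ}
    (h : ∃ c : ℝ, 0 < c ∧ ∃ᶠ n : ℕ in atTop, 1 - Real.exp (-(c * n)) ≤ worstC δ (bP a) n) :
    ¬ Tendsto (fun n => worstC δ (bP a) n) atTop (𝓝 0) := by
  intro hr
  obtain ⟨c, hc, h2⟩ := h
  have h3 : ∀ᶠ n : ℕ in atTop, worstC δ (bP a) n < 1 / 2 :=
    hr.eventually (gt_mem_nhds (by norm_num))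
  have h4 : ∀ᶠ n : ℕ in atTop, Real.exp (-(c * n)) < 1 / 2 :=
    (tendsto_exp hc).eventually (gt_mem_nhds (by norm_num))
  obtain ⟨n, a1, a2, a3⟩ := (h2.and_eventually (h3.and h4)).exists
  linarith

lemma tendsto_of_exp {δ a : ℝ} (h0 : 0 ≤ a) (h1 : a ≤ 1)
    (h : ∃ c : ℝ, 0 < c ∧ ∀ᶠ n : ℕ in atTop, worstC δ (bP a) n ≤ Real.exp (-(c * n))) :
    Tendsto (fun n => worstC δ (bP a) n) atTop (𝓝 0) := by
  obtain ⟨c, hc, h2⟩ := h
  exact tendsto_of_tendsto_of_tendsto_of_le_of_le' tendsto_const_nhds (tendsto_exp hc)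
    (Eventually.of_forall fun n => worstC_nonneg (bSym h0 h1) δ n) h2

lemma H_lt_one {p : ℝ} (h0 : 0 ≤ p) (h1 : p < 1 / 2) : H p < 1 := by
  have := H_lt h0 h1 le_rfl
  rwa [H_half] at this

lemma H_nonneg {p : ℝ} (h0 : 0 ≤ p) (h1 : p ≤ 1) : 0 ≤ H p := by
  have hlog : 0 < Real.log 2 := Real.log_pos (by norm_num)
  have := Real.binEntropy_nonneg h0 h1
  rw [← H_log] at this
  exact nonneg_of_mul_nonneg_left this hlog

/-- `H(θ) ≤ ε*` -/
lemma H_th_le {δ : ℝ} (h0 : 0 < δ) (h1 : δ < 1 / 2) : H (th δ) ≤ es δ := by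
  have hlog : 0 < Real.log 2 := Real.log_pos (by norm_num)
  have ht := th_pos h0 h1
  have ht2 := th_lt_half h0 h1
  have hH1 := H_lt_one ht.le ht2
  have hH0 := H_nonneg ht.le (by linarith)
  apply le_of_forall_lt_imp_le_of_dense
  intro a ha
  rcases lt_or_ge a 0 with ha0 | ha0
  · exact ha0.le.trans (Real.sSup_nonneg fun _ h => h.1)
  · apply le_csSup (es_bdd δ)
    refine ⟨ha0, by linarith, tendsto_of_exp ha0 (by linarith) ?_⟩
    have hc : Tendsto (fun p => H p) (𝓝[<] (th δ)) (𝓝 (H (th δ))) :=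
      (Pool.Agent.Results.MP_0430e4_lc.ConstantWeightCriterion.H_cont.tendsto _).mono_left
        nhdsWithin_le_nhds
    have h2 : ∀ᶠ p in 𝓝[<] (th δ), a < H p := hc.eventually (lt_mem_nhds ha)
    obtain ⟨p, hp1, hp2⟩ := (h2.and (Ioo_mem_nhdsLT ht)).exists
    apply Chan.small (bSym ha0 (by linarith)) h0 hp2.1 hp2.2
    rw [bP_ent ha0 (by linarith), ← H_log]
    exact mul_le_mul_of_nonneg_right hp1.le hlog.le

lemma es_pos {δ : ℝ} (h0 : 0 < δ) (h1 : δ < 1 / 2) : 0 < es δ := by
  refine lt_of_lt_of_le ?_ (H_th_le h0 h1)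
  have := H_lt le_rfl (th_pos h0 h1) (th_lt_half h0 h1).le
  have hz : H 0 = 0 := by
    have hlog : Real.log 2 ≠ 0 := (Real.log_pos (by norm_num)).ne'
    have h := H_log 0
    rw [Real.binEntropy_zero] at h
    exact (mul_eq_zero.1 h).resolve_right hlog
  rwa [hz] at this

/-- `R ≤ 1 - ε*` -/
lemma R_le_es {δ : ℝ} (h0 : 0 < δ) (h1 : δ < 1 / 2) : R δ ≤ 1 - es δ := by
  have hlog : 0 < Real.log 2 := Real.log_pos (by norm_num)
  by_contra hcon
  push Not at hcon
  have hes := es_pos h0 h1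
  have hes1 : es δ ≤ 1 := Real.sSup_le (fun _ h => h.2.1) zero_le_one
  obtain ⟨a, ha1, ha2⟩ := exists_between (max_lt hes (by linarith : 1 - R δ < es δ))
  have ha0 : 0 < a := (le_max_left _ _).trans_lt ha1
  have ha3 : 1 - R δ < a := (le_max_right _ _).trans_lt ha1
  refine not_tendsto (Chan.converse (bSym ha0.le (by linarith)) (δ := δ) ?_)
    (tendsto_of_exp ha0.le (by linarith) (below_es h0 ha0 ha2))
  rw [Cn_bP ha0.le (by linarith)]
  exact mul_lt_mul_of_pos_right (by linarith) hlog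

lemma es_le_H {δ : ℝ} (h0 : 0 < δ) (h1 : δ < 1 / 2) : es δ ≤ H δ := by
  have a1 := R_le_es h0 h1
  have a2 := gv h0 h1
  linarith

lemma es_lt_one {δ : ℝ} (h0 : 0 < δ) (h1 : δ < 1 / 2) : es δ < 1 :=
  (es_le_H h0 h1).trans_lt (H_lt_one h0.le h1)

lemma HJ_lt {δ : ℝ} (h0 : 0 < δ) (h1 : δ < 1 / 2) : H (Jr δ) < es δ :=
  (H_lt (Jr_pos h0).le (Jr_lt_th h0 h1) (th_lt_half h0 h1).le).trans_le (H_th_le h0 h1)

/-- equivocation of the binary symmetric channel and of the erasure channel -/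
lemma Qe_le_eqv {p : ℝ} (h0 : 0 < p) (h1 : p ≤ 1 / 2) {n : ℕ} {C : Finset (Fin n → Bool)}
    (hC : C.Nonempty) : Qe (H p) C ≤ C.card * (eqv p C * Real.log 2) := by
  have hcard : (0 : ℝ) < C.card := by exact_mod_cast hC.card_pos
  have h := hybrid_low (Y := Unit) C (w := fun _ => 1) (q := fun _ => p) (fun _ => zero_le_one)
    (by simp) (fun _ => h0.le) (fun _ => by linarith) (e := H p) (by simp [H_log])
  refine h.trans (le_of_eq ?_)
  rw [Fintype.sum_unique]
  simp only [Finset.prod_const_one, one_mul]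
  rw [eqv_S h0 (by linarith) hC, En_eq]
  have e1 : mv (fun _ => p) C = mix p C := rfl
  rw [e1]
  simp only [Finset.sum_const, Finset.card_univ, Fintype.card_fin, nsmul_eq_mul]
  field_simp
  ring

/-- **The lower bound of the equivocation.** -/
lemma low {δ p : ℝ} (h0 : 0 < δ) (h1 : δ < 1 / 2) (hp0 : 0 < p) (hp1 : p ≤ 1 / 2) :
    2 * δ * Real.log (H p / es δ) ≤ Er δ p := by
  have hlog : 0 < Real.log 2 := Real.log_pos (by norm_num)
  have hes := es_pos h0 h1
  have hEr := Er_nonneg (δ := δ) hp0 (by linarith : p < 1)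
  have hHp : 0 ≤ H p := H_nonneg hp0.le (by linarith)
  have hHp1 : H p ≤ 1 := by
    have := H_mono hp0 hp1 le_rfl
    rwa [H_half] at this
  rcases le_or_gt (H p) (es δ) with hle | hlt
  · refine le_trans ?_ hEr
    have : Real.log (H p / es δ) ≤ 0 :=
      Real.log_nonpos (div_nonneg hHp hes.le) (by rw [div_le_one hes]; exact hle)
    exact mul_nonpos_of_nonneg_of_nonpos (by positivity) this
  · have hHpos : 0 < H p := hes.trans hlt
    rw [Real.log_div hHpos.ne' hes.ne']
    -- it is enough to consider larger erasure probabilities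
    have key : ∀ a : ℝ, es δ < a → a < H p →
        2 * δ * (Real.log (H p) - Real.log a) ≤ Er δ p := by
      intro a ha1 ha2
      have ha0 : 0 < a := hes.trans ha1
      have hla : 0 ≤ Real.log (H p) - Real.log a :=
        sub_nonneg.2 (Real.log_le_log ha0 ha2.le)
      obtain ⟨c, hc, hconf⟩ := confused_es h0 hes.le ha1 (ha2.le.trans hHp1)
      apply le_of_forall_lt_imp_le_of_dense
      intro b hb
      apply le_Er hp0 (by linarith : p < 1)
      have hlim : Tendsto (fun n : ℕ => 2 * δ * ((1 - 3 * Real.exp (-(c * n))) *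
          (Real.log (H p) - Real.log a))) atTop
          (𝓝 (2 * δ * ((1 - 3 * 0) * (Real.log (H p) - Real.log a)))) :=
        (((tendsto_exp hc).const_mul 3).const_sub 1 |>.mul_const _).const_mul _
      have hlim2 := hlim.eventually (lt_mem_nhds (a := b) (by linarith))
      have hpos : ∀ᶠ n : ℕ in atTop, Real.exp (-(c * n)) < 1 / 3 :=
        (tendsto_exp hc).eventually (gt_mem_nhds (by norm_num))
      refine (hconf.and_eventually (hlim2.and hpos)).mono ?_
      rintro n ⟨⟨C, hC, hcode, hs⟩, hn, hn3⟩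
      have hcard : (0 : ℝ) < C.card := by exact_mod_cast hC.card_pos
      have g1 := area ha0 ha2.le hHp1 hcode
      have g2 := Qe_le_eqv hp0 hp1 hC
      have g3 : eqv p C ≤ mE δ p n := le_mE hp0 (by linarith) hC hcode
      have g4 : δ * n ≤ (⌈δ * n⌉₊ : ℝ) := Nat.le_ceil _
      have g5 : (1 - 3 * Real.exp (-(c * n))) * C.card ≤ C.card - suc a C := by linarith
      have g6 : 0 ≤ (1 - 3 * Real.exp (-(c * n))) * (C.card : ℝ) :=
        mul_nonneg (by linarith) hcard.le
      have hn0 : (0 : ℝ) ≤ δ * n := by positivity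
      have g7 : δ * n * ((1 - 3 * Real.exp (-(c * n))) * C.card) ≤
          ⌈δ * n⌉₊ * (C.card - suc a C) :=
        mul_le_mul g4 g5 g6 (by positivity)
      have g8 : 2 * Real.log 2 * (δ * n * ((1 - 3 * Real.exp (-(c * n))) * C.card)) *
          (Real.log (H p) - Real.log a) ≤ C.card * (eqv p C * Real.log 2) := by
        refine le_trans ?_ (g1.trans g2)
        refine mul_le_mul_of_nonneg_right ?_ hla
        exact mul_le_mul_of_nonneg_left g7 (by positivity)
      have g9 : (C.card * Real.log 2) * (2 * δ * ((1 - 3 * Real.exp (-(c * n))) *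
          (Real.log (H p) - Real.log a)) * n) ≤ (C.card * Real.log 2) * eqv p C := by
        calc _ = 2 * Real.log 2 * (δ * n * ((1 - 3 * Real.exp (-(c * n))) * C.card)) *
              (Real.log (H p) - Real.log a) := by ring
          _ ≤ _ := g8
          _ = _ := by ring
      have g10 := le_of_mul_le_mul_left g9 (by positivity)
      calc b * n ≤ 2 * δ * ((1 - 3 * Real.exp (-(c * n))) *
          (Real.log (H p) - Real.log a)) * n :=
            mul_le_mul_of_nonneg_right hn.le (Nat.cast_nonneg _)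
        _ ≤ mE δ p n := g10.trans g3
    have hcont : Tendsto (fun a : ℝ => 2 * δ * (Real.log (H p) - Real.log a)) (𝓝[>] (es δ))
        (𝓝 (2 * δ * (Real.log (H p) - Real.log (es δ)))) := by
      have h2 : ContinuousAt (fun a : ℝ => 2 * δ * (Real.log (H p) - Real.log a)) (es δ) :=
        (continuousAt_const.sub (Real.continuousAt_log hes.ne')).const_mul _
      exact h2.tendsto.mono_left nhdsWithin_le_nhds
    refine le_of_tendsto hcont ?_
    filter_upwards [Ioo_mem_nhdsGT hlt] with a ha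
    exact key a ha.1 ha.2

/-- `2 δ log (1 / ε*) ≤ R` -/
lemma es_R {δ : ℝ} (h0 : 0 < δ) (h1 : δ < 1 / 2) : 2 * δ * Real.log (1 / es δ) ≤ R δ := by
  have h := low h0 h1 (by norm_num : (0 : ℝ) < 1 / 2) le_rfl
  rwa [H_half, Er_half] at h

lemma es_phi {δ : ℝ} (h0 : 0 < δ) (h1 : δ < 1 / 2) :
    2 * δ * Real.log (H δ / es δ) ≤ Pool.Agent.Helper89K9.GV.phi δ (R δ - (1 - H δ)) := by
  have h := low h0 h1 h0 h1.le
  rw [Er_self] at h
  exact h.trans (Pool.Agent.Helper89K9.GV.two_sided h0 h1).1.2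

lemma es_R_lin {δ : ℝ} (h0 : 0 < δ) (h1 : δ < 1 / 2) : 2 * δ * (1 - es δ) ≤ R δ := by
  have hes := es_pos h0 h1
  refine le_trans ?_ (es_R h0 h1)
  refine mul_le_mul_of_nonneg_left ?_ (by positivity)
  rw [one_div, Real.log_inv]
  linarith [Real.log_le_sub_one_of_pos hes]

lemma es_eq_iff {δ : ℝ} (h0 : 0 < δ) (h1 : δ < 1 / 2) : es δ = H δ ↔ R δ = 1 - H δ := by
  constructor
  · intro h
    have a1 := R_le_es h0 h1
    have a2 := gv h0 h1
    rw [h] at a1
    linarith
  · intro h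
    have h2 := H_th_le h0 h1
    rw [(th_eq_iff h0 h1).2 h] at h2
    exact le_antisymm (es_le_H h0 h1) h2

lemma es_ratio : Tendsto (fun δ => R δ / (1 - es δ)) (𝓝[<] (1 / 2)) (𝓝 1) := by
  have hlow : Tendsto (fun δ : ℝ => 2 * δ) (𝓝[<] (1 / 2)) (𝓝 1) := by
    have : Tendsto (fun δ : ℝ => 2 * δ) (𝓝 (1 / 2)) (𝓝 (2 * (1 / 2))) :=
      (continuous_const_mul (2 : ℝ)).tendsto _
    norm_num at this
    have h := this.mono_left (nhdsWithin_le_nhds (s := Set.Iio (1 / 2 : ℝ)))
    simpa using h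
  refine tendsto_of_tendsto_of_tendsto_of_le_of_le' hlow tendsto_const_nhds ?_ ?_
  · filter_upwards [Ioo_mem_nhdsLT (by norm_num : (0 : ℝ) < 1 / 2)] with δ hδ
    have := es_lt_one hδ.1 hδ.2
    rw [le_div_iff₀ (by linarith)]
    exact es_R_lin hδ.1 hδ.2
  · filter_upwards [Ioo_mem_nhdsLT (by norm_num : (0 : ℝ) < 1 / 2)] with δ hδ
    have := es_lt_one hδ.1 hδ.2
    rw [div_le_one (by linarith)]
    exact R_le_es hδ.1 hδ.2

lemma es_near {t : ℝ} (h0 : 0 < t) (h1 : t < 1 / 2) :
    1 - es (1 / 2 - t) ≤ H (t ^ 2) / ((1 - 2 * t) * (1 - 2 * t ^ 2)) := by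
  have hd0 : 0 < 1 / 2 - t := by linarith
  have hd1 : 1 / 2 - t < 1 / 2 := by linarith
  have a1 := es_R_lin hd0 hd1
  have a2 := R_near h0 h1
  have k1 : 0 < 1 - 2 * t := by linarith
  have k2 : 0 < 1 - 2 * t ^ 2 := by nlinarith
  rw [le_div_iff₀ (mul_pos k1 k2)]
  rw [le_div_iff₀ k2] at a2
  have e : 2 * (1 / 2 - t) = 1 - 2 * t := by ring
  rw [e] at a1
  nlinarith

/-! ### Symmetric channels whose capacity is smaller than `1 - ε*` -/

variable {Y : Type} [Fintype Y] {P : Bool → Y → ℝ} {π : Y → Y}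

lemma bad_channel (h : Sym P π) {δ : ℝ} (h0 : 0 < δ) (h1 : δ < 1 / 2)
    (hc : Cn P < (1 - es δ) * Real.log 2) :
    ¬ Tendsto (fun n => worstC δ P n) atTop (𝓝 0) := by
  have hlog : 0 < Real.log 2 := Real.log_pos (by norm_num)
  have hes := es_pos h0 h1
  -- the erasure probability of the same capacity
  set e : ℝ := (∑ y, Chan.wt P y * Real.binEntropy (rt P y)) / Real.log 2 with he
  have hel : ∑ y, Chan.wt P y * Real.binEntropy (rt P y) = e * Real.log 2 := by
    rw [he]
    field_simp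
  have hCn := Cn_eq h
  rw [hel] at hCn
  have hes2 : es δ < e := by
    have : es δ * Real.log 2 < e * Real.log 2 := by linarith
    exact lt_of_mul_lt_mul_right this hlog.le
  have hwt1 : ∑ y, Chan.wt P y = 1 := Chan.sum_wt h
  have he1 : e ≤ 1 := by
    have : e * Real.log 2 ≤ 1 * Real.log 2 := by
      rw [← hel, ← hwt1, Finset.sum_mul]
      exact Finset.sum_le_sum fun y _ =>
        mul_le_mul_of_nonneg_left Real.binEntropy_le_log_two (Chan.wt_nonneg h y)
    exact le_of_mul_le_mul_right this hlog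
  obtain ⟨c, hc0, hconf⟩ := confused_es h0 hes.le hes2 he1
  intro hT
  -- the error probability is not small
  have h3 : ∀ᶠ n : ℕ in atTop, worstC δ P n < c / (4 * Real.log 2) :=
    hT.eventually (gt_mem_nhds (by positivity))
  have h4 : ∀ᶠ n : ℕ in atTop, 2 * (Real.log 3 + Real.log 2) / c < (n : ℝ) :=
    tendsto_natCast_atTop_atTop.eventually (eventually_gt_atTop _)
  obtain ⟨n, ⟨C, hC, hcode, hs⟩, hn1, hn2⟩ := (hconf.and_eventually (h3.and h4)).exists
  have hcard : (0 : ℝ) < C.card := by exact_mod_cast hC.card_pos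
  rw [div_lt_iff₀ hc0] at hn2
  have g1 := Qe_ge (hes.trans hes2).le he1 hC (by positivity : 0 < 3 * Real.exp (-(c * n))) hs
  have g2 : Qe e C ≤ Ec P C := by
    rw [Ec_eq h]
    exact hybrid_low C (Chan.wt_nonneg h) hwt1 (Chan.rt_nonneg h) (Chan.rt_le_one h) hel
  have hlogc : Real.log C.card ≤ n * Real.log 2 := by
    have h5 : (C.card : ℝ) ≤ 2 ^ n := by
      have := Finset.card_le_univ C
      simp only [Fintype.card_fun, Fintype.card_bool, Fintype.card_fin] at this
      exact_mod_cast this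
    calc Real.log C.card ≤ Real.log (2 ^ n) := Real.log_le_log hcard h5
      _ = n * Real.log 2 := Real.log_pow _ _
  have hw := worstC_nonneg h δ n
  have hkey : c * n - Real.log 3 ≤ Real.log 2 + n * Real.log 2 * worstC δ P n := by
    have e1 : -Real.log (3 * Real.exp (-(c * n))) = c * n - Real.log 3 := by
      rw [Real.log_mul (by norm_num) (Real.exp_pos _).ne', Real.log_exp]
      ring
    rw [e1] at g1
    have g4 : c * n - Real.log 3 ≤ Real.log 2 + n * Real.log 2 * optC P C := by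
      have hall : ∀ D, c * n - Real.log 3 - Real.log 2 ≤ n * Real.log 2 * errC P C D := by
        intro D
        have g3 := fano h hC D
        have g5 : (C.card : ℝ) * (c * n - Real.log 3) ≤
            C.card * (Real.log 2 + Real.log C.card * errC P C D) := g1.trans (g2.trans g3)
        have g6 := le_of_mul_le_mul_left g5 hcard
        have g7 := mul_le_mul_of_nonneg_right hlogc (errC_nonneg h C D)
        linarith
      rcases (Nat.cast_nonneg (α := ℝ) n).eq_or_lt with hn0 | hn0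
      · have := hall (fun _ _ => false)
        rw [← hn0] at this ⊢
        linarith
      · have hn3 : 0 < n * Real.log 2 := mul_pos hn0 hlog
        have g8 : (c * n - Real.log 3 - Real.log 2) / (n * Real.log 2) ≤ optC P C := by
          apply le_optC
          intro D
          rw [div_le_iff₀ hn3]
          linarith [hall D]
        rw [div_le_iff₀ hn3] at g8
        linarith
    have g9 := le_worstC h hC hcode
    have g10 := mul_le_mul_of_nonneg_left g9 (by positivity : 0 ≤ n * Real.log 2)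
    linarith
  have hn4 : n * Real.log 2 * worstC δ P n ≤ n * c / 4 := by
    have hn0 : (0 : ℝ) ≤ n := Nat.cast_nonneg _
    calc n * Real.log 2 * worstC δ P n ≤ n * Real.log 2 * (c / (4 * Real.log 2)) :=
          mul_le_mul_of_nonneg_left hn1.le (by positivity)
      _ = n * c / 4 := by field_simp
  have hl3 : 0 < Real.log 3 := Real.log_pos (by norm_num)
  nlinarith

end Pool.Agent.Helper84.Era
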