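import Pool.Agent.Helper84.Era.Hyb

/-!
The erasure channel, and the inequality of Fano.
-/

set_option autoImplicit false

namespace Pool.Agent.Helper84.Era

open Finset Filter
open Pool.Agent.Helper89K9.GV
open Pool.Agent.Helper84.Thresh
open Pool.Agent.Results.MP_0430e4_lc.ConstantWeightCriterion (IsCode)
open Pool.Agent.Helper84.Chan (En kv mv En_eq Sym kc mc Ec rt errC optC errC_eq
  optC_le le_optC kc_nonneg sum_kc kc_le_mc)

variable {n : ℕ}

/-- the erasure channel -/
noncomputable def bP (e : ℝ) (b : Bool) (y : Option Bool) : ℝ :=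
  if y = none then e else if y = some b then 1 - e else 0

lemma bP_none (e : ℝ) (b : Bool) : bP e b none = e := by simp [bP]

lemma bP_some (e : ℝ) (b c : Bool) : bP e b (some c) = if c = b then 1 - e else 0 := by
  simp [bP]

lemma bSym {e : ℝ} (h0 : 0 ≤ e) (h1 : e ≤ 1) : Sym (bP e) (Option.map not) where
  nonneg := fun b y => by
    unfold bP
    split_ifs <;> linarith
  sum := fun b => by
    rw [Fintype.sum_option]
    cases b <;> simp [bP]
  inv := fun y => by cases y <;> simp
  symm := fun b y => by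
    cases y with
    | none => simp [bP]
    | some c => cases b <;> cases c <;> simp [bP]

/-- the erasure pattern of the output -/
def pat (y : Fin n → Option Bool) : Fin n → Bool := fun k => (y k).isNone

lemma sum_kc_pat (e : ℝ) (x : Fin n → Bool) (G : (Fin n → Bool) → ℝ) :
    ∑ y : Fin n → Option Bool, kc (bP e) x y * G (pat y) = ∑ W : Fin n → Bool, mu e W * G W := by
  unfold kc pat
  rw [push (fun k a => bP e (x k) a) Option.isNone G]
  refine Finset.sum_congr rfl fun W _ => ?_
  congr 1
  unfold mu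
  refine Finset.prod_congr rfl fun k _ => ?_
  rw [Finset.sum_filter, Fintype.sum_option]
  cases W k <;> cases x k <;> simp [bP, me]

lemma kc_consistent {e : ℝ} {x : Fin n → Bool} {y : Fin n → Option Bool}
    (h : kc (bP e) x y ≠ 0) (i : Fin n) (hi : pat y i = false) : y i = some (x i) := by
  unfold pat at hi
  cases hy : y i with
  | none => rw [hy] at hi; simp at hi
  | some c =>
    by_contra hne
    apply h
    unfold kc
    refine Finset.prod_eq_zero (Finset.mem_univ i) ?_
    rw [hy, bP_some, if_neg]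
    rintro rfl
    exact hne rfl

lemma kc_same {e : ℝ} {x z : Fin n → Bool} {y : Fin n → Option Bool}
    (h : ∀ i, pat y i = false → z i = x i) : kc (bP e) z y = kc (bP e) x y := by
  unfold kc
  refine Finset.prod_congr rfl fun i _ => ?_
  by_cases hi : pat y i = false
  · rw [h i hi]
  · unfold pat at hi
    cases hy : y i with
    | none => rw [bP_none, bP_none]
    | some c => rw [hy] at hi; simp at hi

lemma opt_le_amb {e : ℝ} (h0 : 0 ≤ e) (h1 : e ≤ 1) {C : Finset (Fin n → Bool)} :
    optC (bP e) C ≤ amb e C / C.card := by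
  classical
  have hsym := bSym h0 h1
  set D : (Fin n → Option Bool) → (Fin n → Bool) := fun y =>
    if h : ∃ x ∈ C, kc (bP e) x y ≠ 0 then h.choose else fun _ => false with hD
  refine (optC_le hsym C D).trans ?_
  unfold errC
  refine div_le_div_of_nonneg_right ?_ (Nat.cast_nonneg _)
  unfold amb
  simp_rw [Finset.mul_sum]
  rw [Finset.sum_comm (s := univ)]
  refine Finset.sum_le_sum fun x hx => ?_
  rw [← sum_kc_pat e x (fun W => if 2 ≤ (cl C W x).card then (1 : ℝ) else 0)]
  refine Finset.sum_le_sum fun y _ => ?_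
  have hnn := kc_nonneg hsym x y
  split_ifs with h1 h2 h2
  · rw [mul_one]
  · rw [mul_zero]
    by_contra hpos
    push Not at hpos
    have hex : ∃ x ∈ C, kc (bP e) x y ≠ 0 := ⟨x, hx, hpos.ne'⟩
    have hDy : D y = hex.choose := by
      rw [hD]
      simp only
      rw [dif_pos hex]
    obtain ⟨hz1, hz2⟩ := hex.choose_spec
    rw [← hDy] at hz1 hz2
    apply h2
    have hmem : D y ∈ cl C (pat y) x := by
      rw [mem_cl]
      refine ⟨hz1, fun i hi => ?_⟩
      have a1 := kc_consistent hz2 i hi
      have a2 := kc_consistent hpos.ne' i hi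
      rw [a1] at a2
      exact Option.some.inj a2
    have : ({x, D y} : Finset (Fin n → Bool)) ⊆ cl C (pat y) x := by
      intro u hu
      rw [Finset.mem_insert, Finset.mem_singleton] at hu
      rcases hu with rfl | rfl
      · exact self_mem hx
      · exact hmem
    have h3 := Finset.card_le_card this
    rwa [Finset.card_pair (Ne.symm h1)] at h3
  · rw [mul_one]; exact hnn
  · rw [mul_zero]

lemma opt_ge_suc {e : ℝ} (h0 : 0 ≤ e) (h1 : e ≤ 1) {C : Finset (Fin n → Bool)}
    (hC : C.Nonempty) : 1 - suc e C / C.card ≤ optC (bP e) C := by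
  classical
  have hsym := bSym h0 h1
  have hcard : (0 : ℝ) < C.card := by exact_mod_cast hC.card_pos
  apply le_optC
  intro D
  rw [errC_eq hsym hC D]
  refine sub_le_sub_left (div_le_div_of_nonneg_right ?_ hcard.le) 1
  have e1 : suc e C = ∑ y : Fin n → Option Bool, ∑ x ∈ C, kc (bP e) x y *
      (1 / ((cl C (pat y) x).card : ℝ)) := by
    unfold suc
    simp_rw [Finset.mul_sum]
    rw [Finset.sum_comm (s := univ), Finset.sum_comm (s := univ)]
    refine Finset.sum_congr rfl fun x _ => ?_
    exact (sum_kc_pat e x (fun W => 1 / ((cl C W x).card : ℝ))).symm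
  rw [e1, Finset.sum_comm]
  refine Finset.sum_le_sum fun y _ => ?_
  have hnn : ∀ x ∈ C, 0 ≤ kc (bP e) x y * (1 / ((cl C (pat y) x).card : ℝ)) := fun x _ =>
    mul_nonneg (kc_nonneg hsym x y) (by positivity)
  rw [Finset.sum_ite_eq]
  split_ifs with hD
  · calc kc (bP e) (D y) y = ∑ _x ∈ cl C (pat y) (D y), kc (bP e) (D y) y *
          (1 / ((cl C (pat y) (D y)).card : ℝ)) := by
          rw [Finset.sum_const, nsmul_eq_mul]
          have : ((cl C (pat y) (D y)).card : ℝ) ≠ 0 := by exact_mod_cast (cl_pos hD).ne'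
          field_simp
      _ = ∑ x ∈ cl C (pat y) (D y), kc (bP e) x y * (1 / ((cl C (pat y) x).card : ℝ)) := by
          refine Finset.sum_congr rfl fun x hx => ?_
          have h2 := (mem_cl.1 hx).2
          rw [kc_same h2, cl_eq h2]
      _ ≤ _ := Finset.sum_le_sum_of_subset_of_nonneg (Finset.filter_subset _ _)
          fun x hx _ => hnn x hx
  · exact Finset.sum_nonneg hnn

/-- **The inequality of Fano.** -/
lemma fano {Y : Type} [Fintype Y] {P : Bool → Y → ℝ} {π : Y → Y} (h : Sym P π)
    {C : Finset (Fin n → Bool)} (hC : C.Nonempty) (D : (Fin n → Y) → (Fin n → Bool)) :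
    Ec P C ≤ C.card * (Real.log 2 + Real.log C.card * errC P C D) := by
  classical
  have hcard : (0 : ℝ) < C.card := by exact_mod_cast hC.card_pos
  have hlogc : 0 ≤ Real.log C.card := Real.log_nonneg (by exact_mod_cast hC.card_pos)
  set qq : (Fin n → Bool) → (Fin n → Y) → ℝ := fun x y =>
    if D y ≠ x then 1 / (2 * (C.card : ℝ)) else 1 / 2 with hqq
  have hq0 : ∀ x y, 0 < qq x y := fun x y => by
    simp only [hqq]
    split_ifs <;> positivity
  have hqs : ∀ y, ∑ x ∈ C, qq x y ≤ 1 := by
    intro y
    have g1 : ∀ x ∈ C, qq x y ≤ 1 / (2 * (C.card : ℝ)) + if D y = x then 1 / 2 else 0 := by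
      intro x _
      simp only [hqq]
      by_cases hx : D y = x
      · rw [if_neg (not_not.2 hx), if_pos hx]
        have : 0 < 1 / (2 * (C.card : ℝ)) := by positivity
        linarith
      · rw [if_pos hx, if_neg hx, add_zero]
    refine (Finset.sum_le_sum g1).trans ?_
    rw [Finset.sum_add_distrib, Finset.sum_const, nsmul_eq_mul, Finset.sum_ite_eq]
    have g2 : (C.card : ℝ) * (1 / (2 * (C.card : ℝ))) = 1 / 2 := by field_simp
    rw [g2]
    split_ifs <;> norm_num
  have hm : ∀ y, mc P C y = ∑ x ∈ C, kc P x y := fun y => rfl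
  have hm0 : ∀ y, 0 ≤ mc P C y := fun y => Finset.sum_nonneg fun x _ => kc_nonneg h x y
  have point : ∀ x ∈ C, ∀ y, kc P x y * (Real.log (mc P C y) - Real.log (kc P x y)) ≤
      kc P x y * (-Real.log (qq x y)) + (mc P C y * qq x y - kc P x y) := by
    intro x hx y
    rcases (kc_nonneg h x y).eq_or_lt with hk | hk
    · rw [← hk]
      have := mul_nonneg (hm0 y) (hq0 x y).le
      linarith
    · have hmp : 0 < mc P C y := lt_of_lt_of_le hk (kc_le_mc h hx y)
      have h1 := Real.log_le_sub_one_of_pos (div_pos (mul_pos hmp (hq0 x y)) hk)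
      rw [Real.log_div (mul_pos hmp (hq0 x y)).ne' hk.ne', Real.log_mul hmp.ne' (hq0 x y).ne'] at h1
      have h2 := mul_le_mul_of_nonneg_left h1 hk.le
      have h3 : kc P x y * (mc P C y * qq x y / kc P x y - 1) = mc P C y * qq x y - kc P x y := by
        field_simp
      rw [h3] at h2
      linarith
  have hlogq : ∀ x y, -Real.log (qq x y) = Real.log 2 + if D y ≠ x then Real.log C.card else 0 := by
    intro x y
    simp only [hqq]
    split_ifs with hx
    · rw [one_div, Real.log_inv, Real.log_mul (by norm_num) hcard.ne']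
      ring
    · rw [one_div, Real.log_inv]
      ring
  unfold Ec
  have hsum : ∑ x ∈ C, ∑ y, (mc P C y * qq x y - kc P x y) ≤ 0 := by
    rw [Finset.sum_comm]
    refine Finset.sum_nonpos fun y _ => ?_
    rw [Finset.sum_sub_distrib, ← Finset.mul_sum, ← hm y]
    nlinarith [hqs y, hm0 y]
  calc ∑ x ∈ C, ∑ y, kc P x y * (Real.log (mc P C y) - Real.log (kc P x y))
      ≤ ∑ x ∈ C, ∑ y, (kc P x y * (-Real.log (qq x y)) + (mc P C y * qq x y - kc P x y)) :=
        Finset.sum_le_sum fun x hx => Finset.sum_le_sum fun y _ => point x hx y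
    _ = ∑ x ∈ C, ∑ y, kc P x y * (-Real.log (qq x y)) +
        ∑ x ∈ C, ∑ y, (mc P C y * qq x y - kc P x y) := by
        simp_rw [Finset.sum_add_distrib]
    _ ≤ ∑ x ∈ C, ∑ y, kc P x y * (-Real.log (qq x y)) := by linarith
    _ = ∑ x ∈ C, (Real.log 2 + Real.log C.card * ∑ y, if D y ≠ x then kc P x y else 0) := by
        refine Finset.sum_congr rfl fun x _ => ?_
        have e2 : ∀ y, kc P x y * (-Real.log (qq x y)) =
            kc P x y * Real.log 2 + Real.log C.card * (if D y ≠ x then kc P x y else 0) := by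
          intro y
          rw [hlogq]
          split_ifs <;> ring
        rw [Finset.sum_congr rfl fun y _ => e2 y, Finset.sum_add_distrib, ← Finset.sum_mul,
          sum_kc h, one_mul, ← Finset.mul_sum]
    _ = C.card * (Real.log 2 + Real.log C.card * errC P C D) := by
        rw [Finset.sum_add_distrib, Finset.sum_const, nsmul_eq_mul, ← Finset.mul_sum]
        unfold errC
        field_simp

/-- the inequality of Jensen -/
lemma Qe_ge {e : ℝ} (h0 : 0 ≤ e) (h1 : e ≤ 1) {C : Finset (Fin n → Bool)} (hC : C.Nonempty)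
    {r : ℝ} (hr : 0 < r) (hs : suc e C ≤ r * C.card) : C.card * (-Real.log r) ≤ Qe e C := by
  have hcard : (0 : ℝ) < C.card := by exact_mod_cast hC.card_pos
  have point : ∀ (W : Fin n → Bool), ∀ x ∈ C, -Real.log r + 1 - 1 / ((cl C W x).card : ℝ) / r ≤
      Real.log ((cl C W x).card : ℝ) := by
    intro W x hx
    have hp : (0 : ℝ) < (cl C W x).card := by exact_mod_cast cl_pos hx
    have h2 := Real.log_le_sub_one_of_pos (div_pos (one_div_pos.2 hp) hr)
    rw [Real.log_div (one_div_pos.2 hp).ne' hr.ne', one_div, Real.log_inv] at h2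
    rw [one_div]
    linarith
  have h3 : ∑ W : Fin n → Bool, mu e W * ∑ x ∈ C,
      (-Real.log r + 1 - 1 / ((cl C W x).card : ℝ) / r) ≤ Qe e C := by
    unfold Qe gl
    exact Finset.sum_le_sum fun W _ => mul_le_mul_of_nonneg_left
      (Finset.sum_le_sum fun x hx => point W x hx) (mu_nonneg h0 h1 _)
  refine le_trans ?_ h3
  have e1 : ∀ W : Fin n → Bool, mu e W * ∑ x ∈ C,
      (-Real.log r + 1 - 1 / ((cl C W x).card : ℝ) / r) =
      mu e W * (C.card * (-Real.log r + 1)) - (mu e W * ∑ x ∈ C, 1 / ((cl C W x).card : ℝ)) / r := by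
    intro W
    rw [Finset.sum_sub_distrib, Finset.sum_const, nsmul_eq_mul, ← Finset.sum_div]
    ring
  rw [Finset.sum_congr rfl fun W _ => e1 W, Finset.sum_sub_distrib, ← Finset.sum_mul, sum_mu,
    ← Finset.sum_div]
  have h4 : suc e C / r ≤ C.card := by
    rw [div_le_iff₀ hr]
    linarith
  have h5 : suc e C = ∑ W : Fin n → Bool, mu e W * ∑ x ∈ C, 1 / ((cl C W x).card : ℝ) := rfl
  rw [← h5]
  linarith

lemma Qe_mono {e e' : ℝ} (h0 : 0 ≤ e) (h : e ≤ e') (h1 : e' ≤ 1) (C : Finset (Fin n → Bool)) :
    Qe e C ≤ Qe e' C := by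
  rcases (h0.trans h).eq_or_lt with h2 | h2
  · have : e = e' := by linarith
    rw [this]
  · have he : e' * (e / e') = e := by field_simp
    have ht0 : 0 ≤ e / e' := div_nonneg h0 h2.le
    have ht1 : e / e' ≤ 1 := by rw [div_le_one h2]; exact h
    unfold Qe
    rw [← he, ← thin e' (e / e') (fun W => gl C W)]
    refine Finset.sum_le_sum fun W _ => mul_le_mul_of_nonneg_left ?_ (mu_nonneg h2.le h1 _)
    calc _ ≤ ∑ V : Fin n → Bool, mu (e / e') V * gl C W := by
          refine Finset.sum_le_sum fun V _ => mul_le_mul_of_nonneg_left ?_ (mu_nonneg ht0 ht1 _)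
          refine Finset.sum_le_sum fun x hx => ?_
          apply Real.log_le_log
          · exact_mod_cast cl_pos hx
          · exact_mod_cast Finset.card_le_card (cl_mono fun i hi => by
              simp only [Bool.and_eq_true] at hi
              exact hi.1)
      _ = gl C W := by rw [← Finset.sum_mul, sum_mu, one_mul]

end Pool.Agent.Helper84.Era
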