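import Pool.Agent.Helper84.Era.Pat

/-!
The dichotomy for codes: large classes are exponentially rare, or a large subcode is confused
almost always.
-/

set_option autoImplicit false

namespace Pool.Agent.Helper84.Era

open Finset Filter
open Pool.Agent.Helper89K9.GV
open Pool.Agent.Helper84.Thresh
open Pool.Agent.Results.MP_0430e4_lc.ConstantWeightCriterion (IsCode)

variable {n : ℕ}

/-- the mean number of the words in classes with at least `M` elements -/
noncomputable def big (e : ℝ) (C : Finset (Fin n → Bool)) (M : ℝ) : ℝ :=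
  ∑ W : Fin n → Bool, mu e W * ∑ x ∈ C, if M ≤ ((cl C W x).card : ℝ) then 1 else 0

/-- the mean number of the words which are not determined -/
noncomputable def amb (e : ℝ) (C : Finset (Fin n → Bool)) : ℝ :=
  ∑ W : Fin n → Bool, mu e W * ∑ x ∈ C, if 2 ≤ (cl C W x).card then 1 else 0

/-- the mean number of the classes -/
noncomputable def suc (e : ℝ) (C : Finset (Fin n → Bool)) : ℝ :=
  ∑ W : Fin n → Bool, mu e W * ∑ x ∈ C, 1 / ((cl C W x).card : ℝ)

lemma amb_le {e t : ℝ} (he0 : 0 ≤ e) (he1 : e ≤ 1) (h0 : 0 ≤ t) (h1 : t ≤ 1) {d : ℕ}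
    {C : Finset (Fin n → Bool)} (hC : IsCode d C) {M : ℝ} (hM : 0 ≤ M) :
    amb (e * t) C ≤ big e C M + C.card * (M * t ^ d) := by
  unfold amb big
  rw [← thin e t (fun W => ∑ x ∈ C, if 2 ≤ (cl C W x).card then (1 : ℝ) else 0)]
  have e1 : (C.card : ℝ) * (M * t ^ d) =
      ∑ W : Fin n → Bool, mu e W * (C.card * (M * t ^ d)) := by
    rw [← Finset.sum_mul, sum_mu, one_mul]
  rw [e1, ← Finset.sum_add_distrib]
  refine Finset.sum_le_sum fun W _ => ?_
  rw [← mul_add]
  refine mul_le_mul_of_nonneg_left ?_ (mu_nonneg he0 he1 W)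
  simp_rw [Finset.mul_sum]
  rw [Finset.sum_comm, ← nsmul_eq_mul, ← Finset.sum_const, ← Finset.sum_add_distrib]
  refine Finset.sum_le_sum fun x hx => ?_
  have hMt : 0 ≤ M * t ^ d := mul_nonneg hM (pow_nonneg h0 _)
  split_ifs with h
  · have : ∑ V : Fin n → Bool, mu t V *
        (if 2 ≤ (cl C (fun i => W i && V i) x).card then (1 : ℝ) else 0) ≤
        ∑ V : Fin n → Bool, mu t V * 1 :=
      Finset.sum_le_sum fun V _ => mul_le_mul_of_nonneg_left (by split_ifs <;> norm_num)
        (mu_nonneg h0 h1 _)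
    rw [← Finset.sum_mul, sum_mu, one_mul] at this
    linarith
  · push Not at h
    refine (union_bound h0 h1 hC hx W).trans ?_
    rw [zero_add]
    exact mul_le_mul_of_nonneg_right h.le (pow_nonneg h0 _)

/-- the distance to a set of patterns -/
noncomputable def ds (S : Finset (Fin n → Bool)) (hS : S.Nonempty) (W : Fin n → Bool) : ℝ :=
  S.inf' hS fun V => (hammingDist W V : ℝ)

lemma ds_lip (S : Finset (Fin n → Bool)) (hS : S.Nonempty) : Lip 1 (ds S hS) := by
  have h1 : ∀ u v : Fin n → Bool, hammingDist u v ≤ 1 → ds S hS u ≤ ds S hS v + 1 := by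
    intro u v h
    obtain ⟨V, hV, hVe⟩ := Finset.exists_mem_eq_inf' hS fun V => (hammingDist v V : ℝ)
    have h2 : ds S hS u ≤ hammingDist u V := Finset.inf'_le _ hV
    have h3 : (hammingDist u V : ℝ) ≤ hammingDist u v + hammingDist v V := by
      exact_mod_cast hammingDist_triangle u v V
    have h4 : (hammingDist u v : ℝ) ≤ 1 := by exact_mod_cast h
    have h5 : ds S hS v = hammingDist v V := hVe
    linarith
  intro u i b
  have hd : hammingDist (Function.update u i b) u ≤ 1 := by
    unfold hammingDist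
    refine (Finset.card_le_card (t := {i}) ?_).trans (by simp)
    intro j hj
    rw [Finset.mem_filter] at hj
    rw [Finset.mem_singleton]
    by_contra hcon
    exact hj.2 (Function.update_of_ne hcon _ _)
  have hd' : hammingDist u (Function.update u i b) ≤ 1 := by rwa [hammingDist_comm]
  rw [abs_le]
  constructor
  · linarith [h1 _ _ hd']
  · linarith [h1 _ _ hd]

/-- **Blowing up.** -/
lemma blow {e : ℝ} (h0 : 0 ≤ e) (h1 : e ≤ 1) (S : Finset (Fin n → Bool)) (hS : S.Nonempty)
    {a s : ℝ} (hs : 0 ≤ s) (ha : Real.exp (-(a * n)) ≤ ∑ W ∈ S, mu e W) :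
    ∑ W : Fin n → Bool, mu e W * (if s * n < ds S hS W then 1 else 0) ≤
      Real.exp (-((s ^ 2 - a) * n)) := by
  set m := ex e (fun _ => false) (ds S hS) with hm
  have hL := ds_lip S hS
  have g1 := mgf_lip h0 h1 (-(2 * s)) n _ hL (fun _ => false)
  have g2 := mgf_lip h0 h1 (2 * s) n _ hL (fun _ => false)
  rw [← hm] at g1 g2
  unfold ex at g1 g2
  simp_rw [← mu_kern] at g1 g2
  have hds : ∀ W ∈ S, ds S hS W = 0 := by
    intro W hW
    apply le_antisymm
    · have : ds S hS W ≤ hammingDist W W := Finset.inf'_le _ hW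
      simpa using this
    · exact Finset.le_inf' _ _ fun V _ => Nat.cast_nonneg _
  have g3 : Real.exp (-(a * n)) ≤ Real.exp (-(2 * s) * m + (-(2 * s)) ^ 2 * 1 ^ 2 / 8 * n) := by
    refine ha.trans (le_trans ?_ g1)
    calc ∑ W ∈ S, mu e W = ∑ W ∈ S, mu e W * Real.exp (-(2 * s) * ds S hS W) := by
          refine Finset.sum_congr rfl fun W hW => ?_
          rw [hds W hW, mul_zero, Real.exp_zero, mul_one]
      _ ≤ _ := Finset.sum_le_sum_of_subset_of_nonneg (Finset.subset_univ _) fun W _ _ =>
          mul_nonneg (mu_nonneg h0 h1 _) (Real.exp_pos _).le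
  rw [Real.exp_le_exp] at g3
  have g4 : (∑ W : Fin n → Bool, mu e W * (if s * n < ds S hS W then 1 else 0)) *
      Real.exp (2 * s * (s * n)) ≤
      Real.exp (2 * s * m + (2 * s) ^ 2 * 1 ^ 2 / 8 * n) := by
    refine le_trans ?_ g2
    rw [Finset.sum_mul]
    refine Finset.sum_le_sum fun W _ => ?_
    rw [mul_assoc]
    refine mul_le_mul_of_nonneg_left ?_ (mu_nonneg h0 h1 _)
    split_ifs with h
    · rw [one_mul, Real.exp_le_exp]
      exact mul_le_mul_of_nonneg_left h.le (by linarith)
    · rw [zero_mul]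
      exact (Real.exp_pos _).le
  have g5 : (∑ W : Fin n → Bool, mu e W * (if s * n < ds S hS W then 1 else 0)) ≤
      Real.exp (2 * s * m + (2 * s) ^ 2 * 1 ^ 2 / 8 * n) * Real.exp (-(2 * s * (s * n))) := by
    rw [Real.exp_neg, ← div_eq_mul_inv, le_div_iff₀ (Real.exp_pos _)]
    exact g4
  rw [← Real.exp_add] at g5
  refine g5.trans (Real.exp_le_exp.2 ?_)
  nlinarith

/-- the weight of a pattern -/
def wt (V : Fin n → Bool) : ℕ := (univ.filter fun i => V i = true).card

lemma ratio (C : Finset (Fin n → Bool)) (W V : Fin n → Bool) :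
    ∑ x ∈ C, ((cl C (fun i => W i || V i) x).card : ℝ) / (cl C W x).card ≤
      2 ^ wt V * C.card := by
  classical
  set P : Finset (Fin n → Bool) := Fintype.piFinset fun i => if V i = true then univ else {false}
    with hP
  have hPc : (P.card : ℝ) = 2 ^ wt V := by
    rw [hP, Fintype.card_piFinset]
    push_cast
    have : ∀ i : Fin n, (((if V i = true then (univ : Finset Bool) else {false}).card : ℕ) : ℝ) =
        if V i = true then 2 else 1 := by
      intro i
      split_ifs <;> simp
    rw [Finset.prod_congr rfl fun i _ => this i, Finset.prod_ite]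
    simp [wt]
  have e1 : ∀ z ∈ C, ∑ x ∈ cl C (fun i => W i || V i) z, 1 / ((cl C W x).card : ℝ) ≤
      2 ^ wt V := by
    intro z _
    have hmaps : ∀ x ∈ cl C (fun i => W i || V i) z, (fun i => V i && x i) ∈ P := by
      intro x _
      rw [hP, Fintype.mem_piFinset]
      intro i
      by_cases h : V i = true
      · simp [h]
      · rw [Bool.not_eq_true] at h
        simp [h]
    rw [← Finset.sum_fiberwise_of_maps_to hmaps, ← hPc]
    calc ∑ u ∈ P, ∑ x ∈ cl C (fun i => W i || V i) z with (fun i => V i && x i) = u,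
          1 / ((cl C W x).card : ℝ) ≤ ∑ _u ∈ P, (1 : ℝ) := by
          refine Finset.sum_le_sum fun u _ => ?_
          apply class_le (z := fun i => if V i = true then u i else z i)
          · intro x hx
            rw [Finset.mem_filter, mem_cl] at hx
            exact hx.1.1
          · intro x hx i hi
            rw [Finset.mem_filter, mem_cl] at hx
            split_ifs with h
            · have h2 := congrFun hx.2 i
              simp only [h, Bool.true_and] at h2
              exact h2
            · rw [Bool.not_eq_true] at h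
              exact hx.1.2 i (by simp [hi, h])
      _ = P.card := by simp
  calc ∑ x ∈ C, ((cl C (fun i => W i || V i) x).card : ℝ) / (cl C W x).card
      = ∑ x ∈ C, ∑ _z ∈ cl C (fun i => W i || V i) x, 1 / ((cl C W x).card : ℝ) := by
        refine Finset.sum_congr rfl fun x _ => ?_
        rw [Finset.sum_const, nsmul_eq_mul, mul_one_div]
    _ = ∑ z ∈ C, ∑ x ∈ cl C (fun i => W i || V i) z, 1 / ((cl C W x).card : ℝ) := by
        refine Finset.sum_comm' fun x z => ?_
        constructor
        · rintro ⟨hx, hz⟩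
          exact ⟨cl_symm hx hz, (mem_cl.1 hz).1⟩
        · rintro ⟨hx, hz⟩
          exact ⟨(mem_cl.1 hx).1, cl_symm hz hx⟩
    _ ≤ ∑ _z ∈ C, (2 : ℝ) ^ wt V := Finset.sum_le_sum e1
    _ = 2 ^ wt V * C.card := by
        rw [Finset.sum_const, nsmul_eq_mul, mul_comm]

lemma sum_wt {τ : ℝ} : ∑ V : Fin n → Bool, τ ^ wt V = (1 + τ) ^ n := by
  have e1 : ∀ V : Fin n → Bool, τ ^ wt V = ∏ i, if V i = true then τ else 1 := by
    intro V
    rw [Finset.prod_ite]
    simp [wt]
  rw [Finset.sum_congr rfl fun V _ => e1 V,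
    prod_sum_fun (fun _ b => if b = true then τ else 1)]
  simp [add_comm]

/-- few words have a small class although a class of a pattern nearby is large -/
lemma exc (C : Finset (Fin n → Bool)) (W : Fin n → Bool) {m M k τ : ℝ} (hm : 0 < m) (hM : 0 < M)
    (hτ : 0 < τ) (hτ1 : τ ≤ 1) :
    ∑ x ∈ C, (if (∃ V' : Fin n → Bool, (hammingDist W V' : ℝ) ≤ k ∧
        M ≤ ((cl C V' x).card : ℝ)) ∧ ((cl C W x).card : ℝ) < m then (1 : ℝ) else 0) ≤
      m / M * ((2 / τ) ^ k * (1 + τ) ^ n) * C.card := by
  classical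
  have hmM : 0 < m / M := div_pos hm hM
  have e1 : ∀ x ∈ C, (if (∃ V' : Fin n → Bool, (hammingDist W V' : ℝ) ≤ k ∧
        M ≤ ((cl C V' x).card : ℝ)) ∧ ((cl C W x).card : ℝ) < m then (1 : ℝ) else 0) ≤
      ∑ V : Fin n → Bool, (if (wt V : ℝ) ≤ k then m / M *
        (((cl C (fun i => W i || V i) x).card : ℝ) / (cl C W x).card) else 0) := by
    intro x hx
    have hpos : (0 : ℝ) < (cl C W x).card := by exact_mod_cast cl_pos hx
    have hnn : ∀ V : Fin n → Bool, 0 ≤ (if (wt V : ℝ) ≤ k then m / M *
        (((cl C (fun i => W i || V i) x).card : ℝ) / (cl C W x).card) else 0) := by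
      intro V
      split_ifs
      · positivity
      · exact le_rfl
    split_ifs with h
    · obtain ⟨⟨V', hV1, hV2⟩, hlt⟩ := h
      have hw : (wt (fun i => xor (W i) (V' i)) : ℝ) ≤ k := by
        refine le_trans (le_of_eq ?_) hV1
        unfold wt hammingDist
        congr 2
        ext i
        cases W i <;> cases V' i <;> simp
      refine le_trans ?_ (Finset.single_le_sum (fun V _ => hnn V)
        (Finset.mem_univ (fun i => xor (W i) (V' i))))
      rw [if_pos hw]
      have h1 : M ≤ ((cl C (fun i => W i || xor (W i) (V' i)) x).card : ℝ) := by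
        refine hV2.trans ?_
        exact_mod_cast Finset.card_le_card (cl_mono fun i hi => by
          cases h : W i <;> simp [hi])
      calc (1 : ℝ) = m / M * (M / m) := by field_simp
        _ ≤ m / M * (((cl C (fun i => W i || xor (W i) (V' i)) x).card : ℝ) /
            (cl C W x).card) := by
          refine mul_le_mul_of_nonneg_left ?_ hmM.le
          exact div_le_div₀ (Nat.cast_nonneg _) h1 hpos hlt.le
    · exact Finset.sum_nonneg fun V _ => hnn V
  refine (Finset.sum_le_sum e1).trans ?_
  rw [Finset.sum_comm]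
  have e2 : ∀ V : Fin n → Bool, ∑ x ∈ C, (if (wt V : ℝ) ≤ k then m / M *
        (((cl C (fun i => W i || V i) x).card : ℝ) / (cl C W x).card) else 0) ≤
      m / M * ((2 / τ) ^ k * τ ^ wt V) * C.card := by
    intro V
    have hc : (0 : ℝ) ≤ C.card := Nat.cast_nonneg _
    split_ifs with h
    · rw [← Finset.mul_sum, mul_assoc]
      refine mul_le_mul_of_nonneg_left ((ratio C W V).trans ?_) hmM.le
      refine mul_le_mul_of_nonneg_right ?_ hc
      have h2 : (2 : ℝ) ^ wt V = (2 / τ) ^ wt V * τ ^ wt V := by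
        rw [← mul_pow]
        congr 1
        field_simp
      rw [h2]
      refine mul_le_mul_of_nonneg_right ?_ (pow_nonneg hτ.le _)
      rw [← Real.rpow_natCast]
      exact Real.rpow_le_rpow_of_exponent_le (by rw [le_div_iff₀ hτ]; linarith) h
    · rw [Finset.sum_const_zero]
      have : 0 ≤ (2 / τ) ^ k := Real.rpow_nonneg (by positivity) _
      positivity
  refine (Finset.sum_le_sum fun V _ => e2 V).trans (le_of_eq ?_)
  rw [← Finset.sum_mul, ← Finset.mul_sum, ← Finset.mul_sum, sum_wt]

/-- the classes of a subcode -/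
lemma sub_classes {C C' : Finset (Fin n → Bool)} (hC : C' ⊆ C) (W : Fin n → Bool) {m : ℝ}
    (hm : 0 < m) :
    ∑ x ∈ C', 1 / ((cl C' W x).card : ℝ) ≤
      ∑ x ∈ C', (if ((cl C W x).card : ℝ) < m then 1 else 0) + C.card / m := by
  classical
  have e1 : ∑ x ∈ C', ((cl C W x).card : ℝ) / (cl C' W x).card ≤ C.card := by
    calc ∑ x ∈ C', ((cl C W x).card : ℝ) / (cl C' W x).card
        = ∑ x ∈ C', ∑ _z ∈ cl C W x, 1 / ((cl C' W x).card : ℝ) := by
          refine Finset.sum_congr rfl fun x _ => ?_
          rw [Finset.sum_const, nsmul_eq_mul, mul_one_div]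
      _ = ∑ z ∈ C, ∑ x ∈ cl C' W z, 1 / ((cl C' W x).card : ℝ) := by
          refine Finset.sum_comm' fun x z => ?_
          constructor
          · rintro ⟨hx, hz⟩
            rw [mem_cl] at hz
            exact ⟨mem_cl.2 ⟨hx, fun i hi => (hz.2 i hi).symm⟩, hz.1⟩
          · rintro ⟨hx, hz⟩
            rw [mem_cl] at hx
            exact ⟨hx.1, mem_cl.2 ⟨hz, fun i hi => (hx.2 i hi).symm⟩⟩
      _ ≤ ∑ _z ∈ C, (1 : ℝ) := by
          refine Finset.sum_le_sum fun z _ => ?_
          exact class_le (z := z) (fun x hx => (mem_cl.1 hx).1) fun x hx => (mem_cl.1 hx).2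
      _ = C.card := by simp
  have e2 : ∀ x ∈ C', 1 / ((cl C' W x).card : ℝ) ≤
      (if ((cl C W x).card : ℝ) < m then 1 else 0) +
        ((cl C W x).card : ℝ) / (cl C' W x).card / m := by
    intro x hx
    have hpos : (1 : ℝ) ≤ (cl C' W x).card := by exact_mod_cast cl_pos hx
    have hpos0 : (0 : ℝ) < (cl C' W x).card := by linarith
    split_ifs with h
    · have h1 : 1 / ((cl C' W x).card : ℝ) ≤ 1 := by
        rw [div_le_one hpos0]
        exact hpos
      have h2 : 0 ≤ ((cl C W x).card : ℝ) / (cl C' W x).card / m := by positivity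
      linarith
    · push Not at h
      rw [zero_add, div_right_comm]
      refine div_le_div_of_nonneg_right ?_ hpos0.le
      rw [le_div_iff₀ hm, one_mul]
      exact h
  refine (Finset.sum_le_sum e2).trans ?_
  rw [Finset.sum_add_distrib, ← Finset.sum_div]
  exact add_le_add le_rfl (div_le_div_of_nonneg_right e1 hm.le)

/-- **The dichotomy.** -/
lemma dich_e {e η : ℝ} (h0 : 0 ≤ e) (h1 : e ≤ 1) (hη : 0 < η) :
    ∃ c : ℝ, 0 < c ∧ ∀ (n : ℕ) (C : Finset (Fin n → Bool)), C.Nonempty →
      big e C (Real.exp (η * n)) ≤ 2 * Real.exp (-(c * n)) * C.card ∨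
        ∃ C' ⊆ C, C'.Nonempty ∧ suc e C' ≤ 3 * Real.exp (-(c * n)) * C'.card := by
  classical
  -- the constants
  set τ : ℝ := min 1 (η / 16) with hτdef
  have hτ : 0 < τ := lt_min one_pos (by positivity)
  have hτ1 : τ ≤ 1 := min_le_left _ _
  have hτ2 : τ ≤ η / 16 := min_le_right _ _
  have hL : 0 < Real.log (2 / τ) := Real.log_pos (by rw [lt_div_iff₀ hτ]; linarith)
  set s : ℝ := η / 16 / Real.log (2 / τ) with hsdef
  have hs : 0 < s := by positivity
  have hsL : s * Real.log (2 / τ) = η / 16 := by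
    rw [hsdef]
    field_simp
  set a : ℝ := min (s ^ 2 / 2) (η / 8) with hadef
  have ha : 0 < a := lt_min (by positivity) (by positivity)
  have ha1 : a ≤ s ^ 2 / 2 := min_le_left _ _
  have ha2 : a ≤ η / 8 := min_le_right _ _
  refine ⟨a, ha, fun n C hC => ?_⟩
  have hcard : (0 : ℝ) < C.card := by exact_mod_cast hC.card_pos
  have hn : (0 : ℝ) ≤ n := Nat.cast_nonneg _
  set M : ℝ := Real.exp (η * n) with hM
  set m : ℝ := Real.exp (η / 2 * n) with hm
  have hM0 : 0 < M := Real.exp_pos _
  have hm0 : 0 < m := Real.exp_pos _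
  by_cases hbig : big e C M ≤ 2 * Real.exp (-(a * n)) * C.card
  · exact Or.inl hbig
  right
  push Not at hbig
  set q : (Fin n → Bool) → ℝ := fun x => ∑ W : Fin n → Bool, mu e W *
    (if M ≤ ((cl C W x).card : ℝ) then 1 else 0) with hq
  have hq1 : ∀ x, q x ≤ 1 := by
    intro x
    calc q x ≤ ∑ W : Fin n → Bool, mu e W * 1 := Finset.sum_le_sum fun W _ =>
          mul_le_mul_of_nonneg_left (by split_ifs <;> norm_num) (mu_nonneg h0 h1 _)
      _ = 1 := by rw [← Finset.sum_mul, sum_mu, one_mul]
  have hbigq : big e C M = ∑ x ∈ C, q x := by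
    unfold big
    simp_rw [Finset.mul_sum]
    rw [Finset.sum_comm]
  set C' := C.filter fun x => Real.exp (-(a * n)) ≤ q x with hC'
  have hsub : C' ⊆ C := Finset.filter_subset _ _
  have hcard' : Real.exp (-(a * n)) * C.card ≤ C'.card := by
    have g1 : ∑ x ∈ C, q x ≤ ∑ x ∈ C, (Real.exp (-(a * n)) + if x ∈ C' then (1 : ℝ) else 0) := by
      refine Finset.sum_le_sum fun x hx => ?_
      split_ifs with h
      · linarith [hq1 x, Real.exp_pos (-(a * n))]
      · rw [hC', Finset.mem_filter] at h
        push Not at h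
        linarith [h hx]
    rw [Finset.sum_add_distrib, Finset.sum_const, nsmul_eq_mul, ← Finset.sum_filter,
      Finset.filter_mem_eq_inter, Finset.inter_eq_right.2 hsub] at g1
    rw [hbigq] at hbig
    simp only [Finset.sum_const, nsmul_eq_mul, mul_one] at g1
    linarith
  have hne : C'.Nonempty := by
    rw [← Finset.card_pos]
    have : (0 : ℝ) < C'.card := lt_of_lt_of_le (mul_pos (Real.exp_pos _) hcard) hcard'
    exact_mod_cast this
  have hc0 : (0 : ℝ) < C'.card := by exact_mod_cast hne.card_pos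
  have hCC : (C.card : ℝ) ≤ Real.exp (a * n) * C'.card := by
    have := mul_le_mul_of_nonneg_left hcard' (Real.exp_pos (a * n)).le
    rwa [← mul_assoc, ← Real.exp_add, add_neg_cancel, Real.exp_zero, one_mul] at this
  refine ⟨C', hsub, hne, ?_⟩
  -- the words with a small class
  have hsmall : ∑ W : Fin n → Bool, mu e W *
      ∑ x ∈ C', (if ((cl C W x).card : ℝ) < m then (1 : ℝ) else 0) ≤
      C'.card * Real.exp (-((s ^ 2 - a) * n)) +
        m / M * ((2 / τ) ^ (s * n) * (1 + τ) ^ n) * C.card := by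
    set E : (Fin n → Bool) → (Fin n → Bool) → ℝ := fun W x =>
      if (∃ V' : Fin n → Bool, (hammingDist W V' : ℝ) ≤ s * n ∧
        M ≤ ((cl C V' x).card : ℝ)) ∧ ((cl C W x).card : ℝ) < m then (1 : ℝ) else 0 with hE
    have hE0 : ∀ W x, 0 ≤ E W x := fun W x => by
      rw [hE]
      dsimp only
      split_ifs <;> norm_num
    have g1 : ∀ x ∈ C', ∑ W : Fin n → Bool, mu e W *
        (if ((cl C W x).card : ℝ) < m then (1 : ℝ) else 0) ≤
        Real.exp (-((s ^ 2 - a) * n)) + ∑ W : Fin n → Bool, mu e W * E W x := by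
      intro x hx
      have hxq : Real.exp (-(a * n)) ≤ q x := (Finset.mem_filter.1 hx).2
      set S : Finset (Fin n → Bool) := univ.filter fun W => M ≤ ((cl C W x).card : ℝ) with hSdef
      have hqS : q x = ∑ W ∈ S, mu e W := by
        rw [hq, hSdef, Finset.sum_filter]
        refine Finset.sum_congr rfl fun W _ => ?_
        split_ifs <;> simp
      have hS : S.Nonempty := by
        by_contra hcon
        rw [Finset.not_nonempty_iff_eq_empty] at hcon
        rw [hqS, hcon, Finset.sum_empty] at hxq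
        linarith [Real.exp_pos (-(a * n))]
      have hb := blow h0 h1 S hS hs.le (hqS ▸ hxq)
      refine le_trans ?_ (add_le_add hb le_rfl)
      rw [← Finset.sum_add_distrib]
      refine Finset.sum_le_sum fun W _ => ?_
      rw [← mul_add]
      refine mul_le_mul_of_nonneg_left ?_ (mu_nonneg h0 h1 _)
      by_cases hlt : ((cl C W x).card : ℝ) < m
      · rw [if_pos hlt]
        by_cases hd : s * n < ds S hS W
        · rw [if_pos hd]
          linarith [hE0 W x]
        · rw [if_neg hd, zero_add]
          push Not at hd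
          obtain ⟨V, hV, hVe⟩ := Finset.exists_mem_eq_inf' hS fun V => (hammingDist W V : ℝ)
          have h3 : ds S hS W = hammingDist W V := hVe
          rw [h3] at hd
          have h4 : E W x = 1 := by
            rw [hE]
            dsimp only
            rw [if_pos ⟨⟨V, hd, (Finset.mem_filter.1 hV).2⟩, hlt⟩]
          rw [h4]
      · rw [if_neg hlt]
        exact add_nonneg (by split_ifs <;> norm_num) (hE0 W x)
    simp_rw [Finset.mul_sum]
    rw [Finset.sum_comm]
    refine (Finset.sum_le_sum g1).trans ?_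
    rw [Finset.sum_add_distrib, Finset.sum_const, nsmul_eq_mul]
    refine add_le_add le_rfl ?_
    rw [Finset.sum_comm]
    calc ∑ W : Fin n → Bool, ∑ x ∈ C', mu e W * E W x
        ≤ ∑ W : Fin n → Bool, mu e W *
          (m / M * ((2 / τ) ^ (s * n) * (1 + τ) ^ n) * C.card) := by
          refine Finset.sum_le_sum fun W _ => ?_
          rw [← Finset.mul_sum]
          refine mul_le_mul_of_nonneg_left ?_ (mu_nonneg h0 h1 _)
          refine le_trans ?_ (exc C W hm0 hM0 hτ hτ1)
          exact Finset.sum_le_sum_of_subset_of_nonneg hsub fun x _ _ => hE0 W x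
      _ = m / M * ((2 / τ) ^ (s * n) * (1 + τ) ^ n) * C.card := by
          rw [← Finset.sum_mul, sum_mu, one_mul]
  have hfac : m / M * ((2 / τ) ^ (s * n) * (1 + τ) ^ n) ≤ Real.exp (-(η / 4 * n)) := by
    have k1 : (2 / τ) ^ (s * n) = Real.exp (η / 16 * n) := by
      rw [Real.rpow_def_of_pos (by positivity)]
      congr 1
      rw [← hsL]
      ring
    have k2 : (1 + τ) ^ n ≤ Real.exp (η / 16 * n) := by
      calc (1 + τ) ^ n ≤ Real.exp τ ^ n := by
            refine pow_le_pow_left₀ (by linarith) ?_ n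
            linarith [Real.add_one_le_exp τ]
        _ = Real.exp (τ * n) := by rw [← Real.exp_nat_mul, mul_comm]
        _ ≤ Real.exp (η / 16 * n) := Real.exp_le_exp.2 (mul_le_mul_of_nonneg_right hτ2 hn)
    have k3 : m / M = Real.exp (-(η / 2 * n)) := by
      rw [hm, hM, ← Real.exp_sub]
      congr 1
      ring
    rw [k1, k3]
    calc Real.exp (-(η / 2 * n)) * (Real.exp (η / 16 * n) * (1 + τ) ^ n)
        ≤ Real.exp (-(η / 2 * n)) * (Real.exp (η / 16 * n) * Real.exp (η / 16 * n)) := by
          gcongr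
      _ = Real.exp (-(η * 3 / 8 * n)) := by
          rw [← Real.exp_add, ← Real.exp_add]
          congr 1
          ring
      _ ≤ Real.exp (-(η / 4 * n)) := by
          apply Real.exp_le_exp.2
          nlinarith
  have hexp : ∀ b : ℝ, a ≤ b → Real.exp (-(b * n)) ≤ Real.exp (-(a * n)) := by
    intro b hb
    apply Real.exp_le_exp.2
    nlinarith
  have hsuc : suc e C' ≤ C'.card * Real.exp (-((s ^ 2 - a) * n)) +
      Real.exp (-(η / 4 * n)) * C.card + C.card / m := by
    unfold suc
    calc ∑ W : Fin n → Bool, mu e W * ∑ x ∈ C', 1 / ((cl C' W x).card : ℝ)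
        ≤ ∑ W : Fin n → Bool, mu e W * (∑ x ∈ C', (if ((cl C W x).card : ℝ) < m then 1 else 0)
          + C.card / m) := Finset.sum_le_sum fun W _ =>
          mul_le_mul_of_nonneg_left (sub_classes hsub W hm0) (mu_nonneg h0 h1 _)
      _ = ∑ W : Fin n → Bool, mu e W * (∑ x ∈ C', if ((cl C W x).card : ℝ) < m then 1 else 0)
          + C.card / m := by
          simp_rw [mul_add]
          rw [Finset.sum_add_distrib, ← Finset.sum_mul, sum_mu, one_mul]
      _ ≤ _ := by
          refine add_le_add (hsmall.trans (add_le_add le_rfl ?_)) le_rfl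
          exact mul_le_mul_of_nonneg_right hfac hcard.le
  refine hsuc.trans ?_
  have j1 : (C'.card : ℝ) * Real.exp (-((s ^ 2 - a) * n)) ≤ Real.exp (-(a * n)) * C'.card := by
    rw [mul_comm]
    exact mul_le_mul_of_nonneg_right (hexp _ (by linarith)) hc0.le
  have j2 : Real.exp (-(η / 4 * n)) * C.card ≤ Real.exp (-(a * n)) * C'.card := by
    calc Real.exp (-(η / 4 * n)) * C.card
        ≤ Real.exp (-(η / 4 * n)) * (Real.exp (a * n) * C'.card) :=
          mul_le_mul_of_nonneg_left hCC (Real.exp_pos _).le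
      _ = Real.exp (-((η / 4 - a) * n)) * C'.card := by
          rw [← mul_assoc, ← Real.exp_add]
          congr 2
          ring
      _ ≤ _ := mul_le_mul_of_nonneg_right (hexp _ (by linarith)) hc0.le
  have j3 : (C.card : ℝ) / m ≤ Real.exp (-(a * n)) * C'.card := by
    calc (C.card : ℝ) / m = Real.exp (-(η / 2 * n)) * C.card := by
          rw [hm, Real.exp_neg, div_eq_mul_inv, mul_comm]
      _ ≤ Real.exp (-(η / 2 * n)) * (Real.exp (a * n) * C'.card) :=
          mul_le_mul_of_nonneg_left hCC (Real.exp_pos _).le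
      _ = Real.exp (-((η / 2 - a) * n)) * C'.card := by
          rw [← mul_assoc, ← Real.exp_add]
          congr 2
          ring
      _ ≤ _ := mul_le_mul_of_nonneg_right (hexp _ (by linarith)) hc0.le
  linarith

end Pool.Agent.Helper84.Era
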