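import Mathlib

/-!
Concentration of measure for the Hamming distance to a set, for product measures.
-/

set_option autoImplicit false

namespace Pool.Agent.Helper84.Era

open Finset

variable {Y : Type} [Fintype Y] [DecidableEq Y]

omit [DecidableEq Y] in
lemma sum_consY {n : ℕ} (F : (Fin (n + 1) → Y) → ℝ) :
    ∑ y, F y = ∑ b : Y, ∑ z : Fin n → Y, F (Fin.cons b z) := by
  rw [← Fintype.sum_prod_type' (f := fun (b : Y) (z : Fin n → Y) => F (Fin.cons b z))]
  refine (Fintype.sum_equiv (Fin.consEquiv fun _ => Y) _ _ fun p => ?_).symm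
  rfl

/-- the exponential of the distance to a set -/
noncomputable def tf {n : ℕ} (t : ℝ) (A : Finset (Fin n → Y)) (hA : A.Nonempty)
    (y : Fin n → Y) : ℝ := A.inf' hA fun a => t ^ hammingDist y a

omit [Fintype Y] in
lemma tf_nonneg {n : ℕ} {t : ℝ} (ht : 0 ≤ t) (A : Finset (Fin n → Y)) (hA : A.Nonempty)
    (y : Fin n → Y) : 0 ≤ tf t A hA y := Finset.le_inf' _ _ fun _ _ => pow_nonneg ht _

omit [Fintype Y] in
lemma hd_cons {n : ℕ} (b c : Y) (z a : Fin n → Y) :
    hammingDist (Fin.cons b z : Fin (n + 1) → Y) (Fin.cons c a) =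
      (if b ≠ c then 1 else 0) + hammingDist z a := by
  unfold hammingDist
  rw [Finset.card_filter, Finset.card_filter, Fin.sum_univ_succ]
  simp only [Fin.cons_zero, Fin.cons_succ]

/-- **The inequality of Talagrand** for the Hamming distance. -/
theorem tal {t : ℝ} (ht : 1 ≤ t) : ∀ (n : ℕ) (w : Fin n → Y → ℝ), (∀ k y, 0 ≤ w k y) →
    (∀ k, ∑ y, w k y = 1) → ∀ (A : Finset (Fin n → Y)) (hA : A.Nonempty),
    (∑ y : Fin n → Y, (∏ k, w k (y k)) * tf t A hA y) * (∑ y ∈ A, ∏ k, w k (y k)) ≤
      ((1 + t) ^ 2 / (4 * t)) ^ n := by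
  have ht0 : 0 < t := by linarith
  intro n
  induction n with
  | zero =>
    intro w _ _ A hA
    have h1 : A = {default} := by
      obtain ⟨a, ha⟩ := hA
      have : ∀ y : Fin 0 → Y, y = default := fun y => Subsingleton.elim _ _
      ext y
      rw [Finset.mem_singleton]
      exact ⟨fun _ => this y, fun h => by rw [h, ← this a]; exact ha⟩
    subst h1
    simp [tf]
  | succ n ih =>
    intro w hw hw1 A hA
    set K : ℝ := (1 + t) ^ 2 / (4 * t) with hK
    have hK0 : 0 < K := by positivity
    set w' : Fin n → Y → ℝ := fun k => w k.succ with hw'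
    have hw'0 : ∀ k y, 0 ≤ w' k y := fun k y => hw _ _
    have hw'1 : ∀ k, ∑ y, w' k y = 1 := fun k => hw1 _
    set Pr : Finset (Fin n → Y) → ℝ := fun S => ∑ z ∈ S, ∏ k, w' k (z k) with hPr
    have hPr0 : ∀ S, 0 ≤ Pr S := fun S => Finset.sum_nonneg fun z _ =>
      Finset.prod_nonneg fun k _ => hw'0 _ _
    set Sec : Y → Finset (Fin n → Y) := fun b => univ.filter fun z => Fin.cons b z ∈ A with hSec
    set B : Finset (Fin n → Y) := univ.filter fun z => ∃ b, Fin.cons b z ∈ A with hB
    have hBne : B.Nonempty := by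
      obtain ⟨a, ha⟩ := hA
      refine ⟨Fin.tail a, ?_⟩
      rw [hB, Finset.mem_filter]
      exact ⟨Finset.mem_univ _, a 0, by rw [Fin.cons_self_tail]; exact ha⟩
    have hSB : ∀ b, Sec b ⊆ B := by
      intro b z hz
      rw [hSec, Finset.mem_filter] at hz
      rw [hB, Finset.mem_filter]
      exact ⟨Finset.mem_univ _, b, hz.2⟩
    have hPSB : ∀ b, Pr (Sec b) ≤ Pr B := fun b =>
      Finset.sum_le_sum_of_subset_of_nonneg (hSB b) fun z _ _ =>
        Finset.prod_nonneg fun k _ => hw'0 _ _
    have hprod : ∀ (b : Y) (z : Fin n → Y),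
        ∏ k, w k ((Fin.cons b z : Fin (n + 1) → Y) k) = w 0 b * ∏ k, w' k (z k) := by
      intro b z
      rw [Fin.prod_univ_succ]
      simp only [Fin.cons_zero, Fin.cons_succ, hw']
    have hPA : ∑ y ∈ A, ∏ k, w k (y k) = ∑ b, w 0 b * Pr (Sec b) := by
      have e1 : ∑ y ∈ A, ∏ k, w k (y k) = ∑ y : Fin (n + 1) → Y,
          if y ∈ A then ∏ k, w k (y k) else 0 := by
        rw [← Finset.sum_filter]
        congr 1
        ext y
        simp
      rw [e1, sum_consY]
      refine Finset.sum_congr rfl fun b _ => ?_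
      rw [hPr, hSec]
      simp only
      rw [Finset.mul_sum, Finset.sum_filter]
      refine Finset.sum_congr rfl fun z _ => ?_
      rw [hprod]
    -- the two bounds
    have hf1 : ∀ (b : Y) (z : Fin n → Y), tf t A hA (Fin.cons b z) ≤ t * tf t B hBne z := by
      intro b z
      obtain ⟨a, ha, hae⟩ := Finset.exists_mem_eq_inf' hBne fun a => t ^ hammingDist z a
      have h1 : tf t B hBne z = t ^ hammingDist z a := hae
      rw [h1]
      rw [hB, Finset.mem_filter] at ha
      obtain ⟨-, c, hc⟩ := ha
      have h2 : tf t A hA (Fin.cons b z) ≤ t ^ hammingDist (Fin.cons b z : Fin (n + 1) → Y)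
          (Fin.cons c a) := Finset.inf'_le _ hc
      refine h2.trans ?_
      rw [hd_cons, ← pow_succ']
      exact pow_le_pow_right₀ ht (by split_ifs <;> omega)
    have hf2 : ∀ (b : Y) (hb : (Sec b).Nonempty) (z : Fin n → Y),
        tf t A hA (Fin.cons b z) ≤ tf t (Sec b) hb z := by
      intro b hb z
      refine Finset.le_inf' _ _ fun a ha => ?_
      rw [hSec, Finset.mem_filter] at ha
      refine (Finset.inf'_le _ ha.2).trans (le_of_eq ?_)
      rw [hd_cons]
      simp
    set β := Pr B with hβ
    have hβ0 : 0 ≤ β := hPr0 B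
    rcases hβ0.eq_or_lt with h0 | h0
    · have : ∑ b, w 0 b * Pr (Sec b) = 0 := by
        refine Finset.sum_eq_zero fun b _ => ?_
        have h1 : Pr (Sec b) = 0 := le_antisymm ((hPSB b).trans (by rw [← h0])) (hPr0 _)
        rw [h1, mul_zero]
      rw [hPA, this, mul_zero]
      positivity
    have hkey : ∀ b, ∑ z : Fin n → Y, (∏ k, w' k (z k)) * tf t A hA (Fin.cons b z) ≤
        K ^ n / β * (1 + t - t * (Pr (Sec b) / β)) := by
      intro b
      have g1 : ∑ z : Fin n → Y, (∏ k, w' k (z k)) * tf t A hA (Fin.cons b z) ≤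
          t * (K ^ n / β) := by
        calc ∑ z : Fin n → Y, (∏ k, w' k (z k)) * tf t A hA (Fin.cons b z)
            ≤ ∑ z : Fin n → Y, (∏ k, w' k (z k)) * (t * tf t B hBne z) :=
              Finset.sum_le_sum fun z _ => mul_le_mul_of_nonneg_left (hf1 b z)
                (Finset.prod_nonneg fun k _ => hw'0 _ _)
          _ = t * ∑ z : Fin n → Y, (∏ k, w' k (z k)) * tf t B hBne z := by
              rw [Finset.mul_sum]
              exact Finset.sum_congr rfl fun z _ => by ring
          _ ≤ t * (K ^ n / β) := by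
              refine mul_le_mul_of_nonneg_left ?_ ht0.le
              rw [le_div_iff₀ h0]
              exact ih w' hw'0 hw'1 B hBne
      rcases (hPr0 (Sec b)).eq_or_lt with h1 | h1
      · rw [← h1, zero_div, mul_zero, sub_zero]
        refine g1.trans ?_
        have : 0 ≤ K ^ n / β := by positivity
        nlinarith
      · have hne : (Sec b).Nonempty := by
          by_contra hcon
          rw [Finset.not_nonempty_iff_eq_empty] at hcon
          rw [hcon] at h1
          simp [hPr] at h1
        have g2 : ∑ z : Fin n → Y, (∏ k, w' k (z k)) * tf t A hA (Fin.cons b z) ≤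
            K ^ n / Pr (Sec b) := by
          calc ∑ z : Fin n → Y, (∏ k, w' k (z k)) * tf t A hA (Fin.cons b z)
              ≤ ∑ z : Fin n → Y, (∏ k, w' k (z k)) * tf t (Sec b) hne z :=
                Finset.sum_le_sum fun z _ => mul_le_mul_of_nonneg_left (hf2 b hne z)
                  (Finset.prod_nonneg fun k _ => hw'0 _ _)
            _ ≤ K ^ n / Pr (Sec b) := by
                rw [le_div_iff₀ h1]
                exact ih w' hw'0 hw'1 (Sec b) hne
        set u := Pr (Sec b) / β with hu
        have hu0 : 0 < u := div_pos h1 h0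
        have hu1 : u ≤ 1 := by rw [hu, div_le_one h0]; exact hPSB b
        have hKn : 0 < K ^ n / β := by positivity
        rcases le_total (1 / t) u with h2 | h2
        · refine g2.trans ?_
          have e1 : K ^ n / Pr (Sec b) = K ^ n / β * (1 / u) := by
            rw [hu]
            field_simp
          rw [e1]
          refine mul_le_mul_of_nonneg_left ?_ hKn.le
          rw [div_le_iff₀ hu0]
          have h3 : 1 ≤ t * u := by
            rw [div_le_iff₀ ht0] at h2
            linarith
          nlinarith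
        · refine g1.trans ?_
          have h3 : t * u ≤ 1 := by
            rw [le_div_iff₀ ht0] at h2
            linarith
          nlinarith
    have hsum : ∑ y : Fin (n + 1) → Y, (∏ k, w k (y k)) * tf t A hA y ≤
        K ^ n / β * (1 + t - t * ((∑ b, w 0 b * Pr (Sec b)) / β)) := by
      rw [sum_consY]
      calc ∑ b, ∑ z : Fin n → Y, (∏ k, w k ((Fin.cons b z : Fin (n + 1) → Y) k)) *
            tf t A hA (Fin.cons b z)
          = ∑ b, w 0 b * ∑ z : Fin n → Y, (∏ k, w' k (z k)) * tf t A hA (Fin.cons b z) := by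
            refine Finset.sum_congr rfl fun b _ => ?_
            rw [Finset.mul_sum]
            refine Finset.sum_congr rfl fun z _ => ?_
            rw [hprod]
            ring
        _ ≤ ∑ b, w 0 b * (K ^ n / β * (1 + t - t * (Pr (Sec b) / β))) :=
            Finset.sum_le_sum fun b _ => mul_le_mul_of_nonneg_left (hkey b) (hw _ _)
        _ = K ^ n / β * (1 + t - t * ((∑ b, w 0 b * Pr (Sec b)) / β)) := by
            have e1 : ∀ b, w 0 b * (K ^ n / β * (1 + t - t * (Pr (Sec b) / β))) =
                K ^ n / β * (1 + t) * w 0 b - K ^ n / β * t / β * (w 0 b * Pr (Sec b)) := by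
              intro b
              field_simp
            rw [Finset.sum_congr rfl fun b _ => e1 b, Finset.sum_sub_distrib, ← Finset.mul_sum,
              ← Finset.mul_sum, hw1]
            field_simp
    rw [hPA]
    set p := ∑ b, w 0 b * Pr (Sec b) with hp
    have hp0 : 0 ≤ p := Finset.sum_nonneg fun b _ => mul_nonneg (hw _ _) (hPr0 _)
    refine (mul_le_mul_of_nonneg_right hsum hp0).trans ?_
    set m := p / β with hm
    have hpm : p = m * β := by rw [hm]; field_simp
    have hm0 : 0 ≤ m := div_nonneg hp0 h0.le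
    calc K ^ n / β * (1 + t - t * m) * p = K ^ n * (m * (1 + t - t * m)) := by
          rw [hpm]
          field_simp
      _ ≤ K ^ n * K := by
          refine mul_le_mul_of_nonneg_left ?_ (by positivity)
          rw [hK, le_div_iff₀ (by positivity)]
          nlinarith [sq_nonneg (2 * t * m - (1 + t))]
      _ = K ^ (n + 1) := (pow_succ _ _).symm

/-- **Blowing up.** -/
theorem blowY {n : ℕ} (w : Fin n → Y → ℝ) (hw : ∀ k y, 0 ≤ w k y) (hw1 : ∀ k, ∑ y, w k y = 1)
    (A : Finset (Fin n → Y)) {a s : ℝ} (hs : 0 ≤ s)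
    (ha : Real.exp (-(a * n)) ≤ ∑ y ∈ A, ∏ k, w k (y k)) :
    ∑ y : Fin n → Y, (∏ k, w k (y k)) *
      (if ∃ v ∈ A, (hammingDist y v : ℝ) ≤ s * n then 0 else 1) ≤
      Real.exp (-((s ^ 2 - a) * n)) := by
  classical
  have hA : A.Nonempty := by
    by_contra hcon
    rw [Finset.not_nonempty_iff_eq_empty] at hcon
    rw [hcon, Finset.sum_empty] at ha
    linarith [Real.exp_pos (-(a * n))]
  set t : ℝ := Real.exp (2 * s) with ht
  have ht1 : 1 ≤ t := Real.one_le_exp (by linarith)
  have ht0 : 0 < t := Real.exp_pos _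
  have hprod0 : ∀ y : Fin n → Y, 0 ≤ ∏ k, w k (y k) := fun y =>
    Finset.prod_nonneg fun k _ => hw _ _
  have h1 := tal ht1 n w hw hw1 A hA
  have h2 : Real.exp (2 * s * (s * n)) * ∑ y : Fin n → Y, (∏ k, w k (y k)) *
      (if ∃ v ∈ A, (hammingDist y v : ℝ) ≤ s * n then (0 : ℝ) else 1) ≤
      ∑ y : Fin n → Y, (∏ k, w k (y k)) * tf t A hA y := by
    rw [Finset.mul_sum]
    refine Finset.sum_le_sum fun y _ => ?_
    rw [mul_left_comm]
    refine mul_le_mul_of_nonneg_left ?_ (hprod0 y)
    split_ifs with h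
    · rw [mul_zero]
      exact tf_nonneg ht0.le A hA y
    · push Not at h
      rw [mul_one]
      refine Finset.le_inf' _ _ fun v hv => ?_
      have h3 := h v hv
      calc Real.exp (2 * s * (s * n)) ≤ Real.exp (2 * s * hammingDist y v) := by
            apply Real.exp_le_exp.2
            exact mul_le_mul_of_nonneg_left h3.le (by linarith)
        _ = t ^ hammingDist y v := by
            rw [ht, ← Real.exp_nat_mul, mul_comm]
  have h3 : ((1 + t) ^ 2 / (4 * t)) ^ n ≤ Real.exp (s ^ 2 * n) := by
    have h4 : (1 + t) ^ 2 / (4 * t) ≤ Real.exp (s ^ 2) := by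
      have h5 := Real.cosh_le_exp_half_sq s
      have h6 : (1 + t) ^ 2 / (4 * t) = Real.cosh s ^ 2 := by
        rw [Real.cosh_eq, ht]
        have e1 : Real.exp (2 * s) = Real.exp s * Real.exp s := by
          rw [← Real.exp_add]
          congr 1
          ring
        rw [e1, Real.exp_neg]
        have := Real.exp_pos s
        field_simp
        ring
      rw [h6]
      calc Real.cosh s ^ 2 ≤ Real.exp (s ^ 2 / 2) ^ 2 :=
            pow_le_pow_left₀ (Real.cosh_pos s).le h5 2
        _ = Real.exp (s ^ 2) := by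
            rw [← Real.exp_nat_mul]
            congr 1
            push_cast
            ring
    calc ((1 + t) ^ 2 / (4 * t)) ^ n ≤ Real.exp (s ^ 2) ^ n :=
          pow_le_pow_left₀ (by positivity) h4 n
      _ = Real.exp (s ^ 2 * n) := by
          rw [← Real.exp_nat_mul]
          congr 1
          ring
  set T := ∑ y : Fin n → Y, (∏ k, w k (y k)) *
      (if ∃ v ∈ A, (hammingDist y v : ℝ) ≤ s * n then (0 : ℝ) else 1) with hT
  have hT0 : 0 ≤ T := Finset.sum_nonneg fun y _ => mul_nonneg (hprod0 y) (by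
    split_ifs <;> norm_num)
  have h7 : Real.exp (2 * s * (s * n)) * T * Real.exp (-(a * n)) ≤ Real.exp (s ^ 2 * n) := by
    refine le_trans ?_ (h1.trans h3)
    exact mul_le_mul h2 ha (Real.exp_pos _).le
      (Finset.sum_nonneg fun y _ => mul_nonneg (hprod0 y) (tf_nonneg ht0.le A hA y))
  have h8 : T * Real.exp (2 * s * (s * n) - a * n) ≤ Real.exp (s ^ 2 * n) := by
    refine le_trans (le_of_eq ?_) h7
    rw [sub_eq_add_neg, Real.exp_add]
    ring
  have h9 := (le_div_iff₀ (Real.exp_pos _)).2 h8
  refine h9.trans (le_of_eq ?_)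
  rw [← Real.exp_sub]
  congr 1
  ring

end Pool.Agent.Helper84.Era
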