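import Pool.Agent.Helper84.Era.Asy
import Pool.Agent.Helper84.Era.Tal

/-!
The zero-one law for all symmetric channels: side information through an erasure channel.
-/

set_option autoImplicit false

namespace Pool.Agent.Helper84.Era

open Finset Filter Topology
open Pool.Agent.Helper84.Thresh
open Pool.Agent.Results.MP_0430e4_lc.ConstantWeightCriterion (IsCode H A R)
open Pool.Agent.Helper84.Chan (En Sym kc mc Ec rt errC optC worstC Cn Cn_eq kc_nonneg sum_kc
  kc_le_mc errC_eq optC_le le_optC worstC_le le_worstC worstC_nonneg optC_le_one errC_nonneg)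

variable {n : ℕ} {Y : Type} [Fintype Y] {P : Bool → Y → ℝ} {π : Y → Y}

lemma P_le_one (h : Sym P π) (b : Bool) (y : Y) : P b y ≤ 1 := by
  rw [← h.sum b]
  exact Finset.single_le_sum (f := fun y => P b y) (fun _ _ => h.nonneg _ _) (Finset.mem_univ y)

lemma exists_rho (h : Sym P π) : ∃ ρ : ℝ, 0 < ρ ∧ ρ ≤ 1 ∧ ∀ b y, P b y ≠ 0 → ρ ≤ P b y := by
  classical
  obtain ⟨y0⟩ := Chan.nonempty_out h
  obtain ⟨p, -, hp⟩ := Finset.exists_min_image (univ : Finset (Bool × Y))
    (fun p => if P p.1 p.2 = 0 then (1 : ℝ) else P p.1 p.2) ⟨(true, y0), Finset.mem_univ _⟩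
  refine ⟨if P p.1 p.2 = 0 then (1 : ℝ) else P p.1 p.2, ?_, ?_, fun b y hby => ?_⟩
  · split_ifs with h0
    · norm_num
    · exact lt_of_le_of_ne (h.nonneg _ _) (Ne.symm h0)
  · split_ifs with h0
    · exact le_rfl
    · exact P_le_one h _ _
  · have := hp (b, y) (Finset.mem_univ _)
    simp only [if_neg hby] at this
    exact this

section classicalY

variable [DecidableEq Y]

lemma kc_near (h : Sym P π) {ρ : ℝ} (hρ0 : 0 < ρ) (_hρ1 : ρ ≤ 1)
    (hρ : ∀ b y, P b y ≠ 0 → ρ ≤ P b y) (x : Fin n → Bool) (y y' : Fin n → Y)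
    (hne : kc P x y' ≠ 0) : kc P x y * ρ ^ hammingDist y y' ≤ kc P x y' := by
  have e1 : ρ ^ hammingDist y y' = ∏ i, if y i ≠ y' i then ρ else 1 := by
    rw [Finset.prod_ite]
    simp [hammingDist]
  rw [e1]
  unfold kc at hne ⊢
  rw [← Finset.prod_mul_distrib]
  refine Finset.prod_le_prod (fun i _ => mul_nonneg (h.nonneg _ _) (by
    split_ifs
    · exact hρ0.le
    · exact zero_le_one)) fun i _ => ?_
  split_ifs with hi
  · have h1 : P (x i) (y' i) ≠ 0 := Finset.prod_ne_zero_iff.1 hne i (Finset.mem_univ i)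
    calc P (x i) (y i) * ρ ≤ 1 * ρ := mul_le_mul_of_nonneg_right (P_le_one h _ _) hρ0.le
      _ = ρ := one_mul _
      _ ≤ _ := hρ _ _ h1
  · rw [not_not] at hi
    rw [hi, mul_one]

omit [DecidableEq Y] in
lemma sum_mc (h : Sym P π) (C : Finset (Fin n → Bool)) : ∑ y, mc P C y = C.card := by
  unfold mc
  rw [Finset.sum_comm, Finset.sum_congr rfl fun x _ => sum_kc h x]
  simp

omit [DecidableEq Y] in
lemma mc_nonneg (h : Sym P π) (C : Finset (Fin n → Bool)) (y : Fin n → Y) : 0 ≤ mc P C y :=
  Finset.sum_nonneg fun _ _ => kc_nonneg h _ _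

omit [DecidableEq Y] in
/-- few words have a large posterior probability -/
lemma count (h : Sym P π) (C : Finset (Fin n → Bool)) (y : Fin n → Y) {m : ℝ} (hm : 0 < m) :
    ∑ x ∈ C, (if mc P C y < m * kc P x y then (1 : ℝ) else 0) ≤ m := by
  rcases (mc_nonneg h C y).eq_or_lt with h0 | h0
  · have : ∀ x ∈ C, (if mc P C y < m * kc P x y then (1 : ℝ) else 0) = 0 := by
      intro x hx
      have h1 : kc P x y = 0 := by
        refine le_antisymm ?_ (kc_nonneg h x y)
        rw [h0]
        exact kc_le_mc h hx y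
      rw [h1, mul_zero, ← h0, if_neg (lt_irrefl _)]
    rw [Finset.sum_congr rfl this]
    simpa using hm.le
  · have h2 : (∑ x ∈ C, (if mc P C y < m * kc P x y then (1 : ℝ) else 0)) * mc P C y ≤
        m * mc P C y := by
      calc (∑ x ∈ C, (if mc P C y < m * kc P x y then (1 : ℝ) else 0)) * mc P C y
          = ∑ x ∈ C, (if mc P C y < m * kc P x y then (1 : ℝ) else 0) * mc P C y :=
            Finset.sum_mul _ _ _
        _ ≤ ∑ x ∈ C, m * kc P x y := by
            refine Finset.sum_le_sum fun x _ => ?_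
            split_ifs with h3
            · rw [one_mul]; exact h3.le
            · rw [zero_mul]
              exact mul_nonneg hm.le (kc_nonneg h x y)
        _ = m * mc P C y := by rw [← Finset.mul_sum]; rfl
    exact le_of_mul_le_mul_right h2 h0

lemma ball {k τ : ℝ} (hτ : 0 < τ) (hτ1 : τ ≤ 1) (y' : Fin n → Y) :
    ∑ y : Fin n → Y, (if (hammingDist y y' : ℝ) ≤ k then (1 : ℝ) else 0) ≤
      (1 / τ) ^ k * (1 + Fintype.card Y * τ) ^ n := by
  have e1 : ∑ y : Fin n → Y, τ ^ hammingDist y y' ≤ (1 + Fintype.card Y * τ) ^ n := by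
    have e2 : ∀ y : Fin n → Y, τ ^ hammingDist y y' = ∏ i, if y i ≠ y' i then τ else 1 := by
      intro y
      rw [Finset.prod_ite]
      simp [hammingDist]
    rw [Finset.sum_congr rfl fun y _ => e2 y]
    have e3 := Finset.prod_univ_sum (fun _ : Fin n => (univ : Finset Y))
      (fun i a => if a ≠ y' i then τ else 1)
    rw [Fintype.piFinset_univ] at e3
    rw [← e3]
    calc ∏ i : Fin n, ∑ a : Y, (if a ≠ y' i then τ else 1)
        ≤ ∏ _i : Fin n, (1 + Fintype.card Y * τ) := by
          refine Finset.prod_le_prod (fun i _ => Finset.sum_nonneg fun a _ => by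
            split_ifs <;> linarith) fun i _ => ?_
          calc ∑ a : Y, (if a ≠ y' i then τ else 1) ≤ ∑ a : Y, (τ + if y' i = a then 1 else 0) := by
                refine Finset.sum_le_sum fun a _ => ?_
                by_cases ha : a = y' i
                · rw [if_neg (not_not.2 ha), if_pos ha.symm]
                  linarith
                · rw [if_pos ha, if_neg (Ne.symm ha)]
                  linarith
            _ = 1 + Fintype.card Y * τ := by
                rw [Finset.sum_add_distrib, Finset.sum_ite_eq]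
                simp [add_comm]
      _ = (1 + Fintype.card Y * τ) ^ n := by simp
  refine le_trans ?_ (mul_le_mul_of_nonneg_left e1 (Real.rpow_nonneg (by positivity) k))
  rw [Finset.mul_sum]
  refine Finset.sum_le_sum fun y _ => ?_
  split_ifs with hy
  · have h2 : (1 : ℝ) = (1 / τ) ^ hammingDist y y' * τ ^ hammingDist y y' := by
      rw [← mul_pow]
      have : 1 / τ * τ = 1 := by field_simp
      rw [this, one_pow]
    have h3 : (1 / τ) ^ hammingDist y y' ≤ (1 / τ) ^ k := by
      rw [← Real.rpow_natCast]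
      exact Real.rpow_le_rpow_of_exponent_le (by rw [le_div_iff₀ hτ]; linarith) hy
    exact h2.le.trans (mul_le_mul_of_nonneg_right h3 (pow_nonneg hτ.le _))
  · exact mul_nonneg (Real.rpow_nonneg (by positivity) _) (pow_nonneg hτ.le _)

/-- the exceptional words -/
lemma excY (h : Sym P π) {ρ : ℝ} (hρ0 : 0 < ρ) (hρ1 : ρ ≤ 1)
    (hρ : ∀ b y, P b y ≠ 0 → ρ ≤ P b y) (C : Finset (Fin n → Bool)) {m M k τ : ℝ} (hm : 0 < m)
    (hM : 0 < M) (hτ : 0 < τ) (hτ1 : τ ≤ 1) :
    ∑ x ∈ C, ∑ y : Fin n → Y, kc P x y *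
      (if (∃ y' : Fin n → Y, (kc P x y' ≠ 0 ∧ M * kc P x y' ≤ mc P C y') ∧
        (hammingDist y y' : ℝ) ≤ k) ∧ mc P C y < m * kc P x y then (1 : ℝ) else 0) ≤
      m / M * ((1 / ρ) ^ k * ((1 / τ) ^ k * (1 + Fintype.card Y * τ) ^ n)) * C.card := by
  classical
  have hρk : 0 < (1 / ρ) ^ k := Real.rpow_pos_of_pos (by positivity) _
  -- pairs of outputs
  have e1 : ∀ x ∈ C, ∀ y : Fin n → Y, kc P x y *
      (if (∃ y' : Fin n → Y, (kc P x y' ≠ 0 ∧ M * kc P x y' ≤ mc P C y') ∧
        (hammingDist y y' : ℝ) ≤ k) ∧ mc P C y < m * kc P x y then (1 : ℝ) else 0) ≤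
      ∑ y' : Fin n → Y, ((1 / ρ) ^ k * (mc P C y' / M)) *
        ((if (hammingDist y y' : ℝ) ≤ k then 1 else 0) *
          (if mc P C y < m * kc P x y then 1 else 0)) := by
    intro x _ y
    have hnn : ∀ y' : Fin n → Y, 0 ≤ ((1 / ρ) ^ k * (mc P C y' / M)) *
        ((if (hammingDist y y' : ℝ) ≤ k then (1 : ℝ) else 0) *
          (if mc P C y < m * kc P x y then (1 : ℝ) else 0)) := by
      intro y'
      refine mul_nonneg (mul_nonneg hρk.le (div_nonneg (mc_nonneg h C y') hM.le)) ?_
      exact mul_nonneg (by split_ifs <;> norm_num) (by split_ifs <;> norm_num)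
    by_cases hcond : (∃ y' : Fin n → Y, (kc P x y' ≠ 0 ∧ M * kc P x y' ≤ mc P C y') ∧
        (hammingDist y y' : ℝ) ≤ k) ∧ mc P C y < m * kc P x y
    · rw [if_pos hcond, mul_one]
      obtain ⟨⟨y', ⟨h1, h2⟩, h3⟩, h4⟩ := hcond
      refine le_trans ?_ (Finset.single_le_sum (fun y' _ => hnn y') (Finset.mem_univ y'))
      rw [if_pos h3, if_pos h4, mul_one, mul_one]
      have h5 := kc_near h hρ0 hρ1 hρ x y y' h1
      have h6 : kc P x y' ≤ mc P C y' / M := by
        rw [le_div_iff₀ hM]
        linarith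
      have h7 : kc P x y ≤ (1 / ρ) ^ hammingDist y y' * kc P x y' := by
        have h8 := mul_le_mul_of_nonneg_left h5 (pow_nonneg (one_div_nonneg.2 hρ0.le)
          (hammingDist y y'))
        have h9 : (1 / ρ) ^ hammingDist y y' * (kc P x y * ρ ^ hammingDist y y') = kc P x y := by
          rw [mul_left_comm, ← mul_pow]
          have : 1 / ρ * ρ = 1 := by field_simp
          rw [this, one_pow, mul_one]
        rwa [h9] at h8
      refine h7.trans (mul_le_mul ?_ h6 (kc_nonneg h x y') hρk.le)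
      rw [← Real.rpow_natCast]
      exact Real.rpow_le_rpow_of_exponent_le (by rw [le_div_iff₀ hρ0]; linarith) h3
    · rw [if_neg hcond, mul_zero]
      exact Finset.sum_nonneg fun y' _ => hnn y'
  have e2 : ∀ (y y' : Fin n → Y), ∑ x ∈ C, ((1 / ρ) ^ k * (mc P C y' / M)) *
        ((if (hammingDist y y' : ℝ) ≤ k then (1 : ℝ) else 0) *
          (if mc P C y < m * kc P x y then (1 : ℝ) else 0)) ≤
      ((1 / ρ) ^ k * (mc P C y' / M)) *
        ((if (hammingDist y y' : ℝ) ≤ k then (1 : ℝ) else 0) * m) := by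
    intro y y'
    rw [← Finset.mul_sum, ← Finset.mul_sum]
    refine mul_le_mul_of_nonneg_left ?_
      (mul_nonneg hρk.le (div_nonneg (mc_nonneg h C y') hM.le))
    exact mul_le_mul_of_nonneg_left (count h C y hm) (by split_ifs <;> norm_num)
  calc _ ≤ ∑ x ∈ C, ∑ y : Fin n → Y, ∑ y' : Fin n → Y, ((1 / ρ) ^ k * (mc P C y' / M)) *
        ((if (hammingDist y y' : ℝ) ≤ k then (1 : ℝ) else 0) *
          (if mc P C y < m * kc P x y then (1 : ℝ) else 0)) :=
        Finset.sum_le_sum fun x hx => Finset.sum_le_sum fun y _ => e1 x hx y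
    _ = ∑ y : Fin n → Y, ∑ y' : Fin n → Y, ∑ x ∈ C, ((1 / ρ) ^ k * (mc P C y' / M)) *
        ((if (hammingDist y y' : ℝ) ≤ k then (1 : ℝ) else 0) *
          (if mc P C y < m * kc P x y then (1 : ℝ) else 0)) := by
        rw [Finset.sum_comm]
        exact Finset.sum_congr rfl fun y _ => Finset.sum_comm
    _ ≤ ∑ y : Fin n → Y, ∑ y' : Fin n → Y, ((1 / ρ) ^ k * (mc P C y' / M)) *
        ((if (hammingDist y y' : ℝ) ≤ k then (1 : ℝ) else 0) * m) :=
        Finset.sum_le_sum fun y _ => Finset.sum_le_sum fun y' _ => e2 y y'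
    _ = ∑ y' : Fin n → Y, ((1 / ρ) ^ k * (mc P C y' / M) * m) *
        ∑ y : Fin n → Y, (if (hammingDist y y' : ℝ) ≤ k then (1 : ℝ) else 0) := by
        rw [Finset.sum_comm]
        refine Finset.sum_congr rfl fun y' _ => ?_
        rw [Finset.mul_sum]
        exact Finset.sum_congr rfl fun y _ => by ring
    _ ≤ ∑ y' : Fin n → Y, ((1 / ρ) ^ k * (mc P C y' / M) * m) *
        ((1 / τ) ^ k * (1 + Fintype.card Y * τ) ^ n) := by
        refine Finset.sum_le_sum fun y' _ => mul_le_mul_of_nonneg_left (ball hτ hτ1 y') ?_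
        exact mul_nonneg (mul_nonneg hρk.le (div_nonneg (mc_nonneg h C y') hM.le)) hm.le
    _ = _ := by
        have e4 : ∀ y' : Fin n → Y, ((1 / ρ) ^ k * (mc P C y' / M) * m) *
            ((1 / τ) ^ k * (1 + Fintype.card Y * τ) ^ n) =
            m / M * ((1 / ρ) ^ k * ((1 / τ) ^ k * (1 + Fintype.card Y * τ) ^ n)) * mc P C y' :=
          fun y' => by
            field_simp
        rw [Finset.sum_congr rfl fun y' _ => e4 y', ← Finset.mul_sum, sum_mc h]

/-- the probability of a small posterior probability, times the number of the words -/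
noncomputable def lowp (P : Bool → Y → ℝ) (C : Finset (Fin n → Bool)) (M : ℝ) : ℝ :=
  ∑ x ∈ C, ∑ y : Fin n → Y, kc P x y * (if M * kc P x y ≤ mc P C y then 1 else 0)

/-- **The dichotomy for a symmetric channel.** -/
lemma dichY (h : Sym P π) {η : ℝ} (hη : 0 < η) :
    ∃ c : ℝ, 0 < c ∧ ∀ (n : ℕ) (C : Finset (Fin n → Bool)), C.Nonempty →
      lowp P C (Real.exp (η * n)) ≤ 2 * Real.exp (-(c * n)) * C.card ∨
        ∃ C' ⊆ C, C'.Nonempty ∧ 1 - 3 * Real.exp (-(c * n)) ≤ optC P C' := by
  obtain ⟨ρ, hρ0, hρ1, hρ⟩ := exists_rho h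
  obtain ⟨y0⟩ := Chan.nonempty_out h
  have hq : (1 : ℝ) ≤ Fintype.card Y := by
    exact_mod_cast Fintype.card_pos_iff.2 ⟨y0⟩
  -- the constants
  set τ : ℝ := min (1 / 2) (η / (16 * Fintype.card Y)) with hτdef
  have hτ : 0 < τ := lt_min (by norm_num) (by positivity)
  have hτh : τ ≤ 1 / 2 := min_le_left _ _
  have hτ1 : τ ≤ 1 := by linarith
  have hτ2 : Fintype.card Y * τ ≤ η / 16 := by
    calc Fintype.card Y * τ ≤ Fintype.card Y * (η / (16 * Fintype.card Y)) :=
          mul_le_mul_of_nonneg_left (min_le_right _ _) (by linarith)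
      _ = η / 16 := by field_simp
  have hρτ : 0 < ρ * τ := mul_pos hρ0 hτ
  have hL : 0 < Real.log (1 / (ρ * τ)) := by
    apply Real.log_pos
    rw [lt_div_iff₀ hρτ]
    nlinarith
  set s : ℝ := η / 16 / Real.log (1 / (ρ * τ)) with hsdef
  have hs : 0 < s := by positivity
  have hsL : s * Real.log (1 / (ρ * τ)) = η / 16 := by
    rw [hsdef]
    field_simp
  set a : ℝ := min (s ^ 2 / 2) (η / 8) with hadef
  have ha : 0 < a := lt_min (by positivity) (by positivity)
  have ha1 : a ≤ s ^ 2 / 2 := min_le_left _ _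
  have ha2 : a ≤ η / 8 := min_le_right _ _
  refine ⟨a, ha, fun n C hC => ?_⟩
  have hcard : (0 : ℝ) < C.card := by exact_mod_cast hC.card_pos
  have hn : (0 : ℝ) ≤ n := Nat.cast_nonneg _
  set M : ℝ := Real.exp (η * n) with hM
  set m : ℝ := Real.exp (η / 2 * n) with hm
  have hM0 : 0 < M := Real.exp_pos _
  have hm0 : 0 < m := Real.exp_pos _
  by_cases hbig : lowp P C M ≤ 2 * Real.exp (-(a * n)) * C.card
  · exact Or.inl hbig
  right
  push Not at hbig
  set q : (Fin n → Bool) → ℝ := fun x => ∑ y : Fin n → Y, kc P x y *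
    (if M * kc P x y ≤ mc P C y then 1 else 0) with hqdef
  have hq1 : ∀ x, q x ≤ 1 := by
    intro x
    calc q x ≤ ∑ y : Fin n → Y, kc P x y * 1 := Finset.sum_le_sum fun y _ =>
          mul_le_mul_of_nonneg_left (by split_ifs <;> norm_num) (kc_nonneg h x y)
      _ = 1 := by rw [← Finset.sum_mul, sum_kc h, one_mul]
  have hbigq : lowp P C M = ∑ x ∈ C, q x := rfl
  set C' := C.filter fun x => Real.exp (-(a * n)) ≤ q x with hC'
  have hsub : C' ⊆ C := Finset.filter_subset _ _
  have hcard' : Real.exp (-(a * n)) * C.card ≤ C'.card := by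
    have g1 : ∑ x ∈ C, q x ≤ ∑ x ∈ C, (Real.exp (-(a * n)) + if x ∈ C' then (1 : ℝ) else 0) := by
      refine Finset.sum_le_sum fun x hx => ?_
      split_ifs with h
      · linarith [hq1 x, Real.exp_pos (-(a * n))]
      · rw [hC', Finset.mem_filter] at h
        push Not at h
        linarith [h hx]
    rw [Finset.sum_add_distrib, Finset.sum_const, nsmul_eq_mul, ← Finset.sum_filter,
      Finset.filter_mem_eq_inter, Finset.inter_eq_right.2 hsub] at g1
    rw [hbigq] at hbig
    simp only [Finset.sum_const, nsmul_eq_mul, mul_one] at g1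
    linarith
  have hne : C'.Nonempty := by
    rw [← Finset.card_pos]
    have : (0 : ℝ) < C'.card := lt_of_lt_of_le (mul_pos (Real.exp_pos _) hcard) hcard'
    exact_mod_cast this
  have hc0 : (0 : ℝ) < C'.card := by exact_mod_cast hne.card_pos
  have hCC : (C.card : ℝ) ≤ Real.exp (a * n) * C'.card := by
    have := mul_le_mul_of_nonneg_left hcard' (Real.exp_pos (a * n)).le
    rwa [← mul_assoc, ← Real.exp_add, add_neg_cancel, Real.exp_zero, one_mul] at this
  refine ⟨C', hsub, hne, ?_⟩
  -- the words with a large posterior probability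
  have hsmall : ∑ x ∈ C', ∑ y : Fin n → Y, kc P x y *
      (if mc P C y < m * kc P x y then (1 : ℝ) else 0) ≤
      C'.card * Real.exp (-((s ^ 2 - a) * n)) +
        m / M * ((1 / ρ) ^ (s * n) * ((1 / τ) ^ (s * n) * (1 + Fintype.card Y * τ) ^ n)) *
          C.card := by
    set E : (Fin n → Y) → (Fin n → Bool) → ℝ := fun y x =>
      if (∃ y' : Fin n → Y, (kc P x y' ≠ 0 ∧ M * kc P x y' ≤ mc P C y') ∧
        (hammingDist y y' : ℝ) ≤ s * n) ∧ mc P C y < m * kc P x y then (1 : ℝ) else 0 with hE
    have hE0 : ∀ y x, 0 ≤ E y x := fun y x => by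
      rw [hE]
      dsimp only
      split_ifs <;> norm_num
    have g1 : ∀ x ∈ C', ∑ y : Fin n → Y, kc P x y *
        (if mc P C y < m * kc P x y then (1 : ℝ) else 0) ≤
        Real.exp (-((s ^ 2 - a) * n)) + ∑ y : Fin n → Y, kc P x y * E y x := by
      intro x hx
      have hxq : Real.exp (-(a * n)) ≤ q x := (Finset.mem_filter.1 hx).2
      set S : Finset (Fin n → Y) := univ.filter fun y => kc P x y ≠ 0 ∧
        M * kc P x y ≤ mc P C y with hSdef
      have hqS : q x = ∑ y ∈ S, ∏ k, P (x k) (y k) := by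
        rw [hqdef, hSdef, Finset.sum_filter]
        refine Finset.sum_congr rfl fun y _ => ?_
        change kc P x y * (if M * kc P x y ≤ mc P C y then 1 else 0) =
          if kc P x y ≠ 0 ∧ M * kc P x y ≤ mc P C y then kc P x y else 0
        by_cases h0 : kc P x y = 0
        · rw [h0]
          simp
        · by_cases h1 : M * kc P x y ≤ mc P C y
          · simp [h0, h1]
          · simp [h1]
      have hb := blowY (fun k => P (x k)) (fun k y => h.nonneg _ _) (fun k => h.sum _) S hs.le
        (hqS ▸ hxq)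
      refine le_trans ?_ (add_le_add hb le_rfl)
      rw [← Finset.sum_add_distrib]
      refine Finset.sum_le_sum fun y _ => ?_
      have hk : ∏ k, P (x k) (y k) = kc P x y := rfl
      rw [hk, ← mul_add]
      refine mul_le_mul_of_nonneg_left ?_ (kc_nonneg h x y)
      by_cases hlt : mc P C y < m * kc P x y
      · rw [if_pos hlt]
        by_cases hd : ∃ v ∈ S, (hammingDist y v : ℝ) ≤ s * n
        · rw [if_pos hd, zero_add]
          obtain ⟨v, hv, hvd⟩ := hd
          have h4 : E y x = 1 := by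
            rw [hE]
            dsimp only
            rw [if_pos ⟨⟨v, (Finset.mem_filter.1 hv).2, hvd⟩, hlt⟩]
          rw [h4]
        · rw [if_neg hd]
          linarith [hE0 y x]
      · rw [if_neg hlt]
        exact add_nonneg (by split_ifs <;> norm_num) (hE0 y x)
    refine (Finset.sum_le_sum g1).trans ?_
    rw [Finset.sum_add_distrib, Finset.sum_const, nsmul_eq_mul]
    refine add_le_add le_rfl ?_
    refine le_trans ?_ (excY h hρ0 hρ1 hρ C hm0 hM0 hτ hτ1)
    exact Finset.sum_le_sum_of_subset_of_nonneg hsub fun x _ _ =>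
      Finset.sum_nonneg fun y _ => mul_nonneg (kc_nonneg h x y) (hE0 y x)
  have hfac : m / M * ((1 / ρ) ^ (s * n) * ((1 / τ) ^ (s * n) * (1 + Fintype.card Y * τ) ^ n)) ≤
      Real.exp (-(η / 4 * n)) := by
    have k1 : (1 / ρ) ^ (s * n) * (1 / τ) ^ (s * n) = Real.exp (η / 16 * n) := by
      rw [← Real.mul_rpow (by positivity) (by positivity)]
      have e5 : 1 / ρ * (1 / τ) = 1 / (ρ * τ) := by field_simp
      rw [e5, Real.rpow_def_of_pos (by positivity)]
      congr 1
      rw [← hsL]
      ring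
    have k2 : (1 + Fintype.card Y * τ) ^ n ≤ Real.exp (η / 16 * n) := by
      calc (1 + Fintype.card Y * τ) ^ n ≤ Real.exp (Fintype.card Y * τ) ^ n := by
            refine pow_le_pow_left₀ (by positivity) ?_ n
            linarith [Real.add_one_le_exp (Fintype.card Y * τ)]
        _ = Real.exp (Fintype.card Y * τ * n) := by rw [← Real.exp_nat_mul, mul_comm]
        _ ≤ Real.exp (η / 16 * n) := Real.exp_le_exp.2 (mul_le_mul_of_nonneg_right hτ2 hn)
    have k3 : m / M = Real.exp (-(η / 2 * n)) := by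
      rw [hm, hM, ← Real.exp_sub]
      congr 1
      ring
    rw [← mul_assoc ((1 / ρ) ^ (s * n)), k1, k3]
    calc Real.exp (-(η / 2 * n)) * (Real.exp (η / 16 * n) * (1 + Fintype.card Y * τ) ^ n)
        ≤ Real.exp (-(η / 2 * n)) * (Real.exp (η / 16 * n) * Real.exp (η / 16 * n)) := by
          gcongr
      _ = Real.exp (-(η * 3 / 8 * n)) := by
          rw [← Real.exp_add, ← Real.exp_add]
          congr 1
          ring
      _ ≤ Real.exp (-(η / 4 * n)) := by
          apply Real.exp_le_exp.2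
          nlinarith
  have hexp : ∀ b : ℝ, a ≤ b → Real.exp (-(b * n)) ≤ Real.exp (-(a * n)) := by
    intro b hb
    apply Real.exp_le_exp.2
    nlinarith
  apply le_optC
  intro D
  rw [errC_eq h hne D]
  have hsuc : ∑ x ∈ C', ∑ y, (if D y = x then kc P x y else 0) ≤
      C'.card * Real.exp (-((s ^ 2 - a) * n)) + Real.exp (-(η / 4 * n)) * C.card + C.card / m := by
    have g2 : ∀ x ∈ C', ∀ y : Fin n → Y, (if D y = x then kc P x y else 0) ≤
        kc P x y * (if mc P C y < m * kc P x y then (1 : ℝ) else 0) +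
          (if D y = x then mc P C y / m else 0) := by
      intro x _ y
      have k1 : 0 ≤ mc P C y / m := div_nonneg (mc_nonneg h C y) hm0.le
      have k2 := kc_nonneg h x y
      by_cases hD : D y = x
      · rw [if_pos hD, if_pos hD]
        split_ifs with hlt
        · rw [mul_one]; linarith
        · rw [mul_zero, zero_add, le_div_iff₀ hm0]
          push Not at hlt
          linarith
      · rw [if_neg hD, if_neg hD, add_zero]
        exact mul_nonneg k2 (by split_ifs <;> norm_num)
    calc ∑ x ∈ C', ∑ y, (if D y = x then kc P x y else 0)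
        ≤ ∑ x ∈ C', ∑ y, (kc P x y * (if mc P C y < m * kc P x y then (1 : ℝ) else 0) +
          (if D y = x then mc P C y / m else 0)) :=
          Finset.sum_le_sum fun x hx => Finset.sum_le_sum fun y _ => g2 x hx y
      _ = ∑ x ∈ C', ∑ y, kc P x y * (if mc P C y < m * kc P x y then (1 : ℝ) else 0) +
          ∑ y, ∑ x ∈ C', (if D y = x then mc P C y / m else 0) := by
          simp_rw [Finset.sum_add_distrib]
          congr 1
          exact Finset.sum_comm
      _ ≤ (C'.card * Real.exp (-((s ^ 2 - a) * n)) + Real.exp (-(η / 4 * n)) * C.card) +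
          ∑ y, mc P C y / m := by
          refine add_le_add (hsmall.trans (add_le_add le_rfl ?_)) ?_
          · exact mul_le_mul_of_nonneg_right hfac hcard.le
          · refine Finset.sum_le_sum fun y _ => ?_
            rw [Finset.sum_ite_eq]
            split_ifs
            · exact le_rfl
            · exact div_nonneg (mc_nonneg h C y) hm0.le
      _ = _ := by rw [← Finset.sum_div, sum_mc h]
  have j1 : (C'.card : ℝ) * Real.exp (-((s ^ 2 - a) * n)) ≤ Real.exp (-(a * n)) * C'.card := by
    rw [mul_comm]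
    exact mul_le_mul_of_nonneg_right (hexp _ (by linarith)) hc0.le
  have j2 : Real.exp (-(η / 4 * n)) * C.card ≤ Real.exp (-(a * n)) * C'.card := by
    calc Real.exp (-(η / 4 * n)) * C.card
        ≤ Real.exp (-(η / 4 * n)) * (Real.exp (a * n) * C'.card) :=
          mul_le_mul_of_nonneg_left hCC (Real.exp_pos _).le
      _ = Real.exp (-((η / 4 - a) * n)) * C'.card := by
          rw [← mul_assoc, ← Real.exp_add]
          congr 2
          ring
      _ ≤ _ := mul_le_mul_of_nonneg_right (hexp _ (by linarith)) hc0.le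
  have j3 : (C.card : ℝ) / m ≤ Real.exp (-(a * n)) * C'.card := by
    calc (C.card : ℝ) / m = Real.exp (-(η / 2 * n)) * C.card := by
          rw [hm, Real.exp_neg, div_eq_mul_inv, mul_comm]
      _ ≤ Real.exp (-(η / 2 * n)) * (Real.exp (a * n) * C'.card) :=
          mul_le_mul_of_nonneg_left hCC (Real.exp_pos _).le
      _ = Real.exp (-((η / 2 - a) * n)) * C'.card := by
          rw [← mul_assoc, ← Real.exp_add]
          congr 2
          ring
      _ ≤ _ := mul_le_mul_of_nonneg_right (hexp _ (by linarith)) hc0.le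
  have j4 : (∑ x ∈ C', ∑ y, (if D y = x then kc P x y else 0)) / C'.card ≤
      3 * Real.exp (-(a * n)) := by
    rw [div_le_iff₀ hc0]
    linarith
  linarith

end classicalY

end Pool.Agent.Helper84.Era
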