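import Pool.Agent.Helper84.Era.Area
import Pool.Agent.Helper84.Chan.Conv

/-!
The area inequality, the erasure channel, and the comparison of a symmetric channel with the
erasure channel of the same capacity.
-/

set_option autoImplicit false

namespace Pool.Agent.Helper84.Era

open Finset Filter
open Pool.Agent.Helper89K9.GV
open Pool.Agent.Helper84.Thresh
open Pool.Agent.Results.MP_0430e4_lc.ConstantWeightCriterion (IsCode)
open Pool.Agent.Helper84.Chan (En kv mv S_update' En_eq resample Sym kc mc Ec rt errC optC errC_eq
  optC_le le_optC)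

variable {n : ℕ}

lemma gl_nonneg (C : Finset (Fin n → Bool)) (W : Fin n → Bool) : 0 ≤ gl C W :=
  Finset.sum_nonneg fun x hx => Real.log_nonneg (by exact_mod_cast cl_pos hx)

/-- **The area inequality.** -/
theorem area {e e2 : ℝ} (h0 : 0 < e) (h1 : e ≤ e2) (h2 : e2 ≤ 1) {d : ℕ}
    {C : Finset (Fin n → Bool)} (hC : IsCode d C) :
    2 * Real.log 2 * (d * (C.card - suc e C)) * (Real.log e2 - Real.log e) ≤ Qe e2 C := by
  set K : ℝ := 2 * Real.log 2 * (d * (C.card - suc e C)) with hK
  have hlog : 0 < Real.log 2 := Real.log_pos (by norm_num)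
  have hD : ∀ x ∈ Set.Icc e e2, HasDerivAt (fun x => Qe x C - K * Real.log x)
      ((∑ W : Fin n → Bool, mu x W *
      ∑ i, if W i = true then gl C W - gl C (Function.update W i false) else 0) / x - K * x⁻¹) x := by
    intro x hx
    have hx0 : x ≠ 0 := (lt_of_lt_of_le h0 hx.1).ne'
    exact (Qe_deriv hx0 C).sub ((Real.hasDerivAt_log hx0).const_mul K)
  have hmono : MonotoneOn (fun x => Qe x C - K * Real.log x) (Set.Icc e e2) := by
    apply monotoneOn_of_deriv_nonneg (convex_Icc e e2)
    · exact fun x hx => (hD x hx).continuousAt.continuousWithinAt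
    · intro x hx
      rw [interior_Icc] at hx
      exact (hD x ⟨hx.1.le, hx.2.le⟩).differentiableAt.differentiableWithinAt
    · intro x hx
      rw [interior_Icc] at hx
      rw [(hD x ⟨hx.1.le, hx.2.le⟩).deriv]
      have hx0 : 0 < x := h0.trans hx.1
      have hx1 : x ≤ 1 := hx.2.le.trans h2
      have g1 : K ≤ ∑ W : Fin n → Bool, mu x W *
          ∑ i, if W i = true then gl C W - gl C (Function.update W i false) else 0 := by
        calc K ≤ 2 * Real.log 2 * (d * (C.card - suc x C)) := by
              rw [hK]
              refine mul_le_mul_of_nonneg_left ?_ (by positivity)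
              refine mul_le_mul_of_nonneg_left ?_ (Nat.cast_nonneg _)
              linarith [suc_anti h0.le hx.1.le hx1 C]
          _ = ∑ W : Fin n → Bool, mu x W * (2 * Real.log 2 *
                (d * (C.card - ∑ x ∈ C, 1 / ((cl C W x).card : ℝ)))) := by
              unfold suc
              have e1 : ∀ W : Fin n → Bool, mu x W * (2 * Real.log 2 *
                  (d * (C.card - ∑ x ∈ C, 1 / ((cl C W x).card : ℝ)))) =
                  2 * Real.log 2 * d * (mu x W * C.card -
                    mu x W * ∑ x ∈ C, 1 / ((cl C W x).card : ℝ)) := fun W => by ring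
              rw [Finset.sum_congr rfl fun W _ => e1 W, ← Finset.mul_sum,
                Finset.sum_sub_distrib, ← Finset.sum_mul, sum_mu]
              ring
          _ ≤ _ := Finset.sum_le_sum fun W _ =>
              mul_le_mul_of_nonneg_left (coords hC W) (mu_nonneg hx0.le hx1 _)
      rw [← div_eq_mul_inv, ← sub_div]
      exact div_nonneg (by linarith) hx0.le
  have h3 := hmono (Set.left_mem_Icc.2 h1) (Set.right_mem_Icc.2 h1) h1
  simp only at h3
  have h4 : 0 ≤ Qe e C := Finset.sum_nonneg fun W _ => mul_nonneg (mu_nonneg h0.le (h1.trans h2) _)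
    (gl_nonneg C W)
  nlinarith

lemma Qe_le {e : ℝ} (h0 : 0 ≤ e) (h1 : e ≤ 1) (C : Finset (Fin n → Bool)) :
    Qe e C ≤ C.card * Real.log C.card := by
  unfold Qe
  calc ∑ W : Fin n → Bool, mu e W * gl C W ≤
        ∑ W : Fin n → Bool, mu e W * (C.card * Real.log C.card) := by
        refine Finset.sum_le_sum fun W _ => mul_le_mul_of_nonneg_left ?_
          (mu_nonneg h0 h1 _)
        unfold gl
        rw [← nsmul_eq_mul, ← Finset.sum_const]
        refine Finset.sum_le_sum fun x hx => ?_
        apply Real.log_le_log (by exact_mod_cast cl_pos hx)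
        exact_mod_cast Finset.card_le_card (Finset.filter_subset _ _)
    _ = C.card * Real.log C.card := by rw [← Finset.sum_mul, sum_mu, one_mul]

/-! ### Equivocation of patterns -/

/-- the crossover probabilities of a pattern -/
noncomputable def hp (W : Fin n → Bool) (i : Fin n) : ℝ := if W i = true then 1 / 2 else 0

lemma kv_hp (W x y : Fin n → Bool) :
    kv (hp W) x y = if (∀ i, W i = false → x i = y i) then (1 / 2) ^ wt W else 0 := by
  unfold kv hp
  split_ifs with h
  · have e1 : ∀ i, nz (if W i = true then (1 / 2 : ℝ) else 0) (x i) (y i) =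
        if W i = true then 1 / 2 else 1 := by
      intro i
      by_cases hi : W i = true
      · rw [if_pos hi, if_pos hi]
        unfold nz
        split_ifs <;> norm_num
      · rw [if_neg hi, if_neg hi]
        rw [Bool.not_eq_true] at hi
        unfold nz
        rw [h i hi]
        simp
    rw [Finset.prod_congr rfl fun i _ => e1 i, Finset.prod_ite]
    simp [wt]
  · push Not at h
    obtain ⟨i, hi, hne⟩ := h
    refine Finset.prod_eq_zero (Finset.mem_univ i) ?_
    rw [hi]
    unfold nz
    simp [hne]

lemma En_hp (C : Finset (Fin n → Bool)) (W : Fin n → Bool) : En (hp W) C = gl C W := by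
  unfold En gl
  refine Finset.sum_congr rfl fun x hx => ?_
  have e1 : ∀ y : Fin n → Bool, kv (hp W) x y * (Real.log (mv (hp W) C y) -
      Real.log (kv (hp W) x y)) = kv (hp W) x y * Real.log ((cl C W x).card : ℝ) := by
    intro y
    by_cases h : ∀ i, W i = false → x i = y i
    · have h2 : mv (hp W) C y = (cl C W x).card * (1 / 2) ^ wt W := by
        unfold mv
        simp_rw [kv_hp]
        rw [← Finset.sum_filter, Finset.sum_const, nsmul_eq_mul]
        congr 2
        unfold cl
        congr 1
        refine Finset.filter_congr fun z _ => ?_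
        exact ⟨fun hz i hi => (hz i hi).trans (h i hi).symm,
          fun hz i hi => (hz i hi).trans (h i hi)⟩
      have hpos : (0 : ℝ) < (cl C W x).card := by exact_mod_cast cl_pos hx
      rw [h2, kv_hp, if_pos h, Real.log_mul hpos.ne' (by positivity)]
      ring
    · rw [kv_hp, if_neg h]
      ring
  rw [Finset.sum_congr rfl fun y _ => e1 y, ← Finset.sum_mul, Chan.sum_kv, one_mul]

/-! ### One letter -/

lemma En_flip {p : Fin n → ℝ} (i : Fin n) (C : Finset (Fin n → Bool)) (q : ℝ) :
    En (Function.update p i (1 - q)) C = En (Function.update p i q) C := by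
  have e : ∀ q : ℝ, ∑ k, Real.binEntropy (Function.update p i q k) =
      Real.binEntropy q + ∑ k ∈ univ.erase i, Real.binEntropy (p k) := by
    intro q
    rw [← Finset.add_sum_erase univ _ (Finset.mem_univ i), Function.update_self]
    congr 1
    apply Finset.sum_congr rfl
    intro j hj
    rw [Function.update_of_ne (Finset.ne_of_mem_erase hj)]
  rw [En_eq, En_eq, e, e, Real.binEntropy_one_sub]
  congr 1
  unfold S
  rw [← sum_fl i]
  apply Finset.sum_congr rfl
  intro y _
  rw [Chan.mv_update, Chan.mv_update, fl_fl]
  congr 1
  · ring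
  · congr 1
    ring

/-- the equivocation is at least the chord -/
lemma chord {p : Fin n → ℝ} (h0 : ∀ i, 0 ≤ p i) (h1 : ∀ i, p i ≤ 1) (i : Fin n)
    (C : Finset (Fin n → Bool)) {q : ℝ} (hq0 : 0 ≤ q) (hq1 : q ≤ 1) :
    (1 - Real.binEntropy q / Real.log 2) * En (Function.update p i 0) C +
      Real.binEntropy q / Real.log 2 * En (Function.update p i (1 / 2)) C ≤
        En (Function.update p i q) C := by
  have hlog : 0 < Real.log 2 := Real.log_pos (by norm_num)
  have main : ∀ q : ℝ, 0 ≤ q → q ≤ 1 / 2 →
      (1 - Real.binEntropy q / Real.log 2) * En (Function.update p i 0) C +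
      Real.binEntropy q / Real.log 2 * En (Function.update p i (1 / 2)) C ≤
        En (Function.update p i q) C := by
    intro q hq0 hq1
    rcases hq0.eq_or_lt with h | h
    · rw [← h]
      simp
    rcases hq1.eq_or_lt with h' | h'
    · rw [h', one_div, Real.binEntropy_two_inv, div_self hlog.ne']
      simp
    obtain ⟨s, -, hs⟩ := S_update' h0 h1 i C h h'
    have e : ∀ q : ℝ, ∑ k, Real.binEntropy (Function.update p i q k) =
        Real.binEntropy q + ∑ k ∈ univ.erase i, Real.binEntropy (p k) := by
      intro q
      rw [← Finset.add_sum_erase univ _ (Finset.mem_univ i), Function.update_self]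
      congr 1
      apply Finset.sum_congr rfl
      intro j hj
      rw [Function.update_of_ne (Finset.ne_of_mem_erase hj)]
    have g0 := hs 0 le_rfl zero_le_one
    have g1 := hs (1 / 2) (by norm_num) (by norm_num)
    have b1 : Real.binEntropy (1 / 2) = Real.log 2 := by rw [one_div, Real.binEntropy_two_inv]
    rw [En_eq, En_eq, En_eq, e, e, e, b1]
    rw [b1] at g1
    simp only [Real.binEntropy_zero, mul_zero, add_zero, zero_add] at g0 ⊢
    set β := Real.binEntropy q with hβ
    set A := ∑ k ∈ univ.erase i, Real.binEntropy (p k) with hA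
    have hβ0 : 0 ≤ β := Real.binEntropy_nonneg hq0 (by linarith)
    have hβ1 : β ≤ Real.log 2 := Real.binEntropy_le_log_two
    set u := β / Real.log 2 with hu
    have hu0 : 0 ≤ u := div_nonneg hβ0 hlog.le
    have hu1 : u ≤ 1 := by rw [hu, div_le_one hlog]; exact hβ1
    have hβu : β = u * Real.log 2 := by rw [hu]; field_simp
    have k0 := mul_le_mul_of_nonneg_left g0 (by linarith : 0 ≤ 1 - u)
    have k1 := mul_le_mul_of_nonneg_left g1 hu0
    rw [hβu] at k0 k1 ⊢
    nlinarith
  rcases le_total q (1 / 2) with h | h
  · exact main q hq0 h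
  · have := main (1 - q) (by linarith) (by linarith)
    rwa [Real.binEntropy_one_sub, En_flip] at this

variable {Y : Type} [Fintype Y]

lemma En_le_nonneg (p : Fin n → ℝ) (h0 : ∀ i, 0 ≤ p i) (h1 : ∀ i, p i ≤ 1)
    (C : Finset (Fin n → Bool)) : 0 ≤ En p C := by
  unfold En
  refine Finset.sum_nonneg fun x hx => Finset.sum_nonneg fun y _ => ?_
  by_cases h : kv p x y = 0
  · rw [h, zero_mul]
  · have hpos : 0 < kv p x y := lt_of_le_of_ne (Chan.kv_nonneg h0 h1 x y) (Ne.symm h)
    exact mul_nonneg hpos.le (sub_nonneg.2 (Real.log_le_log hpos (Chan.kv_le_mv h0 h1 hx y)))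

/-- **The comparison with the erasure channel.** -/
theorem hybrid_low (C : Finset (Fin n → Bool)) {w q : Y → ℝ} (hw : ∀ y, 0 ≤ w y)
    (hw1 : ∑ y, w y = 1) (hq0 : ∀ y, 0 ≤ q y) (hq1 : ∀ y, q y ≤ 1) {e : ℝ}
    (he : ∑ y, w y * Real.binEntropy (q y) = e * Real.log 2) :
    Qe e C ≤ ∑ j : Fin n → Y, (∏ k, w (j k)) * En (fun k => q (j k)) C := by
  classical
  have hlog : 0 < Real.log 2 := Real.log_pos (by norm_num)
  have he0 : 0 ≤ e := by
    have : 0 ≤ e * Real.log 2 := by
      rw [← he]
      exact Finset.sum_nonneg fun y _ => mul_nonneg (hw y)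
        (Real.binEntropy_nonneg (hq0 y) (hq1 y))
    exact nonneg_of_mul_nonneg_left this hlog
  have he1 : e ≤ 1 := by
    have : e * Real.log 2 ≤ 1 * Real.log 2 := by
      rw [← he, ← hw1, Finset.sum_mul]
      exact Finset.sum_le_sum fun y _ => mul_le_mul_of_nonneg_left Real.binEntropy_le_log_two (hw y)
    exact le_of_mul_le_mul_right this hlog
  set w' : Y × Bool → ℝ := fun a => w a.1 * me e a.2 with hw'
  have hw'0 : ∀ a, 0 ≤ w' a := fun a => mul_nonneg (hw _) (me_nonneg he0 he1 _)
  have hw'1 : ∑ a, w' a = 1 := by
    rw [hw', Fintype.sum_prod_type]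
    simp only
    rw [Finset.sum_congr rfl fun y _ => by rw [← Finset.mul_sum, sum_me, mul_one], hw1]
  set hb : Bool → ℝ := fun b => if b = true then 1 / 2 else 0 with hhb
  have key : ∀ T : Finset (Fin n),
      ∑ j : Fin n → Y × Bool, (∏ k, w' (j k)) * En (fun k => hb (j k).2) C ≤
      ∑ j : Fin n → Y × Bool, (∏ k, w' (j k)) *
        En (fun k => if k ∈ T then q (j k).1 else hb (j k).2) C := by
    intro T
    induction T using Finset.induction_on with
    | empty => simp only [Finset.notMem_empty, if_false]; exact le_rfl
    | insert i T hi ih =>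
      refine ih.trans ?_
      rw [resample hw'1 i, resample hw'1 i (fun j => En (fun k => if k ∈ insert i T then
        q (j k).1 else hb (j k).2) C)]
      apply Finset.sum_le_sum
      intro j _
      apply mul_le_mul_of_nonneg_left _ (Finset.prod_nonneg fun k _ => hw'0 _)
      set P : Fin n → ℝ := fun k => if k ∈ T then q (j k).1 else hb (j k).2 with hP
      have hb0 : ∀ b, 0 ≤ hb b := fun b => by
        simp only [hhb]
        split_ifs <;> norm_num
      have hb1 : ∀ b, hb b ≤ 1 := fun b => by
        simp only [hhb]
        split_ifs <;> norm_num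
      have hP0 : ∀ k, 0 ≤ P k := by
        intro k
        simp only [hP]
        split_ifs
        · exact hq0 _
        · exact hb0 _
      have hP1 : ∀ k, P k ≤ 1 := by
        intro k
        simp only [hP]
        split_ifs
        · exact hq1 _
        · exact hb1 _
      have e1 : ∀ a, (fun k => if k ∈ insert i T then q (Function.update j i a k).1
          else hb (Function.update j i a k).2) = Function.update P i (q a.1) := by
        intro a
        funext k
        by_cases hk : k = i
        · subst hk
          simp
        · rw [Function.update_of_ne hk, Function.update_of_ne hk]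
          simp only [Finset.mem_insert, hk, false_or, hP]
      have e2 : ∀ a, (fun k => if k ∈ T then q (Function.update j i a k).1
          else hb (Function.update j i a k).2) = Function.update P i (hb a.2) := by
        intro a
        funext k
        by_cases hk : k = i
        · subst hk
          simp [hi]
        · rw [Function.update_of_ne hk, Function.update_of_ne hk]
      simp_rw [e1, e2]
      have l1 : ∑ a, w' a * En (Function.update P i (hb a.2)) C =
          (1 - e) * En (Function.update P i 0) C + e * En (Function.update P i (1 / 2)) C := by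
        rw [hw', Fintype.sum_prod_type]
        simp only [Fintype.sum_bool, hhb, me, if_true, Bool.false_eq_true, if_false]
        have : ∀ y : Y, w y * e * En (Function.update P i (1 / 2)) C +
            w y * (1 - e) * En (Function.update P i 0) C =
            w y * ((1 - e) * En (Function.update P i 0) C +
              e * En (Function.update P i (1 / 2)) C) := by
          intro y
          ring
        rw [Finset.sum_congr rfl fun y _ => this y, ← Finset.sum_mul, hw1, one_mul]
      have l2 : ∑ a, w' a * En (Function.update P i (q a.1)) C =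
          ∑ y, w y * En (Function.update P i (q y)) C := by
        rw [hw', Fintype.sum_prod_type]
        simp only
        refine Finset.sum_congr rfl fun y _ => ?_
        rw [← Finset.sum_mul, ← Finset.mul_sum, sum_me, mul_one]
      rw [l1, l2]
      have l3 : ∀ y, w y * ((1 - Real.binEntropy (q y) / Real.log 2) *
          En (Function.update P i 0) C + Real.binEntropy (q y) / Real.log 2 *
          En (Function.update P i (1 / 2)) C) ≤ w y * En (Function.update P i (q y)) C :=
        fun y => mul_le_mul_of_nonneg_left (chord hP0 hP1 i C (hq0 y) (hq1 y)) (hw y)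
      refine le_trans (le_of_eq ?_) (Finset.sum_le_sum fun y _ => l3 y)
      have l4 : ∀ y, w y * ((1 - Real.binEntropy (q y) / Real.log 2) *
          En (Function.update P i 0) C + Real.binEntropy (q y) / Real.log 2 *
          En (Function.update P i (1 / 2)) C) =
          w y * En (Function.update P i 0) C + w y * Real.binEntropy (q y) *
          ((En (Function.update P i (1 / 2)) C - En (Function.update P i 0) C) / Real.log 2) := by
        intro y
        field_simp
        ring
      rw [Finset.sum_congr rfl fun y _ => l4 y, Finset.sum_add_distrib, ← Finset.sum_mul,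
        ← Finset.sum_mul, hw1, he]
      field_simp
      ring
  have h := key univ
  simp only [Finset.mem_univ, if_true] at h
  have r1 : ∑ j : Fin n → Y × Bool, (∏ k, w' (j k)) * En (fun k => hb (j k).2) C = Qe e C := by
    rw [push (fun _ => w') (fun a => a.2) (fun W => En (fun k => hb (W k)) C)]
    unfold Qe
    refine Finset.sum_congr rfl fun W _ => ?_
    rw [← En_hp]
    congr 1
    unfold mu
    refine Finset.prod_congr rfl fun k _ => ?_
    rw [Finset.sum_filter, hw', Fintype.sum_prod_type]
    simp only [Fintype.sum_bool]
    cases W k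
    · simp [me, ← Finset.sum_mul, hw1]
    · simp [me, ← Finset.sum_mul, hw1]
  have r2 : ∑ j : Fin n → Y × Bool, (∏ k, w' (j k)) * En (fun k => q (j k).1) C =
      ∑ j : Fin n → Y, (∏ k, w (j k)) * En (fun k => q (j k)) C := by
    rw [push (fun _ => w') (fun a => a.1) (fun W => En (fun k => q (W k)) C)]
    refine Finset.sum_congr rfl fun W _ => ?_
    congr 1
    refine Finset.prod_congr rfl fun k _ => ?_
    rw [Finset.sum_filter, hw', Fintype.sum_prod_type]
    simp only
    rw [Finset.sum_eq_single (W k)]
    · rw [Finset.sum_congr rfl fun b _ => if_pos rfl, ← Finset.mul_sum, sum_me, mul_one]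
    · intro y _ hy
      simp [hy]
    · intro h
      exact absurd (Finset.mem_univ _) h
  rw [← r1, ← r2]
  exact h

end Pool.Agent.Helper84.Era
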