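import Pool.Agent.Helper84.Thresh.KI

/-!
Erasure patterns: product measures on the set of patterns, thinning, classes of words which agree
outside of a pattern.
-/

set_option autoImplicit false

namespace Pool.Agent.Helper84.Era

open Finset Filter
open Pool.Agent.Helper89K9.GV
open Pool.Agent.Helper84.Thresh
open Pool.Agent.Results.MP_0430e4_lc.ConstantWeightCriterion (IsCode)

variable {n : ℕ}

/-- the weight of a letter of a pattern -/
noncomputable def me (e : ℝ) (b : Bool) : ℝ := if b then e else 1 - e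

/-- the probability of the erasure pattern `W` -/
noncomputable def mu (e : ℝ) (W : Fin n → Bool) : ℝ := ∏ i, me e (W i)

lemma me_nonneg {e : ℝ} (h0 : 0 ≤ e) (h1 : e ≤ 1) (b : Bool) : 0 ≤ me e b := by
  unfold me; split_ifs <;> linarith

lemma sum_me (e : ℝ) : ∑ b, me e b = 1 := by
  unfold me; simp

lemma mu_nonneg {e : ℝ} (h0 : 0 ≤ e) (h1 : e ≤ 1) (W : Fin n → Bool) : 0 ≤ mu e W :=
  Finset.prod_nonneg fun _ _ => me_nonneg h0 h1 _

lemma sum_mu (e : ℝ) : ∑ W : Fin n → Bool, mu e W = 1 := by
  unfold mu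
  rw [prod_sum_fun (fun _ b => me e b)]
  exact Finset.prod_eq_one fun _ _ => sum_me e

lemma mu_kern (e : ℝ) (W : Fin n → Bool) : mu e W = kern e (fun _ => false) W := by
  unfold mu kern
  refine Finset.prod_congr rfl fun i _ => ?_
  unfold me nz
  cases W i <;> simp

/-- push forward of a product measure -/
lemma push {Y Z : Type} [Fintype Y] [Fintype Z] [DecidableEq Z] (w : Fin n → Y → ℝ) (g : Y → Z)
    (F : (Fin n → Z) → ℝ) :
    ∑ y : Fin n → Y, (∏ k, w k (y k)) * F (fun k => g (y k)) =
      ∑ W : Fin n → Z, (∏ k, ∑ a with g a = W k, w k a) * F W := by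
  classical
  have e1 : ∀ W : Fin n → Z, (∏ k, ∑ a with g a = W k, w k a) * F W =
      ∑ y : Fin n → Y with (fun k => g (y k)) = W, (∏ k, w k (y k)) * F (fun k => g (y k)) := by
    intro W
    have h := Finset.prod_univ_sum (fun k : Fin n => univ.filter fun a => g a = W k)
      (fun k a => w k a)
    rw [h, Finset.sum_mul]
    have e2 : Fintype.piFinset (fun k : Fin n => univ.filter fun a => g a = W k) =
        univ.filter fun y : Fin n → Y => (fun k => g (y k)) = W := by
      ext y
      simp only [Fintype.mem_piFinset, mem_filter, mem_univ, true_and]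
      exact ⟨fun h => funext h, fun h k => congrFun h k⟩
    rw [e2]
    refine Finset.sum_congr rfl fun y hy => ?_
    rw [(Finset.mem_filter.1 hy).2]
  rw [Finset.sum_congr rfl fun W _ => e1 W]
  exact (Finset.sum_fiberwise univ (fun y : Fin n → Y => (fun k => g (y k)))
    (fun y => (∏ k, w k (y k)) * F (fun k => g (y k)))).symm

/-- thinning of a pattern -/
lemma thin (e t : ℝ) (F : (Fin n → Bool) → ℝ) :
    ∑ W : Fin n → Bool, mu e W * ∑ V : Fin n → Bool, mu t V * F (fun i => W i && V i) =
      ∑ W : Fin n → Bool, mu (e * t) W * F W := by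
  have h := push (n := n) (fun _ (p : Bool × Bool) => me e p.1 * me t p.2)
    (fun p : Bool × Bool => p.1 && p.2) F
  have e1 : ∀ W : Fin n → Bool, (∏ k, ∑ a : Bool × Bool with (a.1 && a.2) = W k,
      me e a.1 * me t a.2) = mu (e * t) W := by
    intro W
    unfold mu
    refine Finset.prod_congr rfl fun k _ => ?_
    rw [Finset.sum_filter, Fintype.sum_prod_type]
    unfold me
    cases W k <;> simp <;> ring
  simp only [e1] at h
  rw [← h]
  have e2 : ∑ y : Fin n → Bool × Bool, (∏ k, me e (y k).1 * me t (y k).2) *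
      F (fun k => (y k).1 && (y k).2) =
      ∑ p : (Fin n → Bool) × (Fin n → Bool), mu e p.1 * (mu t p.2 *
        F (fun k => p.1 k && p.2 k)) := by
    refine Fintype.sum_equiv (Equiv.arrowProdEquivProdArrow (Fin n) (fun _ => Bool)
      (fun _ => Bool)) _ _ fun y => ?_
    rw [Finset.prod_mul_distrib, mul_assoc]
    rfl
  rw [e2, Fintype.sum_prod_type]
  refine Finset.sum_congr rfl fun W _ => ?_
  rw [Finset.mul_sum]

/-- the probability that a pattern covers a set -/
lemma cover (t : ℝ) (D : Finset (Fin n)) :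
    ∑ V : Fin n → Bool, mu t V * (if ∀ i ∈ D, V i = true then 1 else 0) = t ^ D.card := by
  classical
  have e1 : ∀ V : Fin n → Bool, mu t V * (if ∀ i ∈ D, V i = true then (1 : ℝ) else 0) =
      ∏ i, (me t (V i) * (if i ∈ D then (if V i = true then 1 else 0) else 1)) := by
    intro V
    rw [Finset.prod_mul_distrib]
    unfold mu
    congr 1
    split_ifs with h
    · symm
      refine Finset.prod_eq_one fun i _ => ?_
      by_cases hi : i ∈ D
      · rw [if_pos hi, if_pos (h i hi)]
      · rw [if_neg hi]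
    · push Not at h
      obtain ⟨i, hi, hV⟩ := h
      symm
      refine Finset.prod_eq_zero (Finset.mem_univ i) ?_
      rw [if_pos hi, if_neg (by simpa using hV)]
  rw [Finset.sum_congr rfl fun V _ => e1 V,
    prod_sum_fun (fun i b => me t b * (if i ∈ D then (if b = true then 1 else 0) else 1))]
  have e2 : ∀ i : Fin n, ∑ b, me t b * (if i ∈ D then (if b = true then (1 : ℝ) else 0) else 1) =
      if i ∈ D then t else 1 := by
    intro i
    unfold me
    split_ifs <;> simp
  rw [Finset.prod_congr rfl fun i _ => e2 i, Finset.prod_ite_mem]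
  simp

/-- the words of the code which agree with `x` outside of the pattern `W` -/
def cl (C : Finset (Fin n → Bool)) (W x : Fin n → Bool) : Finset (Fin n → Bool) :=
  C.filter fun z => ∀ i, W i = false → z i = x i

lemma mem_cl {C : Finset (Fin n → Bool)} {W x z : Fin n → Bool} :
    z ∈ cl C W x ↔ z ∈ C ∧ ∀ i, W i = false → z i = x i := by
  unfold cl
  rw [Finset.mem_filter]

lemma self_mem {C : Finset (Fin n → Bool)} {W x : Fin n → Bool} (hx : x ∈ C) : x ∈ cl C W x :=
  mem_cl.2 ⟨hx, fun _ _ => rfl⟩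

lemma cl_pos {C : Finset (Fin n → Bool)} {W x : Fin n → Bool} (hx : x ∈ C) :
    0 < (cl C W x).card := Finset.card_pos.2 ⟨x, self_mem hx⟩

lemma cl_symm {C : Finset (Fin n → Bool)} {W x z : Fin n → Bool} (hx : x ∈ C)
    (hz : z ∈ cl C W x) : x ∈ cl C W z :=
  mem_cl.2 ⟨hx, fun i hi => ((mem_cl.1 hz).2 i hi).symm⟩

lemma cl_eq {C : Finset (Fin n → Bool)} {W x z : Fin n → Bool}
    (hz : ∀ i, W i = false → z i = x i) : cl C W z = cl C W x := by
  ext u
  rw [mem_cl, mem_cl]
  exact ⟨fun h => ⟨h.1, fun i hi => (h.2 i hi).trans (hz i hi)⟩,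
    fun h => ⟨h.1, fun i hi => (h.2 i hi).trans (hz i hi).symm⟩⟩

lemma cl_mono {C : Finset (Fin n → Bool)} {W W' x : Fin n → Bool}
    (h : ∀ i, W i = true → W' i = true) : cl C W x ⊆ cl C W' x := by
  intro z hz
  rw [mem_cl] at hz ⊢
  refine ⟨hz.1, fun i hi => hz.2 i ?_⟩
  by_contra hcon
  rw [Bool.not_eq_false] at hcon
  rw [h i hcon] at hi
  exact absurd hi (by simp)

/-- **one class counts at most once** -/
lemma class_le {C' T : Finset (Fin n → Bool)} {W z : Fin n → Bool} (hT : T ⊆ C')
    (hz : ∀ x ∈ T, ∀ i, W i = false → x i = z i) :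
    ∑ x ∈ T, 1 / ((cl C' W x).card : ℝ) ≤ 1 := by
  rcases T.eq_empty_or_nonempty with h | h
  · rw [h]; simp
  · have hc : (0 : ℝ) < T.card := by exact_mod_cast h.card_pos
    have h1 : ∀ x ∈ T, 1 / ((cl C' W x).card : ℝ) ≤ 1 / T.card := by
      intro x hx
      apply one_div_le_one_div_of_le hc
      have : T ⊆ cl C' W x := by
        intro u hu
        rw [mem_cl]
        exact ⟨hT hu, fun i hi => (hz u hu i hi).trans (hz x hx i hi).symm⟩
      exact_mod_cast Finset.card_le_card this
    calc ∑ x ∈ T, 1 / ((cl C' W x).card : ℝ) ≤ ∑ _x ∈ T, 1 / (T.card : ℝ) :=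
          Finset.sum_le_sum h1
      _ = 1 := by
          rw [Finset.sum_const, nsmul_eq_mul]
          field_simp

/-- **The union bound.** -/
lemma union_bound {t : ℝ} (h0 : 0 ≤ t) (h1 : t ≤ 1) {d : ℕ} {C : Finset (Fin n → Bool)}
    (hC : IsCode d C) {x : Fin n → Bool} (hx : x ∈ C) (W : Fin n → Bool) :
    ∑ V : Fin n → Bool, mu t V * (if 2 ≤ (cl C (fun i => W i && V i) x).card then 1 else 0) ≤
      (cl C W x).card * t ^ d := by
  classical
  have e1 : ∀ V : Fin n → Bool,
      (if 2 ≤ (cl C (fun i => W i && V i) x).card then (1 : ℝ) else 0) ≤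
      ∑ z ∈ (cl C W x).erase x, if ∀ i ∈ univ.filter (fun i => x i ≠ z i), V i = true
        then (1 : ℝ) else 0 := by
    intro V
    split_ifs with h
    · obtain ⟨z, hz, hzx⟩ := Finset.exists_mem_ne (lt_of_lt_of_le one_lt_two h) x
      have hz' : z ∈ (cl C W x).erase x := by
        rw [Finset.mem_erase]
        refine ⟨hzx, cl_mono (fun i hi => ?_) hz⟩
        simp only [Bool.and_eq_true] at hi
        exact hi.1
      have h2 : (if ∀ i ∈ univ.filter (fun i => x i ≠ z i), V i = true then (1 : ℝ) else 0) = 1 := by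
        rw [if_pos]
        intro i hi
        rw [Finset.mem_filter] at hi
        by_contra hcon
        have h3 := (mem_cl.1 hz).2 i (by simp [hcon])
        exact hi.2 h3.symm
      calc (1 : ℝ) = (if ∀ i ∈ univ.filter (fun i => x i ≠ z i), V i = true
            then (1 : ℝ) else 0) := h2.symm
        _ ≤ _ := Finset.single_le_sum (f := fun z => if ∀ i ∈ univ.filter (fun i => x i ≠ z i),
            V i = true then (1 : ℝ) else 0) (fun z _ => by positivity) hz'
    · exact Finset.sum_nonneg fun z _ => by split_ifs <;> norm_num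
  calc ∑ V : Fin n → Bool, mu t V * (if 2 ≤ (cl C (fun i => W i && V i) x).card then 1 else 0)
      ≤ ∑ V : Fin n → Bool, mu t V * ∑ z ∈ (cl C W x).erase x,
          (if ∀ i ∈ univ.filter (fun i => x i ≠ z i), V i = true then (1 : ℝ) else 0) :=
        Finset.sum_le_sum fun V _ => mul_le_mul_of_nonneg_left (e1 V) (mu_nonneg h0 h1 _)
    _ = ∑ z ∈ (cl C W x).erase x, t ^ (univ.filter (fun i => x i ≠ z i)).card := by
        simp_rw [Finset.mul_sum]
        rw [Finset.sum_comm]
        exact Finset.sum_congr rfl fun z _ => cover t _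
    _ ≤ ∑ _z ∈ (cl C W x).erase x, t ^ d := by
        refine Finset.sum_le_sum fun z hz => ?_
        rw [Finset.mem_erase] at hz
        exact pow_le_pow_of_le_one h0 h1 (hC x hx z (mem_cl.1 hz.2).1 hz.1.symm)
    _ ≤ (cl C W x).card * t ^ d := by
        rw [Finset.sum_const, nsmul_eq_mul]
        refine mul_le_mul_of_nonneg_right ?_ (pow_nonneg h0 _)
        exact_mod_cast Finset.card_erase_le

end Pool.Agent.Helper84.Era
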