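import Pool.Agent.Helper84.Era.Gen

/-!
The channel with side information through an erasure channel, and the strong converse.
-/

set_option autoImplicit false

namespace Pool.Agent.Helper84.Era

open Finset Filter Topology
open Pool.Agent.Helper84.Thresh
open Pool.Agent.Results.MP_0430e4_lc.ConstantWeightCriterion (IsCode H A R)
open Pool.Agent.Helper84.Chan (En Sym kc mc Ec rt errC optC worstC Cn Cn_eq kc_nonneg sum_kc
  kc_le_mc errC_eq optC_le le_optC worstC_le le_worstC worstC_nonneg optC_le_one errC_nonneg)

variable {n : ℕ} {Y : Type} [Fintype Y] {P : Bool → Y → ℝ} {π : Y → Y}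

/-- the channel together with an erased version of the input -/
noncomputable def sP (P : Bool → Y → ℝ) (e : ℝ) (b : Bool) (w : Y × Option Bool) : ℝ :=
  P b w.1 * bP e b w.2

lemma sSym (h : Sym P π) {e : ℝ} (h0 : 0 ≤ e) (h1 : e ≤ 1) :
    Sym (sP P e) (fun w => (π w.1, Option.map not w.2)) where
  nonneg := fun b w => mul_nonneg (h.nonneg _ _) ((bSym h0 h1).nonneg _ _)
  sum := fun b => by
    unfold sP
    rw [Fintype.sum_prod_type]
    simp only
    simp_rw [← Finset.mul_sum]
    rw [(bSym h0 h1).sum b]
    simp [h.sum]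
  inv := fun w => by
    simp only
    rw [h.inv, (bSym h0 h1).inv]
  symm := fun b w => by
    unfold sP
    simp only
    rw [h.symm, (bSym h0 h1).symm]

omit [Fintype Y] in
lemma kc_sP (e : ℝ) (x : Fin n → Bool) (w : Fin n → Y × Option Bool) :
    kc (sP P e) x w = kc P x (fun k => (w k).1) * kc (bP e) x (fun k => (w k).2) := by
  unfold kc sP
  rw [Finset.prod_mul_distrib]

lemma sum_pairs (F : (Fin n → Y) → (Fin n → Option Bool) → ℝ) :
    ∑ w : Fin n → Y × Option Bool, F (fun k => (w k).1) (fun k => (w k).2) =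
      ∑ y : Fin n → Y, ∑ s : Fin n → Option Bool, F y s := by
  rw [← Fintype.sum_prod_type' (f := F)]
  exact Fintype.sum_equiv (Equiv.arrowProdEquivProdArrow (Fin n) (fun _ => Y)
      (fun _ => Option Bool)) _ _ fun w => rfl

/-- the pattern covers the disagreements -/
def Cov (x z : Fin n → Bool) (s : Fin n → Option Bool) : Prop :=
  ∀ i ∈ univ.filter (fun i => x i ≠ z i), pat s i = true

open Classical in
/-- the indicator of `Cov` -/
noncomputable def cov (x z : Fin n → Bool) (s : Fin n → Option Bool) : ℝ :=
  if Cov x z s then 1 else 0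

lemma cov_nonneg (x z : Fin n → Bool) (s : Fin n → Option Bool) : 0 ≤ cov x z s := by
  unfold cov
  split_ifs <;> norm_num

lemma cov_one {x z : Fin n → Bool} {s : Fin n → Option Bool} (h : Cov x z s) :
    cov x z s = 1 := if_pos h

lemma sum_cov (e : ℝ) (x z : Fin n → Bool) :
    ∑ s : Fin n → Option Bool, kc (bP e) x s * cov x z s =
      e ^ (univ.filter (fun i => x i ≠ z i)).card := by
  classical
  rw [← cover, ← sum_kc_pat e x (fun W => if ∀ i ∈ univ.filter (fun i => x i ≠ z i), W i = true
              then (1 : ℝ) else 0)]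
  refine Finset.sum_congr rfl fun s _ => ?_
  unfold cov Cov
  congr

/-- the competitors of a word -/
noncomputable def comp (P : Bool → Y → ℝ) (C : Finset (Fin n → Bool)) (x : Fin n → Bool)
    (y : Fin n → Y) : Finset (Fin n → Bool) :=
  (C.erase x).filter (fun z => kc P x y ≤ kc P z y)

/-- the error probability with side information -/
lemma side_err (h : Sym P π) {e : ℝ} (h0 : 0 ≤ e) (h1 : e ≤ 1) {d : ℕ}
    {C : Finset (Fin n → Bool)} (hC : C.Nonempty) (hcode : IsCode d C) {M : ℝ} (hM : 0 < M) :
    optC (sP P e) C * C.card ≤ lowp P C M + M * e ^ d * C.card := by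
  classical
  have hcard : (0 : ℝ) < C.card := by exact_mod_cast hC.card_pos
  have hb := bSym h0 h1
  have hs := sSym h h0 h1
  -- the decoder
  have hex : ∀ w : Fin n → Y × Option Bool, ∃ z : Fin n → Bool,
      (∃ x ∈ C, kc (bP e) x (fun k => (w k).2) ≠ 0) →
      (z ∈ C ∧ kc (bP e) z (fun k => (w k).2) ≠ 0) ∧
        ∀ x ∈ C, kc (bP e) x (fun k => (w k).2) ≠ 0 →
          kc P x (fun k => (w k).1) ≤ kc P z (fun k => (w k).1) := by
    intro w
    by_cases hx : ∃ x ∈ C, kc (bP e) x (fun k => (w k).2) ≠ 0
    · obtain ⟨x, hx1, hx2⟩ := hx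
      obtain ⟨z, hz1, hz2⟩ := Finset.exists_max_image
        (C.filter fun x => kc (bP e) x (fun k => (w k).2) ≠ 0)
        (fun x => kc P x (fun k => (w k).1)) ⟨x, Finset.mem_filter.2 ⟨hx1, hx2⟩⟩
      exact ⟨z, fun _ => ⟨Finset.mem_filter.1 hz1, fun u hu1 hu2 =>
        hz2 u (Finset.mem_filter.2 ⟨hu1, hu2⟩)⟩⟩
    · exact ⟨fun _ => false, fun hh => absurd hh hx⟩
  choose D hD using hex
  have h2 := optC_le hs C D
  have h3 : optC (sP P e) C * C.card ≤ ∑ x ∈ C, ∑ w : Fin n → Y × Option Bool,
      if D w ≠ x then kc (sP P e) x w else 0 := by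
    unfold errC at h2
    rwa [le_div_iff₀ hcard] at h2
  refine h3.trans ?_
  -- the events
  have e1 : ∀ x ∈ C, ∀ w : Fin n → Y × Option Bool,
      (if D w ≠ x then kc (sP P e) x w else 0) ≤
        kc P x (fun k => (w k).1) * (if M * kc P x (fun k => (w k).1) ≤
            mc P C (fun k => (w k).1) then 1 else 0) * kc (bP e) x (fun k => (w k).2) +
        kc P x (fun k => (w k).1) * (if mc P C (fun k => (w k).1) <
            M * kc P x (fun k => (w k).1) then 1 else 0) *
          ∑ z ∈ comp P C x (fun k => (w k).1), kc (bP e) x (fun k => (w k).2) *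
              cov x z (fun k => (w k).2) := by
    intro x hx w
    have k1 := kc_nonneg h x (fun k => (w k).1)
    have k2 := kc_nonneg hb x (fun k => (w k).2)
    have k3 : 0 ≤ ∑ z ∈ comp P C x (fun k => (w k).1), kc (bP e) x (fun k => (w k).2) *
              cov x z (fun k => (w k).2) :=
      Finset.sum_nonneg fun z _ => mul_nonneg k2 (cov_nonneg _ _ _)
    have k4 : 0 ≤ kc P x (fun k => (w k).1) * (if M * kc P x (fun k => (w k).1) ≤
            mc P C (fun k => (w k).1) then 1 else 0) * kc (bP e) x (fun k => (w k).2) :=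
      mul_nonneg (mul_nonneg k1 (by split_ifs <;> norm_num)) k2
    have k5 : 0 ≤ kc P x (fun k => (w k).1) * (if mc P C (fun k => (w k).1) <
            M * kc P x (fun k => (w k).1) then 1 else 0) *
          ∑ z ∈ comp P C x (fun k => (w k).1), kc (bP e) x (fun k => (w k).2) *
              cov x z (fun k => (w k).2) :=
      mul_nonneg (mul_nonneg k1 (by split_ifs <;> norm_num)) k3
    by_cases hx1 : D w ≠ x
    swap
    · rw [if_neg hx1]
      exact add_nonneg k4 k5
    rw [if_pos hx1, kc_sP]
    by_cases hx2 : kc (bP e) x (fun k => (w k).2) = 0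
    · rw [hx2, mul_zero]
      rw [hx2] at k4 k5
      exact add_nonneg k4 k5
    by_cases hx3 : M * kc P x (fun k => (w k).1) ≤ mc P C (fun k => (w k).1)
    · rw [if_pos hx3, mul_one]
      linarith
    · have hx4 : mc P C (fun k => (w k).1) < M * kc P x (fun k => (w k).1) := not_le.1 hx3
      rw [if_pos hx4, mul_one]
      obtain ⟨⟨hz1, hz2⟩, hz3⟩ := hD w ⟨x, hx, hx2⟩
      have hz4 := hz3 x hx hx2
      have hmem : D w ∈ comp P C x (fun k => (w k).1) :=
        Finset.mem_filter.2 ⟨Finset.mem_erase.2 ⟨hx1, hz1⟩, hz4⟩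
      have hall : Cov x (D w) (fun k => (w k).2) := by
        intro i hi
        rw [Finset.mem_filter] at hi
        by_contra hcon
        rw [Bool.not_eq_true] at hcon
        have a1 := kc_consistent hx2 i hcon
        have a2 := kc_consistent hz2 i hcon
        rw [a1] at a2
        exact hi.2 (Option.some.inj a2)
      have hle : kc (bP e) x (fun k => (w k).2) ≤
          ∑ z ∈ comp P C x (fun k => (w k).1), kc (bP e) x (fun k => (w k).2) *
              cov x z (fun k => (w k).2) := by
        refine le_trans (le_of_eq ?_) (Finset.single_le_sum (f := fun z =>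
          kc (bP e) x (fun k => (w k).2) *
              cov x z (fun k => (w k).2)) (fun z _ => mul_nonneg k2 (cov_nonneg _ _ _)) hmem)
        rw [cov_one hall, mul_one]
      have := mul_le_mul_of_nonneg_left hle k1
      linarith
  refine (Finset.sum_le_sum fun x hx => Finset.sum_le_sum fun w _ => e1 x hx w).trans ?_
  have e2 : ∀ x ∈ C, ∑ w : Fin n → Y × Option Bool,
      (kc P x (fun k => (w k).1) * (if M * kc P x (fun k => (w k).1) ≤
            mc P C (fun k => (w k).1) then 1 else 0) * kc (bP e) x (fun k => (w k).2) +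
        kc P x (fun k => (w k).1) * (if mc P C (fun k => (w k).1) <
            M * kc P x (fun k => (w k).1) then 1 else 0) *
          ∑ z ∈ comp P C x (fun k => (w k).1), kc (bP e) x (fun k => (w k).2) *
              cov x z (fun k => (w k).2)) ≤
      ∑ y : Fin n → Y, kc P x y * (if M * kc P x y ≤ mc P C y then 1 else 0) + M * e ^ d := by
    intro x hx
    rw [sum_pairs (fun y s => kc P x y * (if M * kc P x y ≤ mc P C y then 1 else 0) *
        kc (bP e) x s + kc P x y * (if mc P C y < M * kc P x y then 1 else 0) *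
          ∑ z ∈ comp P C x y, kc (bP e) x s * cov x z s)]
    have e3 : ∀ y : Fin n → Y, ∑ s : Fin n → Option Bool,
        (kc P x y * (if M * kc P x y ≤ mc P C y then 1 else 0) *
        kc (bP e) x s + kc P x y * (if mc P C y < M * kc P x y then 1 else 0) *
          ∑ z ∈ comp P C x y, kc (bP e) x s * cov x z s) ≤
        kc P x y * (if M * kc P x y ≤ mc P C y then 1 else 0) + kc P x y * (M * e ^ d) := by
      intro y
      rw [Finset.sum_add_distrib, ← Finset.mul_sum, sum_kc hb, mul_one, ← Finset.mul_sum,
        Finset.sum_comm]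
      have e4 : ∀ z ∈ comp P C x y,
          ∑ s : Fin n → Option Bool, kc (bP e) x s * cov x z s ≤ e ^ d := by
        intro z hz
        unfold comp at hz
        rw [Finset.mem_filter, Finset.mem_erase] at hz
        rw [sum_cov]
        exact pow_le_pow_of_le_one h0 h1 (hcode x hx z hz.1.2 hz.1.1.symm)
      have e5 := Finset.sum_le_sum e4
      rw [Finset.sum_const, nsmul_eq_mul] at e5
      have k1 := kc_nonneg h x y
      refine add_le_add le_rfl ?_
      rw [mul_assoc]
      refine mul_le_mul_of_nonneg_left ?_ k1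
      have ed : 0 ≤ e ^ d := pow_nonneg h0 d
      by_cases hlt : mc P C y < M * kc P x y
      · rw [if_pos hlt, one_mul]
        refine e5.trans (mul_le_mul_of_nonneg_right ?_ ed)
        -- the number of the competitors
        have hk : 0 < kc P x y := by
          rcases k1.eq_or_lt with hk | hk
          · rw [← hk, mul_zero] at hlt
            exact absurd hlt (not_lt.2 (mc_nonneg h C y))
          · exact hk
        have h6 : ((comp P C x y).card : ℝ) * kc P x y ≤
            M * kc P x y := by
          calc ((comp P C x y).card : ℝ) * kc P x y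
              = ∑ z ∈ comp P C x y, kc P x y := by
                rw [Finset.sum_const, nsmul_eq_mul]
            _ ≤ ∑ z ∈ comp P C x y, kc P z y :=
                Finset.sum_le_sum fun z hz => (Finset.mem_filter.1 hz).2
            _ ≤ mc P C y := by
                unfold mc comp
                exact Finset.sum_le_sum_of_subset_of_nonneg
                  ((Finset.filter_subset _ _).trans (Finset.erase_subset _ _))
                  fun z _ _ => kc_nonneg h z y
            _ ≤ M * kc P x y := hlt.le
        exact le_of_mul_le_mul_right h6 hk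
      · rw [if_neg hlt, zero_mul]
        exact mul_nonneg hM.le ed
    refine (Finset.sum_le_sum fun y _ => e3 y).trans (le_of_eq ?_)
    rw [Finset.sum_add_distrib, ← Finset.sum_mul, sum_kc h, one_mul]
  refine (Finset.sum_le_sum e2).trans (le_of_eq ?_)
  rw [Finset.sum_add_distrib, Finset.sum_const, nsmul_eq_mul]
  unfold lowp
  ring

/-- **The dichotomy with side information.** -/
lemma side_law (h : Sym P π) {δ e : ℝ} (hδ : 0 < δ) (he0 : 0 < e) (he1 : e < 1) :
    ∃ c : ℝ, 0 < c ∧ ∀ n : ℕ, worstC δ (sP P e) n ≤ 3 * Real.exp (-(c * n)) ∨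
      1 - 3 * Real.exp (-(c * n)) ≤ worstC δ P n := by
  classical
  have hlt : 0 < -Real.log e := by
    have := Real.log_neg he0 he1
    linarith
  set η : ℝ := δ * (-Real.log e) / 2 with hη
  have hη0 : 0 < η := by positivity
  obtain ⟨c, hc, hd⟩ := dichY h hη0
  have hcc : ∀ (n : ℕ), Real.exp (-(c * n)) ≤ Real.exp (-(min c η * n)) := fun n => by
    apply Real.exp_le_exp.2
    have := mul_le_mul_of_nonneg_right (min_le_left c η) (Nat.cast_nonneg (α := ℝ) n)
    linarith
  have hcη : ∀ (n : ℕ), Real.exp (-(η * n)) ≤ Real.exp (-(min c η * n)) := fun n => by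
    apply Real.exp_le_exp.2
    have := mul_le_mul_of_nonneg_right (min_le_right c η) (Nat.cast_nonneg (α := ℝ) n)
    linarith
  refine ⟨min c η, lt_min hc hη0, fun n => ?_⟩
  by_cases hall : ∀ C : Finset (Fin n → Bool), C.Nonempty → IsCode ⌈δ * n⌉₊ C →
      lowp P C (Real.exp (η * n)) ≤ 2 * Real.exp (-(c * n)) * C.card
  · left
    apply worstC_le
    intro C hC hcode
    have hcard : (0 : ℝ) < C.card := by exact_mod_cast hC.card_pos
    have h1 := side_err h he0.le he1.le hC hcode (Real.exp_pos (η * n))
    have h2 : Real.exp (η * n) * e ^ ⌈δ * n⌉₊ ≤ Real.exp (-(η * n)) := by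
      have h3 : e ^ ⌈δ * n⌉₊ ≤ Real.exp (-(2 * η * n)) := by
        rw [← Real.rpow_natCast]
        calc e ^ ((⌈δ * n⌉₊ : ℕ) : ℝ) ≤ e ^ (δ * n) :=
              Real.rpow_le_rpow_of_exponent_ge he0 he1.le (Nat.le_ceil _)
          _ = Real.exp (-(2 * η * n)) := by
              rw [Real.rpow_def_of_pos he0]
              congr 1
              rw [hη]
              ring
      calc Real.exp (η * n) * e ^ ⌈δ * n⌉₊ ≤ Real.exp (η * n) * Real.exp (-(2 * η * n)) :=
            mul_le_mul_of_nonneg_left h3 (Real.exp_pos _).le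
        _ = Real.exp (-(η * n)) := by
            rw [← Real.exp_add]
            congr 1
            ring
    have h4 := hall C hC hcode
    have h5 := mul_le_mul_of_nonneg_right (h2.trans (hcη n)) hcard.le
    have h6 := mul_le_mul_of_nonneg_right (hcc n) hcard.le
    have h7 : optC (sP P e) C * C.card ≤ 3 * Real.exp (-(min c η * n)) * C.card := by linarith
    exact le_of_mul_le_mul_right h7 hcard
  · right
    push Not at hall
    obtain ⟨C, hC, hcode, hbig⟩ := hall
    rcases hd n C hC with h1 | ⟨C', hsub, hC', hs⟩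
    · exact absurd h1 (not_le.2 hbig)
    · have h3 := le_worstC h hC' (code_sub hcode hsub)
      have := hcc n
      linarith

lemma worst_one (h : Sym P π) (δ : ℝ) (n : ℕ) : worstC δ P n ≤ 1 :=
  worstC_le fun _ _ _ => optC_le_one h _

/-- **The zero-one law for symmetric channels.** -/
lemma side_zero_one (h : Sym P π) {δ e : ℝ} (hδ : 0 < δ) (he0 : 0 < e) (he1 : e < 1) :
    ∃ c : ℝ, 0 < c ∧ ∀ n : ℕ, worstC δ (sP P e) n ≤ 2 * Real.exp (-(c * n)) ∨
      1 - Real.exp (-(c * n)) ≤ worstC δ P n := by
  obtain ⟨c, hc, hl⟩ := side_law h hδ he0 he1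
  refine ⟨c / 4, by positivity, fun n => ?_⟩
  have hn : (0 : ℝ) ≤ n := Nat.cast_nonneg _
  by_cases hbig : Real.log 3 ≤ 3 / 4 * c * n
  · have h3 : 3 * Real.exp (-(c * n)) ≤ Real.exp (-(c / 4 * n)) := by
      calc 3 * Real.exp (-(c * n)) = Real.exp (Real.log 3) * Real.exp (-(c * n)) := by
            rw [Real.exp_log (by norm_num)]
        _ = Real.exp (Real.log 3 - c * n) := by rw [← Real.exp_add]; rfl
        _ ≤ _ := by
            apply Real.exp_le_exp.2
            linarith
    rcases hl n with h1 | h1
    · left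
      have := Real.exp_pos (-(c / 4 * n))
      linarith
    · right
      linarith
  · left
    push Not at hbig
    have h1 := worst_one (sSym h he0.le he1.le) δ n
    refine h1.trans ?_
    have h2 : Real.log 3 ≤ 3 * Real.log 2 := by
      rw [← Real.log_rpow (by norm_num)]
      exact Real.log_le_log (by norm_num) (by norm_num)
    have h3 : Real.exp (-Real.log 2) ≤ Real.exp (-(c / 4 * n)) := by
      apply Real.exp_le_exp.2
      linarith
    rw [Real.exp_neg, Real.exp_log (by norm_num)] at h3
    linarith

/-- the noiseless channel -/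
lemma worst_zero (δ : ℝ) (n : ℕ) : worstC δ (bP 0) n ≤ 0 := by
  classical
  apply worstC_le
  intro C hC hcode
  refine (optC_le (bSym le_rfl zero_le_one) C (fun y k => (y k).getD false)).trans ?_
  unfold errC
  refine le_of_eq ?_
  rw [Finset.sum_eq_zero, zero_div]
  intro x _
  refine Finset.sum_eq_zero fun y _ => ?_
  split_ifs with hne
  · by_contra hk
    apply hne
    funext k
    have h1 : bP 0 (x k) (y k) ≠ 0 := Finset.prod_ne_zero_iff.1 hk k (Finset.mem_univ k)
    cases hy : y k with
    | none => rw [hy, bP_none] at h1; exact absurd rfl h1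
    | some c =>
      rw [hy, bP_some] at h1
      by_cases hc : c = x k
      · change (y k).getD false = x k
        rw [hy, hc]
        rfl
      · rw [if_neg hc] at h1
        exact absurd rfl h1
  · rfl

/-- the capacity with side information -/
lemma Cn_sP (h : Sym P π) {e : ℝ} (h0 : 0 ≤ e) (h1 : e ≤ 1) :
    Cn (sP P e) = e * Cn P + (1 - e) * Real.log 2 := by
  rw [Cn_eq (sSym h h0 h1), Cn_eq h, Fintype.sum_prod_type]
  have e1 : ∀ y : Y, ∑ s : Option Bool, Chan.wt (sP P e) (y, s) *
      Real.binEntropy (rt (sP P e) (y, s)) = e * (Chan.wt P y * Real.binEntropy (rt P y)) := by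
    intro y
    rw [Fintype.sum_option, Fintype.sum_bool]
    have a1 : Chan.wt (sP P e) (y, none) = e * Chan.wt P y := by
      unfold Chan.wt sP
      simp only
      rw [bP_none, bP_none]
      ring
    have a2 : e ≠ 0 → rt (sP P e) (y, none) = rt P y := by
      intro he
      unfold rt sP
      simp only
      rw [bP_none, bP_none, ← add_mul, mul_div_mul_right _ _ he]
    have a3 : Real.binEntropy (rt (sP P e) (y, some false)) = 0 := by
      unfold rt sP
      simp only
      rw [bP_some, bP_some]
      simp
    have a4 : Real.binEntropy (rt (sP P e) (y, some true)) = 0 := by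
      unfold rt sP
      simp only
      rw [bP_some, bP_some]
      by_cases hz : P true y * (1 - e) = 0
      · simp [hz]
      · simp [hz]
    rw [a1, a3, a4]
    by_cases he : e = 0
    · simp [he]
    · rw [a2 he]
      ring
  rw [Finset.sum_congr rfl fun y _ => e1 y, ← Finset.mul_sum]
  ring

/-- **The strong converse.**  Below the capacity `1 - ε*` there are codes whose error probability
is exponentially close to `1`. -/
lemma bad_strong (h : Sym P π) {δ : ℝ} (h0 : 0 < δ) (h1 : δ < 1 / 2)
    (hc : Cn P < (1 - es δ) * Real.log 2) :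
    ∃ c : ℝ, 0 < c ∧ ∃ᶠ n : ℕ in atTop, 1 - Real.exp (-(c * n)) ≤ worstC δ P n := by
  have hlog : 0 < Real.log 2 := Real.log_pos (by norm_num)
  -- the erasure probability of the side information
  have hcont : Tendsto (fun e : ℝ => e * Cn P + (1 - e) * Real.log 2) (𝓝[<] 1)
      (𝓝 (1 * Cn P + (1 - 1) * Real.log 2)) := by
    have : Continuous fun e : ℝ => e * Cn P + (1 - e) * Real.log 2 := by fun_prop
    exact (this.tendsto 1).mono_left nhdsWithin_le_nhds
  have h2 : ∀ᶠ e : ℝ in 𝓝[<] 1, e * Cn P + (1 - e) * Real.log 2 < (1 - es δ) * Real.log 2 :=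
    hcont.eventually (gt_mem_nhds (by linarith))
  obtain ⟨e, he1, he2⟩ := (h2.and (Ioo_mem_nhdsLT (zero_lt_one (α := ℝ)))).exists
  have hb := bad_channel (sSym h he2.1.le he2.2.le) h0 h1 (by
    rw [Cn_sP h he2.1.le he2.2.le]
    exact he1)
  obtain ⟨c, hc0, hl⟩ := side_zero_one h h0 he2.1 he2.2
  refine ⟨c, hc0, ?_⟩
  by_contra hcon
  rw [Filter.not_frequently] at hcon
  apply hb
  refine tendsto_of_tendsto_of_tendsto_of_le_of_le' tendsto_const_nhds
    (?_ : Tendsto (fun n : ℕ => 2 * Real.exp (-(c * n))) atTop (𝓝 0))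
    (Eventually.of_forall fun n => worstC_nonneg (sSym h he2.1.le he2.2.le) δ n) ?_
  · have := (tendsto_exp hc0).const_mul 2
    rwa [mul_zero] at this
  · filter_upwards [hcon] with n hn
    rcases hl n with h4 | h4
    · exact h4
    · exact absurd h4 hn

end Pool.Agent.Helper84.Era
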